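import Mathlib

set_option autoImplicit false

open scoped BigOperators
open Classical

namespace RM44

variable {G : Type}

/-- codegree -/
noncomputable def codeg (S : Finset G) (R : G → G → Prop) (a a' : G) : ℕ :=
  (S.filter (fun b => R a b ∧ R a' b)).card

/-- number of paths of length three -/
noncomputable def path3 (S : Finset G) (R : G → G → Prop) (a b : G) : ℕ :=
  ((S ×ˢ S).filter (fun z => R a z.1 ∧ R z.2 z.1 ∧ R z.2 b)).card

/-- The Balog-Szemeredi-Gowers graph lemma. -/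
theorem bsg (S : Finset G) (R : G → G → Prop) (α : ℝ) (hα : 0 < α) (hS : S.Nonempty)
    (hE : α * (S.card : ℝ) ^ 2 ≤ (((S ×ˢ S).filter (fun z => R z.1 z.2)).card : ℝ)) :
    ∃ A B : Finset G, A ⊆ S ∧ B ⊆ S ∧ α * S.card / 6 ≤ (A.card : ℝ) ∧
      α * S.card / 6 ≤ (B.card : ℝ) ∧
      ∀ a ∈ A, ∀ b ∈ B, α ^ 5 * (S.card : ℝ) ^ 2 / 4096 ≤ (path3 S R a b : ℝ) := by
  set n : ℝ := (S.card : ℝ) with hn
  have hn0 : 0 < n := by
    have := Finset.card_pos.2 hS
    rw [hn]; exact_mod_cast this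
  -- degrees
  let dg : G → ℝ := fun a => ((S.filter (fun b => R a b)).card : ℝ)
  have hdg : ∀ a, dg a = ∑ b ∈ S, (if R a b then (1 : ℝ) else 0) := by
    intro a
    simp only [dg]
    rw [Finset.card_filter]; push_cast; rfl
  have hdg_le : ∀ a, dg a ≤ n := by
    intro a
    simp only [dg, hn]
    exact_mod_cast Finset.card_filter_le _ _
  have hEsum : ∑ a ∈ S, dg a = (((S ×ˢ S).filter (fun z => R z.1 z.2)).card : ℝ) := by
    rw [Finset.card_filter]; push_cast
    rw [Finset.sum_product]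
    exact Finset.sum_congr rfl (fun a _ => hdg a)
  set A1 : Finset G := S.filter (fun a => α * n / 2 ≤ dg a) with hA1
  have hA1sum : α * n ^ 2 / 2 ≤ ∑ a ∈ A1, dg a := by
    have h1 : ∑ a ∈ S, dg a = ∑ a ∈ A1, dg a + ∑ a ∈ S.filter (fun a => ¬ (α * n / 2 ≤ dg a)), dg a :=
      (Finset.sum_filter_add_sum_filter_not _ _ _).symm
    have h2 : ∑ a ∈ S.filter (fun a => ¬ (α * n / 2 ≤ dg a)), dg a ≤ n * (α * n / 2) := by
      calc ∑ a ∈ S.filter (fun a => ¬ (α * n / 2 ≤ dg a)), dg a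
          ≤ ∑ a ∈ S.filter (fun a => ¬ (α * n / 2 ≤ dg a)), (α * n / 2) := by
            refine Finset.sum_le_sum (fun a ha => ?_)
            exact (not_le.1 (Finset.mem_filter.1 ha).2).le
        _ = ((S.filter (fun a => ¬ (α * n / 2 ≤ dg a))).card : ℝ) * (α * n / 2) := by
            rw [Finset.sum_const, nsmul_eq_mul]
        _ ≤ n * (α * n / 2) := by
            refine mul_le_mul_of_nonneg_right ?_ (by positivity)
            rw [hn]; exact_mod_cast Finset.card_filter_le _ _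
    rw [hEsum] at h1
    nlinarith
  -- neighbourhoods in A1
  let X : G → Finset G := fun b => A1.filter (fun a => R a b)
  have hXcard : ∀ b, ((X b).card : ℝ) = ∑ a ∈ A1, (if R a b then (1 : ℝ) else 0) := by
    intro b
    simp only [X]
    rw [Finset.card_filter]; push_cast; rfl
  have hXsum : ∑ b ∈ S, ((X b).card : ℝ) = ∑ a ∈ A1, dg a := by
    simp only [hXcard, hdg]
    rw [Finset.sum_comm]
  have hXsq : α ^ 2 * n ^ 3 / 4 ≤ ∑ b ∈ S, ((X b).card : ℝ) ^ 2 := by
    have h1 := sq_sum_le_card_mul_sum_sq (s := S) (f := fun b => ((X b).card : ℝ))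
    rw [hXsum] at h1
    have h2 : (α * n ^ 2 / 2) ^ 2 ≤ (∑ a ∈ A1, dg a) ^ 2 :=
      pow_le_pow_left₀ (by positivity) hA1sum 2
    have h3 : n * (α ^ 2 * n ^ 3 / 4) ≤ n * ∑ b ∈ S, ((X b).card : ℝ) ^ 2 := by
      calc n * (α ^ 2 * n ^ 3 / 4) = (α * n ^ 2 / 2) ^ 2 := by ring
        _ ≤ _ := h2.trans h1
    exact le_of_mul_le_mul_left h3 hn0
  set τ : ℝ := α ^ 3 / 128 with hτ
  obtain ⟨bad, hbad⟩ : ∃ bad : G → G → Prop, ∀ a a', bad a a' ↔ (codeg S R a a' : ℝ) < τ * n :=
    ⟨fun a a' => (codeg S R a a' : ℝ) < τ * n, fun _ _ => Iff.rfl⟩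
  let bd : G → ℝ := fun b => (((X b) ×ˢ (X b)).filter (fun z => bad z.1 z.2)).card
  have hbdsum : ∑ b ∈ S, bd b ≤ n ^ 2 * (τ * n) := by
    have h1 : ∀ b, bd b = ∑ z ∈ A1 ×ˢ A1, (if bad z.1 z.2 ∧ R z.1 b ∧ R z.2 b then (1 : ℝ) else 0) := by
      intro b
      simp only [bd]
      have : ((X b) ×ˢ (X b)).filter (fun z => bad z.1 z.2)
          = (A1 ×ˢ A1).filter (fun z => bad z.1 z.2 ∧ R z.1 b ∧ R z.2 b) := by
        ext z
        simp only [X, Finset.mem_filter, Finset.mem_product]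
        tauto
      rw [this, Finset.card_filter]; push_cast; rfl
    simp only [h1]
    rw [Finset.sum_comm]
    have h2 : ∀ z ∈ A1 ×ˢ A1, ∑ b ∈ S, (if bad z.1 z.2 ∧ R z.1 b ∧ R z.2 b then (1 : ℝ) else 0)
        ≤ τ * n := by
      intro z _
      by_cases hz : bad z.1 z.2
      · have h3 : ∑ b ∈ S, (if bad z.1 z.2 ∧ R z.1 b ∧ R z.2 b then (1 : ℝ) else 0)
            = (codeg S R z.1 z.2 : ℝ) := by
          unfold codeg
          rw [Finset.card_filter]; push_cast
          refine Finset.sum_congr rfl (fun b _ => ?_)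
          simp [hz]
        rw [h3]; exact ((hbad _ _).1 hz).le
      · have h3 : ∑ b ∈ S, (if bad z.1 z.2 ∧ R z.1 b ∧ R z.2 b then (1 : ℝ) else 0) = 0 :=
          Finset.sum_eq_zero (fun b _ => by simp [hz])
        rw [h3]; positivity
    calc ∑ z ∈ A1 ×ˢ A1, ∑ b ∈ S, (if bad z.1 z.2 ∧ R z.1 b ∧ R z.2 b then (1 : ℝ) else 0)
        ≤ ∑ z ∈ A1 ×ˢ A1, τ * n := Finset.sum_le_sum h2
      _ = ((A1.card : ℝ) * (A1.card : ℝ)) * (τ * n) := by
          rw [Finset.sum_const, Finset.card_product, nsmul_eq_mul]; push_cast; ring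
      _ ≤ n ^ 2 * (τ * n) := by
          have h4 : (A1.card : ℝ) ≤ n := by rw [hn]; exact_mod_cast Finset.card_filter_le _ _
          refine mul_le_mul_of_nonneg_right ?_ (by positivity)
          nlinarith [Nat.cast_nonneg (α := ℝ) A1.card]
  obtain ⟨b0, hb0S, hb0⟩ : ∃ b0 ∈ S, α ^ 2 * n ^ 2 / 8 ≤ ((X b0).card : ℝ) ^ 2 - 16 / α * bd b0 := by
    refine Finset.exists_le_of_sum_le hS ?_
    rw [Finset.sum_const, Finset.sum_sub_distrib, ← Finset.mul_sum, nsmul_eq_mul, ← hn]
    have h1 : 16 / α * ∑ b ∈ S, bd b ≤ 16 / α * (n ^ 2 * (τ * n)) :=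
      mul_le_mul_of_nonneg_left hbdsum (by positivity)
    have h2 : 16 / α * (n ^ 2 * (τ * n)) = α ^ 2 * n ^ 3 / 8 := by
      rw [hτ]; field_simp; norm_num
    nlinarith
  set X0 := X b0 with hX0
  set x : ℝ := (X0.card : ℝ) with hx
  have hX0S : X0 ⊆ S := (Finset.filter_subset _ _).trans (Finset.filter_subset _ _)
  have hbd0 : 0 ≤ bd b0 := Nat.cast_nonneg _
  have hx0 : 0 ≤ x := Nat.cast_nonneg _
  have hxsq : α ^ 2 * n ^ 2 / 8 ≤ x ^ 2 := by
    have : 0 ≤ 16 / α * bd b0 := mul_nonneg (by positivity) hbd0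
    linarith
  have hxpos : 0 < x := by
    rcases hx0.lt_or_eq with h | h
    · exact h
    · exfalso
      have h1 : 0 < α ^ 2 * n ^ 2 / 8 :=
        div_pos (mul_pos (pow_pos hα 2) (pow_pos hn0 2)) (by norm_num)
      have h2 : x ^ 2 = 0 := by rw [← h]; norm_num
      linarith
  have hxlow : α * n / 3 ≤ x := by
    refine le_of_sq_le_sq ?_ hx0
    have h1 : 0 ≤ α ^ 2 * n ^ 2 := by positivity
    have h2 : (α * n / 3) ^ 2 = α ^ 2 * n ^ 2 / 9 := by ring
    rw [h2]
    linarith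
  have hbdx : bd b0 ≤ α / 16 * x ^ 2 := by
    have h1 : 16 / α * bd b0 ≤ x ^ 2 := by
      have : 0 ≤ α ^ 2 * n ^ 2 / 8 := by positivity
      linarith
    have h2 : bd b0 = α / 16 * (16 / α * bd b0) := by field_simp
    rw [h2]
    exact mul_le_mul_of_nonneg_left h1 (by positivity)
  -- the good vertices
  let nb : G → ℝ := fun a => ((X0.filter (fun a' => bad a a')).card : ℝ)
  have hnbsum : ∑ a ∈ X0, nb a = bd b0 := by
    simp only [bd, nb]
    rw [Finset.card_filter]; push_cast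
    rw [Finset.sum_product]
    refine Finset.sum_congr rfl (fun a _ => ?_)
    rw [Finset.card_filter]; push_cast; rfl
  set A2 : Finset G := X0.filter (fun a => nb a ≤ α / 8 * x) with hA2
  have hA2card : x / 2 ≤ (A2.card : ℝ) := by
    have h1 : ∑ a ∈ X0.filter (fun a => ¬ (nb a ≤ α / 8 * x)), (α / 8 * x) ≤ ∑ a ∈ X0, nb a := by
      calc ∑ a ∈ X0.filter (fun a => ¬ (nb a ≤ α / 8 * x)), (α / 8 * x)
          ≤ ∑ a ∈ X0.filter (fun a => ¬ (nb a ≤ α / 8 * x)), nb a :=
            Finset.sum_le_sum (fun a ha => (not_le.1 (Finset.mem_filter.1 ha).2).le)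
        _ ≤ ∑ a ∈ X0, nb a :=
            Finset.sum_le_sum_of_subset_of_nonneg (Finset.filter_subset _ _)
              (fun a _ _ => Nat.cast_nonneg _)
    rw [Finset.sum_const, nsmul_eq_mul, hnbsum] at h1
    have h2 : ((X0.filter (fun a => ¬ (nb a ≤ α / 8 * x))).card : ℝ) * (α / 8 * x)
        ≤ (x / 2) * (α / 8 * x) := by
      calc _ ≤ bd b0 := h1
        _ ≤ α / 16 * x ^ 2 := hbdx
        _ = _ := by ring
    have h3 := le_of_mul_le_mul_right h2 (by positivity)
    have h4 : A2.card + (X0.filter (fun a => ¬ (nb a ≤ α / 8 * x))).card = X0.card :=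
      Finset.card_filter_add_card_filter_not _
    have h5 : (A2.card : ℝ) + ((X0.filter (fun a => ¬ (nb a ≤ α / 8 * x))).card : ℝ) = x := by
      rw [hx]; exact_mod_cast h4
    linarith
  let en : G → ℝ := fun b => ((X0.filter (fun a => R a b)).card : ℝ)
  have hen_le : ∀ b, en b ≤ x := by
    intro b
    simp only [en, hx]
    exact_mod_cast Finset.card_filter_le _ _
  have hensum : α * n / 2 * x ≤ ∑ b ∈ S, en b := by
    have h1 : ∑ b ∈ S, en b = ∑ a ∈ X0, dg a := by
      simp only [en, hdg]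
      rw [Finset.sum_comm]
      refine Finset.sum_congr rfl (fun b _ => ?_)
      rw [Finset.card_filter]; push_cast; rfl
    rw [h1]
    calc α * n / 2 * x = ∑ a ∈ X0, (α * n / 2) := by
          rw [Finset.sum_const, nsmul_eq_mul, ← hx]; ring
      _ ≤ ∑ a ∈ X0, dg a := by
          refine Finset.sum_le_sum (fun a ha => ?_)
          exact (Finset.mem_filter.1 (Finset.mem_filter.1 ha).1).2
  set B2 : Finset G := S.filter (fun b => α / 4 * x ≤ en b) with hB2
  have hB2card : α * n / 4 ≤ (B2.card : ℝ) := by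
    have h1 : ∑ b ∈ S, en b = ∑ b ∈ B2, en b + ∑ b ∈ S.filter (fun b => ¬ (α / 4 * x ≤ en b)), en b :=
      (Finset.sum_filter_add_sum_filter_not _ _ _).symm
    have h2 : ∑ b ∈ B2, en b ≤ (B2.card : ℝ) * x := by
      calc ∑ b ∈ B2, en b ≤ ∑ b ∈ B2, x := Finset.sum_le_sum (fun b _ => hen_le b)
        _ = _ := by rw [Finset.sum_const, nsmul_eq_mul]
    have h3 : ∑ b ∈ S.filter (fun b => ¬ (α / 4 * x ≤ en b)), en b ≤ n * (α / 4 * x) := by
      calc ∑ b ∈ S.filter (fun b => ¬ (α / 4 * x ≤ en b)), en b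
          ≤ ∑ b ∈ S.filter (fun b => ¬ (α / 4 * x ≤ en b)), (α / 4 * x) :=
            Finset.sum_le_sum (fun b hb => (not_le.1 (Finset.mem_filter.1 hb).2).le)
        _ = ((S.filter (fun b => ¬ (α / 4 * x ≤ en b))).card : ℝ) * (α / 4 * x) := by
            rw [Finset.sum_const, nsmul_eq_mul]
        _ ≤ n * (α / 4 * x) := by
            refine mul_le_mul_of_nonneg_right ?_ (by positivity)
            rw [hn]; exact_mod_cast Finset.card_filter_le _ _
    have h4 : α * n / 4 * x ≤ (B2.card : ℝ) * x := by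
      have : α * n / 4 * x = α * n / 2 * x - n * (α / 4 * x) := by ring
      linarith
    exact le_of_mul_le_mul_right h4 hxpos
  refine ⟨A2, B2, (Finset.filter_subset _ _).trans hX0S, Finset.filter_subset _ _, ?_, ?_, ?_⟩
  · linarith
  · have : 0 ≤ α * n := by positivity
    linarith
  · intro a ha b hb
    have ha2 := (Finset.mem_filter.1 ha).2
    have hb2 := (Finset.mem_filter.1 hb).2
    -- good middle vertices
    set M : Finset G := X0.filter (fun a' => R a' b ∧ ¬ bad a a') with hM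
    have hMcard : α / 8 * x ≤ (M.card : ℝ) := by
      have h1 : X0.filter (fun a' => R a' b) ⊆ M ∪ X0.filter (fun a' => bad a a') := by
        intro a' ha'
        have ha' := Finset.mem_filter.1 ha'
        rw [Finset.mem_union]
        by_cases h : bad a a'
        · exact Or.inr (Finset.mem_filter.2 ⟨ha'.1, h⟩)
        · exact Or.inl (Finset.mem_filter.2 ⟨ha'.1, ha'.2, h⟩)
      have h2 : (X0.filter (fun a' => R a' b)).card ≤ M.card + (X0.filter (fun a' => bad a a')).card :=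
        (Finset.card_le_card h1).trans (Finset.card_union_le _ _)
      have h3 : en b ≤ (M.card : ℝ) + nb a := by
        simp only [en, nb]; exact_mod_cast h2
      have : α / 4 * x = α / 8 * x + α / 8 * x := by ring
      linarith
    have hpath : ∑ a' ∈ M, (codeg S R a a' : ℝ) ≤ (path3 S R a b : ℝ) := by
      have h1 : (path3 S R a b : ℝ)
          = ∑ a' ∈ S, ∑ b' ∈ S, (if R a b' ∧ R a' b' ∧ R a' b then (1 : ℝ) else 0) := by
        unfold path3
        rw [Finset.card_filter]; push_cast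
        rw [Finset.sum_product, Finset.sum_comm]
      rw [h1]
      refine le_trans ?_ (Finset.sum_le_sum_of_subset_of_nonneg
        ((Finset.filter_subset _ _).trans hX0S : M ⊆ S)
        (fun a' _ _ => Finset.sum_nonneg (fun b' _ => by split_ifs <;> norm_num)))
      refine Finset.sum_le_sum (fun a' ha' => ?_)
      have hab := (Finset.mem_filter.1 ha').2.1
      unfold codeg
      rw [Finset.card_filter]; push_cast
      refine Finset.sum_le_sum (fun b' _ => ?_)
      simp [hab]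
    have hlow : (M.card : ℝ) * (τ * n) ≤ ∑ a' ∈ M, (codeg S R a a' : ℝ) := by
      calc (M.card : ℝ) * (τ * n) = ∑ a' ∈ M, (τ * n) := by rw [Finset.sum_const, nsmul_eq_mul]
        _ ≤ _ := Finset.sum_le_sum (fun a' ha' =>
            not_lt.1 (fun h => (Finset.mem_filter.1 ha').2.2 ((hbad _ _).2 h)))
    refine le_trans ?_ (hlow.trans hpath)
    have h5 : (α / 8 * x) * (τ * n) ≤ (M.card : ℝ) * (τ * n) :=
      mul_le_mul_of_nonneg_right hMcard (by positivity)
    refine le_trans ?_ h5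
    have h6 : (α / 8 * (α * n / 3)) * (τ * n) ≤ (α / 8 * x) * (τ * n) := by
      refine mul_le_mul_of_nonneg_right ?_ (by positivity)
      exact mul_le_mul_of_nonneg_left hxlow (by positivity)
    refine le_trans ?_ h6
    rw [hτ]
    have h7 : 0 ≤ α ^ 5 * n ^ 2 := by positivity
    have h8 : α / 8 * (α * n / 3) * (α ^ 3 / 128 * n) = α ^ 5 * n ^ 2 / 3072 := by ring
    rw [h8]
    linarith

end RM44
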