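import Pool.Agent.Helper44.RM.Mom

set_option autoImplicit false
set_option linter.unusedSectionVars false

open scoped BigOperators
open Classical

namespace RM44

variable {G : Type} [AddCommGroup G] [Module (ZMod 2) G] [Fintype G]

lemma g_add_self (x : G) : x + x = 0 := by
  have : ((1 : ZMod 2) + 1) • x = 0 := by
    rw [show ((1 : ZMod 2) + 1) = 0 from rfl, zero_smul]
  rwa [add_smul, one_smul] at this

lemma g_add_cancel (x h : G) : x + h + h = x := by
  rw [add_assoc, g_add_self, add_zero]

/-- indicator -/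
noncomputable def ind (D : Finset G) (z : G) : ℝ := if z ∈ D then 1 else 0

lemma ind_nonneg (D : Finset G) (z : G) : 0 ≤ ind D z := by unfold ind; split_ifs <;> norm_num

lemma ind_le_one (D : Finset G) (z : G) : ind D z ≤ 1 := by unfold ind; split_ifs <;> norm_num

lemma ind_sq (D : Finset G) (z : G) : ind D z ^ 2 = ind D z := by unfold ind; split_ifs <;> norm_num

lemma sum_ind (D : Finset G) : ∑ z, ind D z = D.card := by
  unfold ind
  rw [← Finset.sum_filter]
  simp

lemma sum_shift (f : G → ℝ) (a : G) : ∑ x, f (x + a) = ∑ x, f x :=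
  Fintype.sum_equiv (Equiv.addRight a) _ _ (fun _ => rfl)

/-- the local density -/
noncomputable def avg (A D : Finset G) (x : G) : ℝ := (∑ a ∈ A, ind D (x + a)) / A.card

lemma avg_nonneg (A D : Finset G) (x : G) : 0 ≤ avg A D x := by
  unfold avg
  exact div_nonneg (Finset.sum_nonneg (fun a _ => ind_nonneg _ _)) (Nat.cast_nonneg _)

lemma avg_le_one (A D : Finset G) (x : G) : avg A D x ≤ 1 := by
  unfold avg
  refine div_le_one_of_le₀ ?_ (Nat.cast_nonneg _)
  calc ∑ a ∈ A, ind D (x + a) ≤ ∑ a ∈ A, (1 : ℝ) := Finset.sum_le_sum (fun a _ => ind_le_one _ _)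
    _ = A.card := by simp

lemma avg_mul (A D : Finset G) (hA : A.Nonempty) (x : G) :
    ∑ a ∈ A, ind D (x + a) = avg A D x * A.card := by
  have : (0 : ℝ) < A.card := by exact_mod_cast Finset.card_pos.2 hA
  unfold avg
  field_simp

lemma avg_eq_one (A D : Finset G) (hA : A.Nonempty) (x : G) (h : ∀ a ∈ A, x + a ∈ D) :
    avg A D x = 1 := by
  have hA' : (0 : ℝ) < A.card := by exact_mod_cast Finset.card_pos.2 hA
  unfold avg
  rw [div_eq_one_iff_eq hA'.ne']
  rw [Finset.sum_congr rfl (g := fun _ => (1 : ℝ)) (fun a ha => by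
    unfold ind; rw [if_pos (h a ha)])]
  simp

lemma sum_avg (A D : Finset G) (hA : A.Nonempty) : ∑ x, avg A D x = D.card := by
  have hA' : (0 : ℝ) < A.card := by exact_mod_cast Finset.card_pos.2 hA
  unfold avg
  rw [← Finset.sum_div, Finset.sum_comm]
  simp only [sum_shift (ind D), sum_ind]
  rw [Finset.sum_const, nsmul_eq_mul]
  field_simp

/-- average of the samples -/
noncomputable def smp {l : ℕ} (D : Finset G) (a : Fin l → G) (x : G) : ℝ :=
  (∑ i, ind D (x + a i)) / l

theorem sampling (A D : Finset G) (hA : A.Nonempty) (l r : ℕ) (hr : 1 ≤ r) (hrl : r ≤ l) :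
    ∑ a ∈ Fintype.piFinset (fun _ : Fin l => A), ∑ x, (smp D a x - avg A D x) ^ (2 * r)
      ≤ (A.card : ℝ) ^ l * D.card * (4 * Real.exp 1 * r / l) ^ r := by
  have hlR : (0 : ℝ) < l := by exact_mod_cast (lt_of_lt_of_le hr hrl)
  rw [Finset.sum_comm]
  have hx : ∀ x : G, ∑ a ∈ Fintype.piFinset (fun _ : Fin l => A), (smp D a x - avg A D x) ^ (2 * r)
      ≤ avg A D x * ((A.card : ℝ) ^ l * (4 * Real.exp 1 * r / l) ^ r) := by
    intro x
    have h1 := moment A (fun a => ind D (x + a) - avg A D x) (avg A D x) (avg_nonneg _ _ _)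
      (avg_le_one _ _ _) (by
        intro a _
        rw [abs_le]
        constructor
        · linarith [ind_nonneg D (x + a), avg_le_one A D x]
        · linarith [ind_le_one D (x + a), avg_nonneg A D x]) (by
        rw [Finset.sum_sub_distrib, avg_mul A D hA, Finset.sum_const, nsmul_eq_mul]; ring) (by
        have h2 : ∀ a, (ind D (x + a) - avg A D x) ^ 2
            = ind D (x + a) - 2 * avg A D x * ind D (x + a) + avg A D x ^ 2 := by
          intro a
          have := ind_sq D (x + a)
          nlinarith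
        simp only [h2]
        rw [Finset.sum_add_distrib, Finset.sum_sub_distrib, ← Finset.mul_sum, avg_mul A D hA,
          Finset.sum_const, nsmul_eq_mul]
        have h3 : (0 : ℝ) ≤ A.card := Nat.cast_nonneg _
        nlinarith [mul_nonneg h3 (sq_nonneg (avg A D x))]) l r hr hrl
    have h4 : ∀ a : Fin l → G, (smp D a x - avg A D x) ^ (2 * r)
        = (∑ i, (ind D (x + a i) - avg A D x)) ^ (2 * r) / (l : ℝ) ^ (2 * r) := by
      intro a
      rw [← div_pow]
      congr 1
      unfold smp
      rw [Finset.sum_sub_distrib, Finset.sum_const, Finset.card_univ, Fintype.card_fin,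
        nsmul_eq_mul]
      field_simp
    simp only [h4]
    rw [← Finset.sum_div, div_le_iff₀ (by positivity)]
    refine h1.trans (le_of_eq ?_)
    have h5 : (4 * Real.exp 1 * r * l : ℝ) = (4 * Real.exp 1 * r / l) * l ^ 2 := by
      field_simp
    rw [h5, mul_pow, ← pow_mul]
    ring
  calc ∑ x, ∑ a ∈ Fintype.piFinset (fun _ : Fin l => A), (smp D a x - avg A D x) ^ (2 * r)
      ≤ ∑ x, avg A D x * ((A.card : ℝ) ^ l * (4 * Real.exp 1 * r / l) ^ r) :=
        Finset.sum_le_sum (fun x _ => hx x)
    _ = _ := by rw [← Finset.sum_mul, sum_avg A D hA]; ring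

/-- Many shifts of one tuple are good. -/
theorem exists_shifts (A B D : Finset G) (hAB : ∀ a ∈ A, ∀ b ∈ B, a + b ∈ D) (hA : A.Nonempty)
    (hB : B.Nonempty) (l : ℕ)
    (good : Finset (Fin l → G)) (hg : good ⊆ Fintype.piFinset (fun _ : Fin l => A))
    (hgc : (A.card : ℝ) ^ l ≤ 2 * good.card) :
    ∃ b : Fin l → G, (A.card : ℝ) ^ l * B.card
      ≤ 2 * (D.card : ℝ) ^ l * (B.filter (fun t => (fun i => b i + t) ∈ good)).card := by
  have hD : D.Nonempty := by
    obtain ⟨a, ha⟩ := hA; obtain ⟨b, hb⟩ := hB; exact ⟨_, hAB a ha b hb⟩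
  have hne : (Fintype.piFinset (fun _ : Fin l => D)).Nonempty :=
    Fintype.piFinset_nonempty.2 (fun _ => hD)
  have hcard : ((Fintype.piFinset (fun _ : Fin l => D)).card : ℝ) = (D.card : ℝ) ^ l := by
    rw [Fintype.card_piFinset, Finset.prod_const, Finset.card_univ, Fintype.card_fin]
    push_cast; rfl
  have hDpos : (0 : ℝ) < (D.card : ℝ) ^ l := by
    have : (0 : ℝ) < D.card := by exact_mod_cast Finset.card_pos.2 hD
    positivity
  have hsum : (A.card : ℝ) ^ l * B.card / 2
      ≤ ∑ b ∈ Fintype.piFinset (fun _ : Fin l => D),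
        ((B.filter (fun t => (fun i => b i + t) ∈ good)).card : ℝ) := by
    have h1 : ∀ b : Fin l → G, ((B.filter (fun t => (fun i => b i + t) ∈ good)).card : ℝ)
        = ∑ t ∈ B, (if (fun i => b i + t) ∈ good then (1 : ℝ) else 0) := by
      intro b; rw [Finset.card_filter]; push_cast; rfl
    simp only [h1]
    rw [Finset.sum_comm]
    have h2 : ∀ t ∈ B, (good.card : ℝ) ≤ ∑ b ∈ Fintype.piFinset (fun _ : Fin l => D),
        (if (fun i => b i + t) ∈ good then (1 : ℝ) else 0) := by
      intro t ht
      rw [← Finset.sum_filter, Finset.sum_const, nsmul_eq_mul, mul_one]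
      have h3 : (good.image (fun a => (fun i => a i + t))).card = good.card := by
        refine Finset.card_image_of_injective _ ?_
        intro a a' h
        funext i
        have := congrFun h i
        simpa using this
      rw [← h3]
      have h4 : good.image (fun a => (fun i => a i + t))
          ⊆ (Fintype.piFinset (fun _ : Fin l => D)).filter (fun b => (fun i => b i + t) ∈ good) := by
        intro b hb
        obtain ⟨a, ha, rfl⟩ := Finset.mem_image.1 hb
        rw [Finset.mem_filter]
        refine ⟨?_, ?_⟩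
        · rw [Fintype.mem_piFinset]
          intro i
          exact hAB _ (Fintype.mem_piFinset.1 (hg ha) i) _ ht
        · simp only [g_add_cancel]
          exact ha
      exact_mod_cast Finset.card_le_card h4
    calc (A.card : ℝ) ^ l * B.card / 2 ≤ ∑ t ∈ B, (good.card : ℝ) := by
          rw [Finset.sum_const, nsmul_eq_mul]
          have : (0 : ℝ) ≤ B.card := Nat.cast_nonneg _
          nlinarith
      _ ≤ _ := Finset.sum_le_sum h2
  obtain ⟨b, -, hb⟩ := Finset.exists_le_of_sum_le hne
    (f := fun _ => (A.card : ℝ) ^ l * B.card / (2 * (D.card : ℝ) ^ l))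
    (g := fun b => ((B.filter (fun t => (fun i => b i + t) ∈ good)).card : ℝ)) (by
      rw [Finset.sum_const, nsmul_eq_mul, hcard]
      refine le_trans (le_of_eq ?_) hsum
      field_simp)
  refine ⟨b, ?_⟩
  rw [div_le_iff₀ (by positivity)] at hb
  linarith

end RM44
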