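import Pool.Agent.Helper44.RM.CS

set_option autoImplicit false
set_option linter.unusedSectionVars false

open scoped BigOperators
open Classical

namespace RM44

variable {G : Type} [AddCommGroup G] [Module (ZMod 2) G] [Fintype G]

/-- the norm with exponent `p` -/
noncomputable def nm (p : ℝ) (f : G → ℝ) : ℝ := (∑ x, |f x| ^ p) ^ (1 / p)

lemma nm_add (p : ℝ) (hp : 1 ≤ p) (f g : G → ℝ) : nm p (fun x => f x + g x) ≤ nm p f + nm p g :=
  Real.Lp_add_le Finset.univ f g hp

lemma nm_shift (p : ℝ) (f : G → ℝ) (a : G) : nm p (fun x => f (x + a)) = nm p f := by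
  unfold nm
  rw [sum_shift (fun x => |f x| ^ p) a]

lemma nm_neg (p : ℝ) (f : G → ℝ) : nm p (fun x => - f x) = nm p f := by
  unfold nm
  simp only [abs_neg]

lemma nm_zero (p : ℝ) (hp : 1 ≤ p) : nm p (fun _ : G => (0 : ℝ)) = 0 := by
  unfold nm
  have hp0 : p ≠ 0 := by linarith
  simp only [abs_zero]
  rw [Real.zero_rpow hp0, Finset.sum_const_zero, Real.zero_rpow]
  exact one_div_ne_zero hp0

lemma nm_le_iff (r : ℕ) (hr : 1 ≤ r) (f : G → ℝ) (c : ℝ) (hc : 0 ≤ c) :
    nm (2 * r : ℝ) f ≤ c ↔ ∑ x, (f x) ^ (2 * r) ≤ c ^ (2 * r) := by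
  have hrR : (1 : ℝ) ≤ r := by exact_mod_cast hr
  have h1 : ∀ x, |f x| ^ (2 * r : ℝ) = (f x) ^ (2 * r) := by
    intro x
    have : (2 * r : ℝ) = ((2 * r : ℕ) : ℝ) := by push_cast; ring
    rw [this, Real.rpow_natCast, pow_mul, sq_abs, ← pow_mul]
  unfold nm
  simp only [h1]
  have hs : 0 ≤ ∑ x, (f x) ^ (2 * r) := Finset.sum_nonneg (fun x _ => by
    rw [pow_mul]; positivity)
  have h2 : c ^ (2 * r) = c ^ (2 * r : ℝ) := by
    have : (2 * r : ℝ) = ((2 * r : ℕ) : ℝ) := by push_cast; ring
    rw [this, Real.rpow_natCast]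
  rw [h2, one_div]
  exact Real.rpow_inv_le_iff_of_pos hs hc (by linarith)

/-- difference with the translate -/
noncomputable def dif (A D : Finset G) (y : G) : G → ℝ := fun x => avg A D (x + y) - avg A D x

lemma dif_add (p : ℝ) (hp : 1 ≤ p) (A D : Finset G) (y v : G) :
    nm p (dif A D (y + v)) ≤ nm p (dif A D y) + nm p (dif A D v) := by
  have h1 : dif A D (y + v) = fun x => (fun x => dif A D y (x + v)) x + dif A D v x := by
    funext x
    unfold dif
    simp only
    rw [show x + (y + v) = x + v + y by abel]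
    ring
  rw [h1]
  refine (nm_add p hp _ _).trans ?_
  rw [nm_shift p (dif A D y) v]

lemma dif_zero (p : ℝ) (hp : 1 ≤ p) (A D : Finset G) : nm p (dif A D 0) = 0 := by
  have : dif A D (0 : G) = fun _ => (0 : ℝ) := by
    funext x; unfold dif; simp
  rw [this, nm_zero p hp]

lemma dif_span (p : ℝ) (hp : 1 ≤ p) (A D : Finset G) {k : ℕ} (v : Fin k → G) (w : ℝ) (hw : 0 ≤ w)
    (hv : ∀ i, nm p (dif A D (v i)) ≤ w) (y : G)
    (hy : y ∈ Submodule.span (ZMod 2) (Set.range v)) : nm p (dif A D y) ≤ k * w := by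
  obtain ⟨c, rfl⟩ := (Submodule.mem_span_range_iff_exists_fun (ZMod 2)).1 hy
  have key : ∀ s : Finset (Fin k), nm p (dif A D (∑ i ∈ s, c i • v i)) ≤ s.card * w := by
    intro s
    induction s using Finset.induction_on with
    | empty => rw [Finset.sum_empty, dif_zero p hp]; simp
    | insert a s ha ih =>
      rw [Finset.sum_insert ha, Finset.card_insert_of_notMem ha]
      refine (dif_add p hp A D _ _).trans ?_
      have h1 : nm p (dif A D (c a • v a)) ≤ w := by
        have : c a = 0 ∨ c a = 1 := by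
          generalize c a = z
          fin_cases z
          · exact Or.inl rfl
          · exact Or.inr rfl
        rcases this with h | h
        · rw [h, zero_smul, dif_zero p hp]; exact hw
        · rw [h, one_smul]; exact hv a
      push_cast
      linarith
  have := key Finset.univ
  rwa [Finset.card_univ, Fintype.card_fin] at this

/-- independent vectors in a large set -/
lemma exists_indep (T : Finset G) (k : ℕ) (hT : 2 ^ k ≤ T.card) :
    ∃ v : Fin k → G, (∀ i, v i ∈ T) ∧ LinearIndependent (ZMod 2) v := by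
  obtain ⟨b, hbT, hspan, hli⟩ := exists_linearIndependent (ZMod 2) (T : Set G)
  have hbfin : b.Finite := T.finite_toSet.subset hbT
  have : Fintype b := hbfin.fintype
  have h1 : Module.finrank (ZMod 2) (Submodule.span (ZMod 2) b) = Fintype.card b := by
    have h2 := finrank_span_eq_card hli
    rwa [Subtype.range_coe] at h2
  have h3 : Fintype.card (Submodule.span (ZMod 2) b) = 2 ^ Fintype.card b := by
    rw [Module.card_eq_pow_finrank (K := ZMod 2), ZMod.card, h1]
  have h4 : T.card ≤ Fintype.card (Submodule.span (ZMod 2) b) := by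
    rw [← Fintype.card_coe]
    refine Fintype.card_le_of_injective
      (fun t : T => (⟨t, by rw [hspan]; exact Submodule.subset_span t.2⟩ :
        Submodule.span (ZMod 2) b)) ?_
    intro t t' h
    exact Subtype.ext (congrArg (fun z : Submodule.span (ZMod 2) b => (z : G)) h)
  rw [h3] at h4
  have h5 : k ≤ Fintype.card b := by
    have := hT.trans h4
    exact (Nat.pow_le_pow_iff_right (by norm_num)).1 this
  obtain ⟨f⟩ : Nonempty (Fin k ↪ b) := by
    apply Function.Embedding.nonempty_of_card_le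
    rw [Fintype.card_fin]; exact h5
  refine ⟨fun i => (f i : G), fun i => hbT (f i).2, ?_⟩
  exact hli.comp f f.injective

/-- The Croot-Sisask argument: a coset of a subspace of dimension `k` on which `D` is dense. -/
theorem croot_sisask (A B D : Finset G) (hAB : ∀ a ∈ A, ∀ b ∈ B, a + b ∈ D) (hA : A.Nonempty)
    (hB : B.Nonempty) (K : ℝ) (hK0 : 0 < K) (hDA : (D.card : ℝ) ≤ K * A.card)
    (hDB : (D.card : ℝ) ≤ K * B.card)
    (r k : ℕ) (hr : 1 ≤ r) (hk : 1 ≤ k) (hK : 2 * K ≤ 2 ^ r)
    (hbig : 2 * K ^ (348 * k ^ 2 * r) * 2 ^ k ≤ (B.card : ℝ)) :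
    ∃ v : Fin k → G, LinearIndependent (ZMod 2) v ∧ ∃ c : G,
      (Fintype.card (Submodule.span (ZMod 2) (Set.range v)) : ℝ)
        ≤ 2 * ∑ y : Submodule.span (ZMod 2) (Set.range v), ind D (c + (y : G)) := by
  set l : ℕ := 348 * k ^ 2 * r with hl
  have hrl : r ≤ l := by
    rw [hl]
    have : 1 ≤ 348 * k ^ 2 := by
      have : 1 ≤ k ^ 2 := Nat.one_le_pow _ _ hk
      omega
    nlinarith
  have hrR : (1 : ℝ) ≤ r := by exact_mod_cast hr
  have hkR : (1 : ℝ) ≤ k := by exact_mod_cast hk
  have hlR : (0 : ℝ) < l := by exact_mod_cast (lt_of_lt_of_le hr hrl)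
  have hAc : (0 : ℝ) < A.card := by exact_mod_cast Finset.card_pos.2 hA
  have hBc : (0 : ℝ) < B.card := by exact_mod_cast Finset.card_pos.2 hB
  have hDne : D.Nonempty := by
    obtain ⟨a, ha⟩ := hA; obtain ⟨b, hb⟩ := hB; exact ⟨_, hAB a ha b hb⟩
  have hDc : (0 : ℝ) < D.card := by exact_mod_cast Finset.card_pos.2 hDne
  set E : ℝ := (4 * Real.exp 1 * r / l) ^ r with hE
  have hEpos : 0 < E := by rw [hE]; positivity
  set W : ℝ := 2 * D.card * E with hW
  have hWpos : 0 < W := by rw [hW]; positivity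
  -- good tuples
  let err : (Fin l → G) → ℝ := fun a => ∑ x, (smp D a x - avg A D x) ^ (2 * r)
  have herr0 : ∀ a, 0 ≤ err a := fun a => Finset.sum_nonneg (fun x _ => by
    rw [pow_mul]; positivity)
  set good := (Fintype.piFinset (fun _ : Fin l => A)).filter (fun a => err a ≤ W) with hgood
  have hcard : ((Fintype.piFinset (fun _ : Fin l => A)).card : ℝ) = (A.card : ℝ) ^ l := by
    rw [Fintype.card_piFinset, Finset.prod_const, Finset.card_univ, Fintype.card_fin]
    push_cast; rfl
  have hgc : (A.card : ℝ) ^ l ≤ 2 * good.card := by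
    have h1 := sampling A D hA l r hr hrl
    have h2 : (((Fintype.piFinset (fun _ : Fin l => A)).filter (fun a => ¬ (err a ≤ W))).card : ℝ) * W
        ≤ (A.card : ℝ) ^ l * D.card * E := by
      calc (((Fintype.piFinset (fun _ : Fin l => A)).filter (fun a => ¬ (err a ≤ W))).card : ℝ) * W
          = ∑ a ∈ (Fintype.piFinset (fun _ : Fin l => A)).filter (fun a => ¬ (err a ≤ W)), W := by
            rw [Finset.sum_const, nsmul_eq_mul]
        _ ≤ ∑ a ∈ (Fintype.piFinset (fun _ : Fin l => A)).filter (fun a => ¬ (err a ≤ W)), err a :=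
            Finset.sum_le_sum (fun a ha => (not_le.1 (Finset.mem_filter.1 ha).2).le)
        _ ≤ ∑ a ∈ Fintype.piFinset (fun _ : Fin l => A), err a :=
            Finset.sum_le_sum_of_subset_of_nonneg (Finset.filter_subset _ _) (fun a _ _ => herr0 a)
        _ ≤ _ := h1
    have h3 : (((Fintype.piFinset (fun _ : Fin l => A)).filter (fun a => ¬ (err a ≤ W))).card : ℝ)
        ≤ (A.card : ℝ) ^ l / 2 := by
      have h4 : (A.card : ℝ) ^ l * D.card * E = (A.card : ℝ) ^ l / 2 * W := by rw [hW]; ring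
      rw [h4] at h2
      exact le_of_mul_le_mul_right h2 hWpos
    have h5 : good.card + ((Fintype.piFinset (fun _ : Fin l => A)).filter (fun a => ¬ (err a ≤ W))).card
        = (Fintype.piFinset (fun _ : Fin l => A)).card := Finset.card_filter_add_card_filter_not _
    have h6 : (good.card : ℝ)
        + (((Fintype.piFinset (fun _ : Fin l => A)).filter (fun a => ¬ (err a ≤ W))).card : ℝ)
        = (A.card : ℝ) ^ l := by rw [← hcard]; exact_mod_cast h5
    linarith
  obtain ⟨b, hb⟩ := exists_shifts A B D hAB hA hB l good (Finset.filter_subset _ _) hgc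
  set T := B.filter (fun t => (fun i => b i + t) ∈ good) with hT
  have hTcard : 2 ^ k ≤ T.card := by
    have h1 : (D.card : ℝ) ^ l ≤ K ^ l * (A.card : ℝ) ^ l := by
      rw [← mul_pow]
      exact pow_le_pow_left₀ hDc.le hDA l
    have h2 : (A.card : ℝ) ^ l * B.card ≤ 2 * (K ^ l * (A.card : ℝ) ^ l) * T.card := by
      refine hb.trans ?_
      have : (0 : ℝ) ≤ T.card := Nat.cast_nonneg _
      nlinarith
    have h3 : (A.card : ℝ) ^ l * (B.card : ℝ) ≤ (A.card : ℝ) ^ l * (2 * K ^ l * T.card) := by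
      linarith
    have h4 := le_of_mul_le_mul_left h3 (by positivity)
    have h5 : 2 * K ^ l * 2 ^ k ≤ 2 * K ^ l * (T.card : ℝ) := hbig.trans h4
    have h6 := le_of_mul_le_mul_left h5 (by positivity)
    exact_mod_cast h6
  set p : ℝ := 2 * r with hp
  have hp1 : 1 ≤ p := by rw [hp]; linarith
  have hppos : 0 < p := by linarith
  set w : ℝ := W ^ (1 / p) with hw
  have hw0 : 0 ≤ w := by rw [hw]; positivity
  have hwW : w ^ (2 * r) = W := by
    have h1 : w ^ (2 * r) = w ^ p := by
      have : p = ((2 * r : ℕ) : ℝ) := by rw [hp]; push_cast; ring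
      rw [this, Real.rpow_natCast]
    rw [h1, hw, ← Real.rpow_mul hWpos.le, one_div, inv_mul_cancel₀ hppos.ne', Real.rpow_one]
  have hTb : ∀ t ∈ T, nm p (fun x => smp D b x - avg A D (x + t)) ≤ w := by
    intro t ht
    rw [nm_le_iff r hr _ _ hw0, hwW]
    have h1 := (Finset.mem_filter.1 (Finset.mem_filter.1 ht).2).2
    refine le_trans (le_of_eq ?_) h1
    change _ = ∑ x, (smp D (fun i => b i + t) x - avg A D x) ^ (2 * r)
    rw [← sum_shift (fun x => (smp D b x - avg A D (x + t)) ^ (2 * r)) t]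
    refine Finset.sum_congr rfl (fun x _ => ?_)
    rw [g_add_cancel]
    congr 2
    unfold smp
    congr 1
    refine Finset.sum_congr rfl (fun i _ => ?_)
    rw [show x + (b i + t) = x + t + b i by abel]
  have hTne : T.Nonempty := by
    rw [← Finset.card_pos]
    have : 0 < 2 ^ k := by positivity
    omega
  obtain ⟨t0, ht0⟩ := hTne
  have hdif : ∀ t ∈ T, nm p (dif A D (t + t0)) ≤ 2 * w := by
    intro t ht
    have h1 : dif A D (t + t0) = fun x =>
        (fun z => - (smp D b z - avg A D (z + t)) + (smp D b z - avg A D (z + t0))) (x + t0) := by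
      funext x
      unfold dif
      simp only
      rw [g_add_cancel, show x + (t + t0) = x + t0 + t by abel]
      ring
    rw [h1, nm_shift p (fun z => - (smp D b z - avg A D (z + t)) + (smp D b z - avg A D (z + t0)))]
    refine (nm_add p hp1 _ _).trans ?_
    rw [nm_neg p (fun z => smp D b z - avg A D (z + t))]
    linarith [hTb t ht, hTb t0 ht0]
  obtain ⟨v, hvT, hvli⟩ := exists_indep (T.image (fun t => t + t0)) k (by
    rw [Finset.card_image_of_injective _ (add_left_injective t0)]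
    exact hTcard)
  refine ⟨v, hvli, ?_⟩
  set L := Submodule.span (ZMod 2) (Set.range v) with hL
  have hspan : ∀ y ∈ L, nm p (dif A D y) ≤ k * (2 * w) := by
    intro y hy
    refine dif_span p hp1 A D v (2 * w) (by positivity) (fun i => ?_) y hy
    obtain ⟨t, ht, hti⟩ := Finset.mem_image.1 (hvT i)
    rw [← hti]
    exact hdif t ht
  have havg1 : ∀ x ∈ B, avg A D x = 1 := by
    intro x hx
    refine avg_eq_one A D hA x (fun a ha => ?_)
    rw [add_comm]
    exact hAB a ha x hx
  -- the main estimate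
  have hWB : (4 * (k : ℝ)) ^ (2 * r) * W ≤ B.card := by
    have h1 : (4 * (k : ℝ)) ^ (2 * r) * E = (64 * Real.exp 1 * k ^ 2 * r / l) ^ r := by
      rw [hE, pow_mul, ← mul_pow]
      congr 1
      ring
    have h2 : 64 * Real.exp 1 * k ^ 2 * r / l ≤ 1 / 2 := by
      rw [div_le_iff₀ hlR, hl]
      push_cast
      have he : Real.exp 1 < 2.7182818286 := Real.exp_one_lt_d9
      have h3 : 64 * Real.exp 1 ≤ 174 := by linarith
      have h4 : (0 : ℝ) ≤ k ^ 2 * r := by positivity
      nlinarith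
    have h5 : (64 * Real.exp 1 * k ^ 2 * r / l) ^ r ≤ (1 / 2) ^ r :=
      pow_le_pow_left₀ (by positivity) h2 r
    calc (4 * (k : ℝ)) ^ (2 * r) * W = 2 * D.card * ((4 * (k : ℝ)) ^ (2 * r) * E) := by
          rw [hW]; ring
      _ ≤ 2 * D.card * (1 / 2) ^ r := by
          rw [h1]; exact mul_le_mul_of_nonneg_left h5 (by positivity)
      _ ≤ 2 * (K * B.card) * (1 / 2) ^ r := by gcongr
      _ = (2 * K) * (1 / 2) ^ r * B.card := by ring
      _ ≤ 2 ^ r * (1 / 2) ^ r * B.card := by gcongr
      _ = B.card := by rw [← mul_pow]; norm_num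
  have hmain : ∀ y ∈ L, (B.card : ℝ) / 2 ≤ ∑ x ∈ B, avg A D (x + y) := by
    intro y hy
    have h1 := (nm_le_iff r hr _ _ (by positivity : (0 : ℝ) ≤ k * (2 * w))).1 (hspan y hy)
    have h2 : (k * (2 * w)) ^ (2 * r) = (2 * (k : ℝ)) ^ (2 * r) * W := by
      rw [← hwW, ← mul_pow]; ring
    rw [h2] at h1
    have h3 : ∑ x ∈ B, |dif A D y x| ^ (2 * r) ≤ (2 * (k : ℝ)) ^ (2 * r) * W := by
      refine le_trans ?_ h1
      have h4 : ∀ x, |dif A D y x| ^ (2 * r) = (dif A D y x) ^ (2 * r) := by
        intro x; rw [pow_mul, sq_abs, ← pow_mul]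
      simp only [h4]
      refine Finset.sum_le_sum_of_subset_of_nonneg (Finset.subset_univ _) (fun x _ _ => ?_)
      rw [pow_mul]; positivity
    have h5 := pow_sum_div_card_le_sum_pow (s := B) (f := fun x => |dif A D y x|)
      (fun x _ => abs_nonneg _) (2 * r - 1)
    rw [show 2 * r - 1 + 1 = 2 * r by omega, div_le_iff₀ (by positivity)] at h5
    have h6 : (∑ x ∈ B, |dif A D y x|) ^ (2 * r) ≤ ((B.card : ℝ) / 2) ^ (2 * r) := by
      calc (∑ x ∈ B, |dif A D y x|) ^ (2 * r)
          ≤ (∑ x ∈ B, |dif A D y x| ^ (2 * r)) * (B.card : ℝ) ^ (2 * r - 1) := h5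
        _ ≤ ((2 * (k : ℝ)) ^ (2 * r) * W) * (B.card : ℝ) ^ (2 * r - 1) := by gcongr
        _ = ((4 * (k : ℝ)) ^ (2 * r) * W) * ((1 / 2) ^ (2 * r) * (B.card : ℝ) ^ (2 * r - 1)) := by
            have : (4 * (k : ℝ)) = 2 * (2 * k) := by ring
            rw [this, mul_pow 2 (2 * (k : ℝ))]
            have h7 : (2 : ℝ) ^ (2 * r) * (1 / 2) ^ (2 * r) = 1 := by
              rw [← mul_pow]; norm_num
            calc (2 * (k : ℝ)) ^ (2 * r) * W * (B.card : ℝ) ^ (2 * r - 1)
                = ((2 : ℝ) ^ (2 * r) * (1 / 2) ^ (2 * r)) * ((2 * (k : ℝ)) ^ (2 * r) * W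
                  * (B.card : ℝ) ^ (2 * r - 1)) := by rw [h7, one_mul]
              _ = _ := by ring
        _ ≤ (B.card : ℝ) * ((1 / 2) ^ (2 * r) * (B.card : ℝ) ^ (2 * r - 1)) := by gcongr
        _ = ((B.card : ℝ) / 2) ^ (2 * r) := by
            have h8 : (B.card : ℝ) ^ (2 * r) = (B.card : ℝ) ^ (2 * r - 1) * B.card := by
              rw [← pow_succ]; congr 1; omega
            rw [div_pow (B.card : ℝ) 2 (2 * r), h8, one_div, inv_pow]
            field_simp
    have h9 : ∑ x ∈ B, |dif A D y x| ≤ (B.card : ℝ) / 2 :=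
      le_of_pow_le_pow_left₀ (by omega) (by positivity) h6
    have h10 : ∑ x ∈ B, (1 - avg A D (x + y)) ≤ ∑ x ∈ B, |dif A D y x| := by
      refine Finset.sum_le_sum (fun x hx => ?_)
      unfold dif
      rw [havg1 x hx, abs_sub_comm]
      exact le_abs_self _
    rw [Finset.sum_sub_distrib, Finset.sum_const, nsmul_eq_mul, mul_one] at h10
    linarith
  -- averaging over the subspace
  have hsum : (Fintype.card L : ℝ) * ((B.card : ℝ) / 2)
      ≤ ∑ y : L, ∑ x ∈ B, avg A D (x + (y : G)) := by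
    calc (Fintype.card L : ℝ) * ((B.card : ℝ) / 2) = ∑ _y : L, (B.card : ℝ) / 2 := by
          rw [Finset.sum_const, Finset.card_univ, nsmul_eq_mul]
      _ ≤ _ := Finset.sum_le_sum (fun y _ => hmain y y.2)
  have hsum2 : ∑ y : L, ∑ x ∈ B, avg A D (x + (y : G))
      = ∑ z ∈ B ×ˢ A, (∑ y : L, ind D ((z.1 + z.2) + (y : G))) / A.card := by
    rw [Finset.sum_comm, Finset.sum_product]
    refine Finset.sum_congr rfl (fun x _ => ?_)
    unfold avg
    rw [← Finset.sum_div, ← Finset.sum_div, Finset.sum_comm]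
    congr 1
    refine Finset.sum_congr rfl (fun a _ => Finset.sum_congr rfl (fun y _ => ?_))
    congr 1
    abel
  rw [hsum2] at hsum
  obtain ⟨z, -, hz⟩ := Finset.exists_le_of_sum_le (s := B ×ˢ A) (hB.product hA)
    (f := fun _ => (Fintype.card L : ℝ) / 2 / A.card)
    (g := fun z => (∑ y : L, ind D ((z.1 + z.2) + (y : G))) / A.card) (by
      rw [Finset.sum_const, nsmul_eq_mul, Finset.card_product]
      refine le_trans (le_of_eq ?_) hsum
      push_cast
      field_simp)
  refine ⟨z.1 + z.2, ?_⟩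
  have h1 := (div_le_div_iff_of_pos_right hAc).1 hz
  linarith

end RM44
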