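import Pool.Agent.Helper44.RM.Exch

set_option autoImplicit false
set_option linter.unusedSectionVars false

open scoped BigOperators
open Classical

namespace RM44
open RMC

/-- a family indexed by a small finset, enumerated by `Fin n` -/
lemma exists_enum {A B : Type} (S : Finset A) (n : ℕ) (h : S.card ≤ n) (f : A → B) (b0 : B) :
    ∃ g : Fin n → B, (∀ a ∈ S, ∃ k, g k = f a) ∧ ∀ k, g k = b0 ∨ ∃ a ∈ S, g k = f a := by
  have h1 : Fintype.card S ≤ Fintype.card (Fin n) := by simpa using h
  obtain ⟨e⟩ := Function.Embedding.nonempty_of_card_le h1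
  refine ⟨Function.extend e (fun a : S => f a) (fun _ => b0), ?_, ?_⟩
  · intro a ha
    exact ⟨e ⟨a, ha⟩, e.injective.extend_apply _ _ _⟩
  · intro k
    by_cases hk : ∃ a, e a = k
    · obtain ⟨a, rfl⟩ := hk
      exact Or.inr ⟨a, a.2, e.injective.extend_apply _ _ _⟩
    · left
      exact Function.extend_apply' _ _ _ hk

variable {I : Type} [Fintype I]

/-- enumeration of a finset with `s` elements -/
noncomputable def en (s : ℕ) (i0 : I) (J : Finset I) : Fin s → I :=
  if h : J.card = s then fun i => ((J.equivFinOfCardEq h).symm i : I) else fun _ => i0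

lemma en_eq {s : ℕ} (i0 : I) {J : Finset I} (h : J.card = s) (i : Fin s) :
    en s i0 J i = ((J.equivFinOfCardEq h).symm i : I) := by
  unfold en
  rw [dif_pos h]

/-- the code given by the data -/
noncomputable def dec (s t : ℕ) (i0 : I)
    (d : Finset I × Equiv.Perm (Fin s) × (Fin (3 * t) → I) × (Fin s → Fin (3 * t) → ZMod 2)
      × Finset I × (Fin (4 * t) → I → ZMod 2)) : Submodule (ZMod 2) (I → ZMod 2) :=
  Submodule.span (ZMod 2)
    ({c | ∃ i : Fin s, en s i0 d.1 i ∉ d.2.2.2.2.1 ∧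
        c = un (en s i0 d.1 i) + un (en s i0 d.1ᶜ (d.2.1 i))
          + ∑ k, d.2.2.2.1 i k • un (d.2.2.1 k)} ∪ Set.range d.2.2.2.2.2)

theorem dec_surj {C : Submodule (ZMod 2) (I → ZMod 2)} (hC : SD C) (s : ℕ)
    (hs : Fintype.card I = 2 * s) (i0 : I) (t : ℕ) (h : Near C t) :
    ∃ d, dec s t i0 d = C := by
  obtain ⟨J, W, Z, y, hJ, hJc, hW, hZ, hZJ, hWJ, hinj, hyJ, hc⟩ := h
  have hcJ := card_free hC s hs hJ hJc
  have hcJc : Jᶜ.card = s := by
    rw [Finset.card_compl, hcJ, hs]; omega
  choose! c hcC hcx hcy hc0 using hc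
  choose! κ hκC hκ1 hκ0 using free_surj hC hJ
  obtain ⟨w, hw, -⟩ := exists_enum W (3 * t) hW (fun i => i) i0
  obtain ⟨β, hβ, hβ'⟩ := exists_enum Z (4 * t) hZ κ (0 : I → ZMod 2)
  -- the bijection
  have henJ : ∀ i, en s i0 J i ∈ J := by
    intro i
    rw [en_eq i0 hcJ]
    exact Subtype.mem _
  have heninj : Function.Injective (en s i0 J) := by
    intro i j hij
    rw [en_eq i0 hcJ, en_eq i0 hcJ] at hij
    exact (J.equivFinOfCardEq hcJ).symm.injective (Subtype.ext hij)
  have hensurj : ∀ x ∈ J, ∃ i, en s i0 J i = x := by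
    intro x hx
    refine ⟨J.equivFinOfCardEq hcJ ⟨x, hx⟩, ?_⟩
    rw [en_eq i0 hcJ, Equiv.symm_apply_apply]
  obtain ⟨g, hg⟩ := Finset.exists_equiv_extend_of_card_eq (α := Fin s) (t := Jᶜ)
    (by rw [Fintype.card_fin, hcJc]) (s := Finset.univ.filter (fun i => en s i0 J i ∉ Z))
    (f := fun i => y (en s i0 J i))
    (by
      intro x hx
      obtain ⟨i, hi, rfl⟩ := Finset.mem_image.1 hx
      exact Finset.mem_compl.2 (hyJ _ (Finset.mem_sdiff.2 ⟨henJ i, (Finset.mem_filter.1 hi).2⟩)))
    (by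
      intro i hi j hj hij
      refine heninj (hinj ?_ ?_ hij)
      · have := (Finset.mem_filter.1 hi).2
        exact Finset.mem_coe.2 (Finset.mem_sdiff.2 ⟨henJ i, this⟩)
      · have := (Finset.mem_filter.1 hj).2
        exact Finset.mem_coe.2 (Finset.mem_sdiff.2 ⟨henJ j, this⟩))
  let σ : Equiv.Perm (Fin s) := g.trans (Jᶜ.equivFinOfCardEq hcJc)
  have hσ : ∀ i, en s i0 J i ∉ Z → en s i0 Jᶜ (σ i) = y (en s i0 J i) := by
    intro i hi
    rw [en_eq i0 hcJc]
    have h1 : (Jᶜ.equivFinOfCardEq hcJc).symm (σ i) = g i := by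
      change (Jᶜ.equivFinOfCardEq hcJc).symm ((Jᶜ.equivFinOfCardEq hcJc) (g i)) = g i
      rw [Equiv.symm_apply_apply]
    rw [h1]
    exact hg i (Finset.mem_filter.2 ⟨Finset.mem_univ _, hi⟩)
  -- the bits
  have hα : ∀ i : Fin s, ∃ a : Fin (3 * t) → ZMod 2, en s i0 J i ∉ Z →
      c (en s i0 J i) = un (en s i0 J i) + un (y (en s i0 J i)) + ∑ k, a k • un (w k) := by
    intro i
    by_cases hi : en s i0 J i ∉ Z
    · have hx : en s i0 J i ∈ J \ Z := Finset.mem_sdiff.2 ⟨henJ i, hi⟩
      set x := en s i0 J i with hxdef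
      have hxy : x ≠ y x := by
        intro h1
        exact hyJ x hx (h1 ▸ (Finset.mem_sdiff.1 hx).1)
      set d : I → ZMod 2 := c x + un x + un (y x) with hd
      have hdx : d x = 0 := by
        rw [hd]
        simp only [Pi.add_apply]
        rw [hcx x hx, un_self, un_ne hxy, add_zero]
        exact zmod2_add_self 1
      have hdy : d (y x) = 0 := by
        rw [hd]
        simp only [Pi.add_apply]
        rw [hcy x hx, un_self, un_ne hxy.symm, add_zero]
        exact zmod2_add_self 1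
      have hd0 : ∀ j, j ∉ W → d j = 0 := by
        intro j hj
        by_cases h1 : j = x
        · rw [h1, hdx]
        · by_cases h2 : j = y x
          · rw [h2, hdy]
          · rw [hd]
            simp only [Pi.add_apply]
            rw [hc0 x hx j hj h1 h2, un_ne h1, un_ne h2]
            rfl
      have hspan : d ∈ Submodule.span (ZMod 2) (Set.range (fun k => un (w k))) := by
        have h1 : d = ∑ j ∈ W, d j • un j := by
          funext k
          rw [Finset.sum_apply]
          by_cases hk : k ∈ W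
          · rw [Finset.sum_eq_single k]
            · rw [Pi.smul_apply, un_self, smul_eq_mul, mul_one]
            · intro j _ hjk
              rw [Pi.smul_apply, un_ne hjk.symm, smul_zero]
            · intro h; exact absurd hk h
          · rw [hd0 k hk]
            refine (Finset.sum_eq_zero (fun j hj => ?_)).symm
            rw [Pi.smul_apply, un_ne, smul_zero]
            intro h; exact hk (h ▸ hj)
        rw [h1]
        refine Submodule.sum_mem _ (fun j hj => Submodule.smul_mem _ _ ?_)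
        obtain ⟨k, hk⟩ := hw j hj
        exact Submodule.subset_span ⟨k, by simp only [hk]⟩
      rw [Submodule.mem_span_range_iff_exists_fun] at hspan
      obtain ⟨a, ha⟩ := hspan
      refine ⟨a, fun _ => ?_⟩
      rw [ha, hd]
      funext j
      simp only [Pi.add_apply]
      have h2 : ∀ p q r : ZMod 2, p = q + r + (p + q + r) := by decide
      exact h2 _ _ _
    · exact ⟨fun _ => 0, fun h => absurd h hi⟩
  choose α hα using hα
  refine ⟨(J, σ, w, α, Z, β), ?_⟩
  apply le_antisymm
  · unfold dec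
    rw [Submodule.span_le]
    rintro v (⟨i, hi, rfl⟩ | ⟨k, rfl⟩)
    · change _ ∈ C
      change en s i0 J i ∉ Z at hi
      change un (en s i0 J i) + un (en s i0 Jᶜ (σ i)) + ∑ k, α i k • un (w k) ∈ C
      rw [hσ i hi, ← hα i hi]
      exact hcC _ (Finset.mem_sdiff.2 ⟨henJ i, hi⟩)
    · change β k ∈ C
      rcases hβ' k with h1 | ⟨z, hz, h1⟩
      · rw [h1]; exact C.zero_mem
      · rw [h1]; exact hκC z (hZJ hz)
  · intro v hv
    have hcmem : ∀ x ∈ J \ Z, c x ∈ dec s t i0 (J, σ, w, α, Z, β) := by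
      intro x hx
      obtain ⟨i, rfl⟩ := hensurj x (Finset.mem_sdiff.1 hx).1
      have hi : en s i0 J i ∉ Z := (Finset.mem_sdiff.1 hx).2
      refine Submodule.subset_span (Or.inl ⟨i, hi, ?_⟩)
      change c (en s i0 J i) = un (en s i0 J i) + un (en s i0 Jᶜ (σ i)) + ∑ k, α i k • un (w k)
      rw [hσ i hi]
      exact hα i hi
    have hκmem : ∀ z ∈ Z, κ z ∈ dec s t i0 (J, σ, w, α, Z, β) := by
      intro z hz
      obtain ⟨k, hk⟩ := hβ z hz
      exact Submodule.subset_span (Or.inr ⟨k, hk⟩)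
    set v1 : I → ZMod 2 := v + ∑ x ∈ J \ Z, v x • c x with hv1
    set v2 : I → ZMod 2 := v1 + ∑ z ∈ Z, v1 z • κ z with hv2
    have hv1C : v1 ∈ C :=
      C.add_mem hv (C.sum_mem (fun x hx => C.smul_mem _ (hcC x hx)))
    have hv2C : v2 ∈ C :=
      C.add_mem hv1C (C.sum_mem (fun z hz => C.smul_mem _ (hκC z (hZJ hz))))
    have hv10 : ∀ x ∈ J \ Z, v1 x = 0 := by
      intro x hx
      rw [hv1, Pi.add_apply, Finset.sum_apply, Finset.sum_eq_single x]
      · rw [Pi.smul_apply, hcx x hx, smul_eq_mul, mul_one]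
        exact zmod2_add_self _
      · intro x' hx' hne
        rw [Pi.smul_apply, hc0 x' hx' x, smul_zero]
        · intro hxW
          exact (Finset.mem_sdiff.1 hx).2 (hWJ (Finset.mem_inter.2 ⟨hxW, (Finset.mem_sdiff.1 hx).1⟩))
        · exact hne.symm
        · intro h1
          exact hyJ x' hx' (h1 ▸ (Finset.mem_sdiff.1 hx).1)
      · intro h; exact absurd hx h
    have hv20 : v2 = 0 := by
      refine hJc v2 hv2C (fun x hx => ?_)
      have hxJ : x ∈ J := by simpa using hx
      rw [hv2, Pi.add_apply, Finset.sum_apply]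
      by_cases hxZ : x ∈ Z
      · rw [Finset.sum_eq_single x]
        · rw [Pi.smul_apply, hκ1 x hxJ, smul_eq_mul, mul_one]
          exact zmod2_add_self _
        · intro z hz hne
          rw [Pi.smul_apply, hκ0 z (hZJ hz) x hxJ hne.symm, smul_zero]
        · intro h; exact absurd hxZ h
      · rw [hv10 x (Finset.mem_sdiff.2 ⟨hxJ, hxZ⟩), zero_add]
        refine Finset.sum_eq_zero (fun z hz => ?_)
        rw [Pi.smul_apply, hκ0 z (hZJ hz) x hxJ, smul_zero]
        intro h; exact hxZ (h ▸ hz)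
    have hchar : ∀ a b : I → ZMod 2, a + b = 0 → a = b := by
      intro a b hab
      funext i
      have h1 := congrFun hab i
      have h2 : ∀ p q : ZMod 2, p + q = 0 → p = q := by decide
      exact h2 _ _ h1
    have h1 : v1 = ∑ z ∈ Z, v1 z • κ z := hchar _ _ hv20
    have h2 : v = v1 + ∑ x ∈ J \ Z, v x • c x := by
      rw [hv1]
      funext i
      simp only [Pi.add_apply]
      have h3 : ∀ p q : ZMod 2, p = p + q + q := by decide
      exact h3 _ _
    have hv1mem : v1 ∈ dec s t i0 (J, σ, w, α, Z, β) := by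
      rw [h1]
      exact Submodule.sum_mem _ (fun z hz => Submodule.smul_mem _ _ (hκmem z hz))
    rw [h2]
    exact Submodule.add_mem _ hv1mem
      (Submodule.sum_mem _ (fun x hx => Submodule.smul_mem _ _ (hcmem x hx)))

theorem card_near (s : ℕ) (hs : 6 ≤ s) (t : ℕ) (ht : 1 ≤ t) :
    (((sdc (Fin s ⊕ Fin s)).filter (fun C => Near C t)).card) ≤ s.factorial * 2 ^ (20 * t * s) := by
  have hcard : Fintype.card (Fin s ⊕ Fin s) = 2 * s := by simp; ring
  have i0 : Fin s ⊕ Fin s := Sum.inl ⟨0, by omega⟩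
  have h1 : ((sdc (Fin s ⊕ Fin s)).filter (fun C => Near C t))
      ⊆ Finset.univ.image (dec s t i0) := by
    intro C hC
    obtain ⟨hC1, hC2⟩ := Finset.mem_filter.1 hC
    obtain ⟨d, hd⟩ := dec_surj (mem_sdc.1 hC1) s hcard i0 t hC2
    exact Finset.mem_image.2 ⟨d, Finset.mem_univ _, hd⟩
  refine (Finset.card_le_card h1).trans (Finset.card_image_le.trans ?_)
  have h2 : 2 * s ≤ 2 ^ s := by
    have h3 : ∀ n, 6 ≤ n → 2 * n ≤ 2 ^ n := by
      intro n hn
      induction n, hn using Nat.le_induction with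
      | base => norm_num
      | succ n hn ih => rw [pow_succ]; omega
    exact h3 s hs
  rw [Finset.card_univ]
  simp only [Fintype.card_prod, Fintype.card_finset, Fintype.card_perm, Fintype.card_fin,
    Fintype.card_fun, ZMod.card, hcard]
  calc 2 ^ (2 * s) * (s.factorial * ((2 * s) ^ (3 * t) * ((2 ^ (3 * t)) ^ s
        * (2 ^ (2 * s) * (2 ^ (2 * s)) ^ (4 * t)))))
      ≤ 2 ^ (2 * s) * (s.factorial * ((2 ^ s) ^ (3 * t) * ((2 ^ (3 * t)) ^ s
        * (2 ^ (2 * s) * (2 ^ (2 * s)) ^ (4 * t))))) := by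
        gcongr
    _ = s.factorial * 2 ^ (4 * s + 14 * t * s) := by
        rw [← pow_mul, ← pow_mul, ← pow_mul]
        rw [show 2 ^ (2 * s) * (s.factorial * (2 ^ (s * (3 * t)) * (2 ^ (3 * t * s)
          * (2 ^ (2 * s) * 2 ^ (2 * s * (4 * t))))))
          = s.factorial * (2 ^ (2 * s) * (2 ^ (s * (3 * t)) * (2 ^ (3 * t * s)
          * (2 ^ (2 * s) * 2 ^ (2 * s * (4 * t)))))) by ring]
        rw [← pow_add, ← pow_add, ← pow_add, ← pow_add]
        congr 2
        ring
    _ ≤ s.factorial * 2 ^ (20 * t * s) := by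
        refine Nat.mul_le_mul_left _ (Nat.pow_le_pow_right (by norm_num) ?_)
        have h4 : 1 * s ≤ t * s := Nat.mul_le_mul_right s ht
        nlinarith

end RM44
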