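import Pool.Agent.Helper44.RM.Sub
import Pool.Agent.Helper44.RM.BSG
import Pool.Agent.Helper44.RM.CS2

set_option autoImplicit false
set_option linter.unusedSectionVars false

open scoped BigOperators
open Classical

namespace RM44
open RMC

variable {V : Type} [AddCommGroup V] [Module (ZMod 2) V] [Fintype V]

/-- representations of `d` as a sum of three elements of `S` -/
noncomputable def rep (S : Finset (V × Module.Dual (ZMod 2) V)) (d : V × Module.Dual (ZMod 2) V) : ℝ :=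
  ∑ w1, ∑ w2, ind S w1 * ind S w2 * ind S (d + w1 + w2)

lemma sum_rep (S : Finset (V × Module.Dual (ZMod 2) V)) : ∑ d, rep S d = (S.card : ℝ) ^ 3 := by
  unfold rep
  rw [Finset.sum_comm]
  have h1 : ∀ w1 : V × Module.Dual (ZMod 2) V,
      ∑ d : V × Module.Dual (ZMod 2) V, ∑ w2, ind S w1 * ind S w2 * ind S (d + w1 + w2)
      = ind S w1 * (S.card * S.card) := by
    intro w1
    rw [Finset.sum_comm]
    have h2 : ∀ w2 : V × Module.Dual (ZMod 2) V,
        ∑ d : V × Module.Dual (ZMod 2) V, ind S w1 * ind S w2 * ind S (d + w1 + w2)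
        = ind S w1 * S.card * ind S w2 := by
      intro w2
      rw [← Finset.mul_sum]
      have h3 : ∑ d : V × Module.Dual (ZMod 2) V, ind S (d + w1 + w2) = S.card := by
        rw [← sum_ind S, ← sum_shift (ind S) (w1 + w2)]
        exact Finset.sum_congr rfl (fun d _ => by rw [add_assoc])
      rw [h3]; ring
    simp only [h2]
    rw [← Finset.mul_sum, sum_ind]
    ring
  simp only [h1]
  rw [← Finset.sum_mul, sum_ind]
  ring

lemma path_le_rep (S S' : Finset (V × Module.Dual (ZMod 2) V))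
    (R : V × Module.Dual (ZMod 2) V → V × Module.Dual (ZMod 2) V → Prop)
    (hR : ∀ a b, R a b → a + b ∈ S') (a b : V × Module.Dual (ZMod 2) V) :
    (path3 S R a b : ℝ) ≤ rep S' (a + b) := by
  unfold path3 rep
  have h1 : ∑ w1, ∑ w2, ind S' w1 * ind S' w2 * ind S' (a + b + w1 + w2)
      = ∑ p : (V × Module.Dual (ZMod 2) V) × (V × Module.Dual (ZMod 2) V),
        ind S' (a + p.1) * ind S' (p.2 + p.1) * ind S' (p.2 + b) := by
    refine Eq.trans ?_ (Fintype.sum_prod_type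
      (fun p : (V × Module.Dual (ZMod 2) V) × (V × Module.Dual (ZMod 2) V) =>
        ind S' (a + p.1) * ind S' (p.2 + p.1) * ind S' (p.2 + b))).symm
    apply Fintype.sum_equiv (Equiv.addLeft a)
    intro w1
    apply Fintype.sum_equiv (Equiv.addRight (a + w1))
    intro w2
    change ind S' w1 * ind S' w2 * ind S' (a + b + w1 + w2)
      = ind S' (a + (a + w1)) * ind S' (w2 + (a + w1) + (a + w1)) * ind S' (w2 + (a + w1) + b)
    have e1 : a + (a + w1) = w1 := by rw [← add_assoc, v_add_self, zero_add]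
    have e2 : w2 + (a + w1) + (a + w1) = w2 := by rw [add_assoc, v_add_self, add_zero]
    have e3 : w2 + (a + w1) + b = a + b + w1 + w2 := by abel
    rw [e1, e2, e3]
  rw [h1, Finset.card_filter]
  push_cast
  calc ∑ z ∈ S ×ˢ S, (if R a z.1 ∧ R z.2 z.1 ∧ R z.2 b then (1 : ℝ) else 0)
      ≤ ∑ z ∈ S ×ˢ S, ind S' (a + z.1) * ind S' (z.2 + z.1) * ind S' (z.2 + b) := by
        refine Finset.sum_le_sum (fun z _ => ?_)
        split_ifs with h
        · unfold ind
          rw [if_pos (hR _ _ h.1), if_pos (hR _ _ h.2.1), if_pos (hR _ _ h.2.2)]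
          norm_num
        · exact mul_nonneg (mul_nonneg (ind_nonneg _ _) (ind_nonneg _ _)) (ind_nonneg _ _)
    _ ≤ _ := Finset.sum_le_sum_of_subset_of_nonneg (Finset.subset_univ _) (fun z _ _ =>
        mul_nonneg (mul_nonneg (ind_nonneg _ _) (ind_nonneg _ _)) (ind_nonneg _ _))

/-- The inverse theorem: if the squared correlations have a large second moment, then there is a
subspace with a large average of the squared correlations. -/
theorem exists_subspace (F : V → ℝ) (hF : ∀ x, F x ^ 2 = 1) (lam k : ℕ) (hk : 1 ≤ k)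
    (hu : (1 / 2 : ℝ) ^ lam * Fintype.card V ≤ ∑ z, gg F z ^ 2)
    (hbig : (2 : ℝ) ^ ((21 * lam + 45) * (348 * k ^ 2 * (21 * lam + 46)) + k + 3 * lam + 8)
      ≤ Fintype.card V) :
    ∃ L0 : Submodule (ZMod 2) (V × Module.Dual (ZMod 2) V), Fintype.card L0 = 2 ^ k ∧
      (1 / 2 : ℝ) ^ (18 * lam + 39) * Fintype.card L0 ≤ ∑ z : L0, gg F z := by
  set N : ℝ := (Fintype.card V : ℝ) with hN
  have hNpos : 0 < N := cardV_pos
  set u : ℝ := (1 / 2 : ℝ) ^ lam with hu'
  have hupos : 0 < u := by rw [hu']; positivity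
  have hu1 : u ≤ 1 := by rw [hu']; exact pow_le_one₀ (by norm_num) (by norm_num)
  set S : Finset (V × Module.Dual (ZMod 2) V) := Finset.univ.filter (fun z => u / 2 ≤ gg F z) with hS
  set α : ℝ := u ^ 2 / 8 with hα
  have hαpos : 0 < α := by rw [hα]; positivity
  have hsq : ∀ z, gg F z ^ 2 ≤ gg F z := by
    intro z
    have h1 := gg_nonneg F z
    have h2 := gg_le_one F hF z
    nlinarith
  have hSsum : u * N / 2 ≤ ∑ z ∈ S, gg F z ^ 2 := by
    have h1 : ∑ z, gg F z ^ 2 = ∑ z ∈ S, gg F z ^ 2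
        + ∑ z ∈ Finset.univ.filter (fun z => ¬ (u / 2 ≤ gg F z)), gg F z ^ 2 :=
      (Finset.sum_filter_add_sum_filter_not _ _ _).symm
    have h2 : ∑ z ∈ Finset.univ.filter (fun z => ¬ (u / 2 ≤ gg F z)), gg F z ^ 2 ≤ u / 2 * N := by
      calc ∑ z ∈ Finset.univ.filter (fun z => ¬ (u / 2 ≤ gg F z)), gg F z ^ 2
          ≤ ∑ z ∈ Finset.univ.filter (fun z => ¬ (u / 2 ≤ gg F z)), u / 2 * gg F z := by
            refine Finset.sum_le_sum (fun z hz => ?_)
            have h3 := (not_le.1 (Finset.mem_filter.1 hz).2).le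
            rw [pow_two]
            exact mul_le_mul_of_nonneg_right h3 (gg_nonneg F z)
        _ ≤ ∑ z, u / 2 * gg F z := Finset.sum_le_sum_of_subset_of_nonneg (Finset.subset_univ _)
            (fun z _ _ => mul_nonneg (by positivity) (gg_nonneg F z))
        _ = u / 2 * N := by rw [← Finset.mul_sum, sum_gg F hF]
    rw [h1] at hu
    linarith
  have hScard : u * N / 2 ≤ (S.card : ℝ) := by
    refine hSsum.trans ?_
    calc ∑ z ∈ S, gg F z ^ 2 ≤ ∑ z ∈ S, (1 : ℝ) :=
          Finset.sum_le_sum (fun z _ => (hsq z).trans (gg_le_one F hF z))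
      _ = S.card := by simp
  have hSpos : (0 : ℝ) < S.card := lt_of_lt_of_le (by positivity) hScard
  have hSne : S.Nonempty := Finset.card_pos.1 (by exact_mod_cast hSpos)
  have hE : α * (S.card : ℝ) ^ 2
      ≤ (((S ×ˢ S).filter (fun z => α ≤ gg F (z.1 + z.2))).card : ℝ) := by
    have h1 := gg_posdef F hF S
    have h2 : u / 2 * S.card ≤ ∑ z ∈ S, gg F z := by
      calc u / 2 * S.card = ∑ z ∈ S, u / 2 := by rw [Finset.sum_const, nsmul_eq_mul]; ring
        _ ≤ _ := Finset.sum_le_sum (fun z hz => (Finset.mem_filter.1 hz).2)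
    have h3 : (u / 2 * S.card) ^ 2 ≤ (∑ z ∈ S, gg F z) ^ 2 := pow_le_pow_left₀ (by positivity) h2 2
    have h4 : ∑ z ∈ S, ∑ z' ∈ S, gg F (z + z')
        ≤ (((S ×ˢ S).filter (fun z => α ≤ gg F (z.1 + z.2))).card : ℝ) + α * (S.card : ℝ) ^ 2 := by
      rw [← Finset.sum_product' (f := fun z z' => gg F (z + z')), Finset.card_filter]
      push_cast
      have h5 : α * (S.card : ℝ) ^ 2 = ∑ z ∈ S ×ˢ S, α := by
        rw [Finset.sum_const, Finset.card_product, nsmul_eq_mul]; push_cast; ring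
      rw [h5, ← Finset.sum_add_distrib]
      refine Finset.sum_le_sum (fun z _ => ?_)
      split_ifs with h
      · have := gg_le_one F hF (z.1 + z.2)
        linarith
      · have := (not_le.1 h).le
        linarith
    have h6 : (u / 2 * S.card) ^ 2 = 2 * (α * (S.card : ℝ) ^ 2) := by rw [hα]; ring
    linarith
  obtain ⟨A, B, hAS, hBS, hAc, hBc, hpath⟩ := bsg S (fun z z' => α ≤ gg F (z + z')) α hαpos hSne hE
  set S' : Finset (V × Module.Dual (ZMod 2) V) := Finset.univ.filter (fun z => α ≤ gg F z) with hS'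
  have hS'card : α * S'.card ≤ N := by
    rw [hN, ← sum_gg F hF]
    calc α * (S'.card : ℝ) = ∑ z ∈ S', α := by rw [Finset.sum_const, nsmul_eq_mul]; ring
      _ ≤ ∑ z ∈ S', gg F z := Finset.sum_le_sum (fun z hz => (Finset.mem_filter.1 hz).2)
      _ ≤ _ := Finset.sum_le_sum_of_subset_of_nonneg (Finset.subset_univ _)
          (fun z _ _ => gg_nonneg F z)
  set κ : ℝ := α ^ 5 * (S.card : ℝ) ^ 2 / 4096 with hκ
  have hκpos : 0 < κ := by rw [hκ]; positivity
  set D : Finset (V × Module.Dual (ZMod 2) V) := (A ×ˢ B).image (fun z => z.1 + z.2) with hD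
  have hDrep : ∀ d ∈ D, κ ≤ rep S' d := by
    intro d hd
    obtain ⟨z, hz, rfl⟩ := Finset.mem_image.1 hd
    rw [Finset.mem_product] at hz
    refine (hpath z.1 hz.1 z.2 hz.2).trans ?_
    exact path_le_rep S S' _ (fun a b h => Finset.mem_filter.2 ⟨Finset.mem_univ _, h⟩) _ _
  have hrep0 : ∀ d, 0 ≤ rep S' d := fun d => Finset.sum_nonneg (fun w1 _ =>
    Finset.sum_nonneg (fun w2 _ =>
      mul_nonneg (mul_nonneg (ind_nonneg _ _) (ind_nonneg _ _)) (ind_nonneg _ _)))
  have hDcard : (D.card : ℝ) * κ ≤ (N / α) ^ 3 := by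
    calc (D.card : ℝ) * κ = ∑ d ∈ D, κ := by rw [Finset.sum_const, nsmul_eq_mul]
      _ ≤ ∑ d ∈ D, rep S' d := Finset.sum_le_sum hDrep
      _ ≤ ∑ d, rep S' d := Finset.sum_le_sum_of_subset_of_nonneg (Finset.subset_univ _)
          (fun d _ _ => hrep0 d)
      _ = (S'.card : ℝ) ^ 3 := sum_rep S'
      _ ≤ (N / α) ^ 3 := by
          refine pow_le_pow_left₀ (Nat.cast_nonneg _) ?_ 3
          rw [le_div_iff₀ hαpos]; linarith
  -- the doubling constant
  have hlow : u ^ 3 * N / 96 ≤ α * S.card / 6 := by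
    rw [hα]
    have : u ^ 2 / 8 * (u * N / 2) ≤ u ^ 2 / 8 * S.card :=
      mul_le_mul_of_nonneg_left hScard (by positivity)
    calc u ^ 3 * N / 96 = (u ^ 2 / 8 * (u * N / 2)) / 6 := by ring
      _ ≤ _ := by linarith
  set K : ℝ := 2 ^ (21 * lam + 45) with hK
  have hKpos : 0 < K := by rw [hK]; positivity
  have hDle : (D.card : ℝ) ≤ K * (u ^ 3 * N / 96) := by
    have h1 : α ^ 5 * (u * N / 2) ^ 2 / 4096 ≤ κ := by
      rw [hκ]
      have : (u * N / 2) ^ 2 ≤ (S.card : ℝ) ^ 2 := pow_le_pow_left₀ (by positivity) hScard 2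
      have h2 : α ^ 5 * (u * N / 2) ^ 2 ≤ α ^ 5 * (S.card : ℝ) ^ 2 :=
        mul_le_mul_of_nonneg_left this (by positivity)
      linarith
    have h2 : (D.card : ℝ) * (α ^ 5 * (u * N / 2) ^ 2 / 4096) ≤ (N / α) ^ 3 :=
      (mul_le_mul_of_nonneg_left h1 (Nat.cast_nonneg _)).trans hDcard
    have h3 : K = 2 ^ 45 * (u⁻¹) ^ 21 := by
      rw [hK, hu', pow_add, pow_mul, mul_comm, ← inv_pow, ← pow_mul, ← pow_mul, mul_comm 21 lam]
      norm_num
    have h4 : (N / α) ^ 3 ≤ K * (u ^ 3 * N / 96) * (α ^ 5 * (u * N / 2) ^ 2 / 4096) := by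
      rw [h3, hα]
      have h5 : 2 ^ 45 * (u⁻¹) ^ 21 * (u ^ 3 * N / 96) * ((u ^ 2 / 8) ^ 5 * (u * N / 2) ^ 2 / 4096)
          = (2 ^ 45 / (96 * 8 ^ 5 * 4 * 4096)) * (N ^ 3 * (u⁻¹) ^ 6) := by
        field_simp
        norm_num
      have h6 : (N / (u ^ 2 / 8)) ^ 3 = 512 * (N ^ 3 * (u⁻¹) ^ 6) := by
        field_simp
        norm_num
      rw [h5, h6]
      refine mul_le_mul_of_nonneg_right ?_ (by positivity)
      norm_num
    exact le_of_mul_le_mul_right (h2.trans h4) (by positivity)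
  have hDA : (D.card : ℝ) ≤ K * A.card :=
    hDle.trans (mul_le_mul_of_nonneg_left (hlow.trans hAc) hKpos.le)
  have hDB : (D.card : ℝ) ≤ K * B.card :=
    hDle.trans (mul_le_mul_of_nonneg_left (hlow.trans hBc) hKpos.le)
  have hlowpos : 0 < u ^ 3 * N / 96 := by positivity
  have hAne : A.Nonempty := Finset.card_pos.1 (by
    have := lt_of_lt_of_le hlowpos (hlow.trans hAc)
    exact_mod_cast this)
  have hBne : B.Nonempty := Finset.card_pos.1 (by
    have := lt_of_lt_of_le hlowpos (hlow.trans hBc)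
    exact_mod_cast this)
  obtain ⟨v, hvli, c, hc⟩ := croot_sisask A B D (fun a ha b hb =>
      Finset.mem_image.2 ⟨(a, b), Finset.mem_product.2 ⟨ha, hb⟩, rfl⟩) hAne hBne K hKpos hDA hDB
      (21 * lam + 46) k (by omega) hk (by rw [hK, ← pow_succ']) (by
      refine le_trans ?_ (hlow.trans hBc)
      rw [hK, ← pow_mul]
      have h1 : (2 : ℝ) * 2 ^ ((21 * lam + 45) * (348 * k ^ 2 * (21 * lam + 46))) * 2 ^ k
          * (128 * 2 ^ (3 * lam)) ≤ N := by
        refine le_trans (le_of_eq ?_) hbig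
        have : (128 : ℝ) = 2 ^ 7 := by norm_num
        rw [this, pow_add, pow_add, pow_add]
        ring
      have h2 : u ^ 3 * (2 : ℝ) ^ (3 * lam) = 1 := by
        rw [hu', ← pow_mul, mul_comm lam 3, ← mul_pow]
        norm_num
      have h3 : (2 : ℝ) * 2 ^ ((21 * lam + 45) * (348 * k ^ 2 * (21 * lam + 46))) * 2 ^ k
          = (2 * 2 ^ ((21 * lam + 45) * (348 * k ^ 2 * (21 * lam + 46))) * 2 ^ k
            * (128 * 2 ^ (3 * lam))) * u ^ 3 / 128 := by
        have : (2 : ℝ) * 2 ^ ((21 * lam + 45) * (348 * k ^ 2 * (21 * lam + 46))) * 2 ^ k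
            * (128 * 2 ^ (3 * lam)) * u ^ 3 / 128
            = (2 * 2 ^ ((21 * lam + 45) * (348 * k ^ 2 * (21 * lam + 46))) * 2 ^ k)
              * (u ^ 3 * 2 ^ (3 * lam)) := by ring
        rw [this, h2, mul_one]
      rw [h3]
      have h4 := mul_le_mul_of_nonneg_right h1 (by positivity : (0 : ℝ) ≤ u ^ 3)
      have h5 : 0 ≤ u ^ 3 * N := by positivity
      linarith)
  set L0 : Submodule (ZMod 2) (V × Module.Dual (ZMod 2) V) := Submodule.span (ZMod 2) (Set.range v) with hL0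
  have hL0card : Fintype.card L0 = 2 ^ k := by
    rw [Module.card_eq_pow_finrank (K := ZMod 2), ZMod.card, hL0, finrank_span_eq_card hvli,
      Fintype.card_fin]
  refine ⟨L0, hL0card, ?_⟩
  -- from `D` to the correlations
  have hind : ∀ z, ind S' z ≤ α⁻¹ * gg F z := by
    intro z
    unfold ind
    split_ifs with h
    · have h1 := (Finset.mem_filter.1 h).2
      rw [inv_mul_eq_div, le_div_iff₀ hαpos]
      linarith
    · exact mul_nonneg (by positivity) (gg_nonneg F z)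
  have hrep1 : ∀ d, rep S' d ≤ (α⁻¹) ^ 3 * ∑ w1, ∑ w2, gg F w1 * gg F w2 * gg F (d + w1 + w2) := by
    intro d
    unfold rep
    rw [Finset.mul_sum]
    refine Finset.sum_le_sum (fun w1 _ => ?_)
    rw [Finset.mul_sum]
    refine Finset.sum_le_sum (fun w2 _ => ?_)
    calc ind S' w1 * ind S' w2 * ind S' (d + w1 + w2)
        ≤ (α⁻¹ * gg F w1) * (α⁻¹ * gg F w2) * (α⁻¹ * gg F (d + w1 + w2)) := by
          have := ind_nonneg S' w1
          have := ind_nonneg S' w2
          have := ind_nonneg S' (d + w1 + w2)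
          have := gg_nonneg F w1
          have := gg_nonneg F w2
          gcongr
          · exact hind _
          · exact hind _
          · exact hind _
      _ = _ := by ring
  have hsum1 : κ * (Fintype.card L0 / 2) ≤ (α⁻¹) ^ 3 * (N ^ 2 * ∑ y : L0, gg F y) := by
    calc κ * ((Fintype.card L0 : ℝ) / 2)
        ≤ κ * ∑ y : L0, ind D (c + (y : V × Module.Dual (ZMod 2) V)) :=
          mul_le_mul_of_nonneg_left (by linarith) hκpos.le
      _ = ∑ y : L0, κ * ind D (c + (y : V × Module.Dual (ZMod 2) V)) := by rw [Finset.mul_sum]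
      _ ≤ ∑ y : L0, rep S' (c + (y : V × Module.Dual (ZMod 2) V)) := by
          refine Finset.sum_le_sum (fun y _ => ?_)
          unfold ind
          split_ifs with h
          · rw [mul_one]; exact hDrep _ h
          · rw [mul_zero]; exact hrep0 _
      _ ≤ ∑ y : L0, (α⁻¹) ^ 3 * ∑ w1, ∑ w2, gg F w1 * gg F w2 *
            gg F (c + (y : V × Module.Dual (ZMod 2) V) + w1 + w2) :=
          Finset.sum_le_sum (fun y _ => hrep1 _)
      _ = (α⁻¹) ^ 3 * ∑ w1, ∑ w2, gg F w1 * gg F w2 *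
            ∑ y : L0, gg F ((c + w1 + w2) + (y : V × Module.Dual (ZMod 2) V)) := by
          rw [← Finset.mul_sum, Finset.sum_comm]
          congr 1
          refine Finset.sum_congr rfl (fun w1 _ => ?_)
          rw [Finset.sum_comm]
          refine Finset.sum_congr rfl (fun w2 _ => ?_)
          rw [Finset.mul_sum]
          refine Finset.sum_congr rfl (fun y _ => ?_)
          rw [show c + (y : V × Module.Dual (ZMod 2) V) + w1 + w2
            = c + w1 + w2 + (y : V × Module.Dual (ZMod 2) V) by abel]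
      _ ≤ (α⁻¹) ^ 3 * ∑ w1, ∑ w2, gg F w1 * gg F w2 * ∑ y : L0, gg F y := by
          refine mul_le_mul_of_nonneg_left ?_ (by positivity)
          refine Finset.sum_le_sum (fun w1 _ => Finset.sum_le_sum (fun w2 _ => ?_))
          exact mul_le_mul_of_nonneg_left (gg_coset F L0 _)
            (mul_nonneg (gg_nonneg F w1) (gg_nonneg F w2))
      _ = (α⁻¹) ^ 3 * (N ^ 2 * ∑ y : L0, gg F y) := by
          congr 1
          simp only [← Finset.sum_mul]
          congr 1
          rw [← Finset.sum_mul_sum, sum_gg F hF, pow_two]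
  have h1 : (1 / 2 : ℝ) ^ (18 * lam + 39) = u ^ 18 * (1 / 2) ^ 39 := by
    rw [hu', pow_add, mul_comm 18 lam, pow_mul]
  rw [h1]
  have hσ0 : 0 ≤ ∑ y : L0, gg F y := Finset.sum_nonneg (fun y _ => gg_nonneg F _)
  have h2 : α ^ 3 * (κ * (Fintype.card L0 / 2)) ≤ N ^ 2 * ∑ y : L0, gg F y := by
    have h3 := mul_le_mul_of_nonneg_left hsum1 (by positivity : (0 : ℝ) ≤ α ^ 3)
    have h4 : α ^ 3 * ((α⁻¹) ^ 3 * (N ^ 2 * ∑ y : L0, gg F y)) = N ^ 2 * ∑ y : L0, gg F y := by
      rw [← mul_assoc, ← mul_pow, mul_inv_cancel₀ hαpos.ne', one_pow, one_mul]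
    rwa [h4] at h3
  have h5 : N ^ 2 * (u ^ 18 * (1 / 2) ^ 39) ≤ α ^ 3 * κ / 2 := by
    rw [hκ]
    have h6 : (u * N / 2) ^ 2 ≤ (S.card : ℝ) ^ 2 := pow_le_pow_left₀ (by positivity) hScard 2
    have h7 : α ^ 3 * (α ^ 5 * (u * N / 2) ^ 2 / 4096) / 2
        ≤ α ^ 3 * (α ^ 5 * (S.card : ℝ) ^ 2 / 4096) / 2 := by gcongr
    refine le_trans (le_of_eq ?_) h7
    rw [hα]
    ring
  have h8 : N ^ 2 * (u ^ 18 * (1 / 2) ^ 39 * Fintype.card L0) ≤ N ^ 2 * ∑ y : L0, gg F y := by
    calc N ^ 2 * (u ^ 18 * (1 / 2) ^ 39 * Fintype.card L0)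
        = (N ^ 2 * (u ^ 18 * (1 / 2) ^ 39)) * Fintype.card L0 := by ring
      _ ≤ (α ^ 3 * κ / 2) * Fintype.card L0 := mul_le_mul_of_nonneg_right h5 (Nat.cast_nonneg _)
      _ = α ^ 3 * (κ * (Fintype.card L0 / 2)) := by ring
      _ ≤ _ := h2
  exact le_of_mul_le_mul_left h8 (by positivity)

/-- If all quadratic correlations are small then the second moment of the squared correlations is
small. -/
theorem inverse (F : V → ℝ) (hF : ∀ x, F x ^ 2 = 1) (ρ : ℝ) (hρ0 : 0 ≤ ρ) (hR : Rb F ρ) (lam : ℕ)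
    (hρ : ρ ≤ 2 ^ lam)
    (hbig : (2 : ℝ) ^ ((21 * lam + 45) * (348 * (56 * lam + 120) ^ 2 * (21 * lam + 46))
      + (56 * lam + 120) + 3 * lam + 8) ≤ Fintype.card V) :
    ∑ z, gg F z ^ 2 < (1 / 2 : ℝ) ^ lam * Fintype.card V := by
  by_contra hcon
  push Not at hcon
  obtain ⟨L0, hcard, hL0⟩ := exists_subspace F hF lam (56 * lam + 120) (by omega) hcon hbig
  have h1 := sub_bound F hF ρ hR L0 ((1 / 2 : ℝ) ^ (18 * lam + 39)) (by positivity) hL0
  rw [hcard] at h1
  push_cast at h1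
  have h2 : ((1 / 2 : ℝ) ^ (18 * lam + 39)) ^ 3 * 2 ^ (56 * lam + 120) = 2 ^ (2 * lam + 3) := by
    rw [← pow_mul, show 56 * lam + 120 = (18 * lam + 39) * 3 + (2 * lam + 3) by ring, pow_add 2,
      ← mul_assoc, ← mul_pow]
    norm_num
  rw [h2] at h1
  have h3 : ρ ^ 2 ≤ (2 ^ lam) ^ 2 := pow_le_pow_left₀ hρ0 hρ 2
  have h4 : (2 : ℝ) ^ (2 * lam + 3) = 8 * (2 ^ lam) ^ 2 := by
    rw [pow_add, mul_comm 2 lam, pow_mul]; norm_num; ring
  rw [h4] at h1
  have h5 : (0 : ℝ) < (2 ^ lam) ^ 2 := by positivity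
  linarith

end RM44
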