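import Pool.Agent.Helper71.RMC.MomU
import Pool.Agent.Helper44.RM.Inv

set_option autoImplicit false
set_option linter.unusedSectionVars false

open scoped BigOperators
open Classical

namespace RM44
open RMC

variable {I : Type} [Fintype I]

/-- Four information sets `J`, `J`, `R ∪ (Jᶜ ∖ Y2)`, `R ∪ (Jᶜ ∖ Y4)` which contain `R`. -/
structure Ex (C : Submodule (ZMod 2) (I → ZMod 2)) (J R Y2 Y4 : Finset I) : Prop where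
  hJ : Free J C
  hJc : Free Jᶜ C
  hR : R ⊆ J
  hY2 : Y2 ⊆ Jᶜ
  hY4 : Y4 ⊆ Jᶜ
  dis : Disjoint Y2 Y4
  c2 : Y2.card = R.card
  c4 : Y4.card = R.card
  h2 : Free (R ∪ (Jᶜ \ Y2)) C
  h2c : Free (R ∪ (Jᶜ \ Y2))ᶜ C
  h4 : Free (R ∪ (Jᶜ \ Y4)) C
  h4c : Free (R ∪ (Jᶜ \ Y4))ᶜ C

/-- `C` is a pairing code up to `3 t` coordinates `W` and `4 t` words. -/
def Near (C : Submodule (ZMod 2) (I → ZMod 2)) (t : ℕ) : Prop :=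
  ∃ (J W Z : Finset I) (y : I → I), Free J C ∧ Free Jᶜ C ∧ W.card ≤ 3 * t ∧ Z.card ≤ 4 * t ∧
    Z ⊆ J ∧ W ∩ J ⊆ Z ∧ Set.InjOn y (J \ Z : Finset I) ∧ (∀ x ∈ J \ Z, y x ∉ J) ∧
    ∀ x ∈ J \ Z, ∃ c ∈ C, c x = 1 ∧ c (y x) = 1 ∧ ∀ i, i ∉ W → i ≠ x → i ≠ y x → c i = 0

end RM44
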