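import Pool.Agent.Helper44.RM.ExDef

set_option autoImplicit false
set_option linter.unusedSectionVars false

open scoped BigOperators
open Classical

namespace RM44
open RMC

variable {I : Type} [Fintype I]

/-- information sets have `s` elements -/
lemma card_free {C : Submodule (ZMod 2) (I → ZMod 2)} (hC : SD C) (s : ℕ)
    (hs : Fintype.card I = 2 * s) {J : Finset I} (hJ : Free J C) (hJc : Free Jᶜ C) :
    J.card = s := by
  have h1 := Fintype.card_of_bijective (CV_bij (V := ZMod 2) hC hJ hJc)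
  rw [card_CV (V := ZMod 2) hC s hs, Fintype.card_fun, Fintype.card_coe, ZMod.card] at h1
  exact (Nat.pow_right_injective (le_refl 2) h1).symm

/-- one exchange -/
lemma exch_step {C : Submodule (ZMod 2) (I → ZMod 2)} (hC : SD C) {B : Finset I}
    (hB : Free B C) (hBc : Free Bᶜ C) {x y : I} (hx : x ∉ B) (hy : y ∈ B) {k : I → ZMod 2}
    (hk : k ∈ C) (hkx : k x = 1) (hky : k y = 1) (hk0 : ∀ i ∈ Bᶜ, i ≠ x → k i = 0) :
    Free (insert x (B.erase y)) C ∧ Free (insert x (B.erase y))ᶜ C := by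
  have hxy : x ≠ y := fun h => hx (h ▸ hy)
  constructor
  · intro c hc hsupp
    rcases zmod2_cases (c x) with h | h
    · refine hB c hc (fun i hi => ?_)
      by_cases hix : i = x
      · rw [hix]; exact h
      · refine hsupp i (fun hmem => ?_)
        rcases Finset.mem_insert.1 hmem with h1 | h1
        · exact hix h1
        · exact hi (Finset.mem_of_mem_erase h1)
    · exfalso
      have h1 : c + k = 0 := by
        refine hB (c + k) (C.add_mem hc hk) (fun i hi => ?_)
        rw [Pi.add_apply]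
        by_cases hix : i = x
        · rw [hix, h, hkx]; rfl
        · rw [hk0 i (Finset.mem_compl.2 hi) hix, add_zero]
          refine hsupp i (fun hmem => ?_)
          rcases Finset.mem_insert.1 hmem with h1 | h1
          · exact hix h1
          · exact hi (Finset.mem_of_mem_erase h1)
      have h2 := congrFun h1 y
      rw [Pi.add_apply, hky, hsupp y (fun hmem => ?_)] at h2
      · exact absurd (show (0 : ZMod 2) + 1 = 0 from h2) (by decide)
      · rcases Finset.mem_insert.1 hmem with h3 | h3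
        · exact hxy h3.symm
        · exact (Finset.mem_erase.1 h3).1 rfl
  · intro c hc hsupp
    have hsupp' : ∀ i, i = x ∨ (i ≠ y ∧ i ∈ B) → c i = 0 := by
      intro i hi
      refine hsupp i (fun hmem => ?_)
      rw [Finset.mem_compl] at hmem
      apply hmem
      rcases hi with h | h
      · exact Finset.mem_insert.2 (Or.inl h)
      · exact Finset.mem_insert_of_mem (Finset.mem_erase.2 h)
    have hcy : c y = 0 := by
      have h0 := hC.so c hc k hk
      unfold ip at h0
      rw [Finset.sum_eq_single y] at h0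
      · rwa [hky, mul_one] at h0
      · intro i _ hiy
        by_cases hiB : i ∈ B
        · rw [hsupp' i (Or.inr ⟨hiy, hiB⟩), zero_mul]
        · by_cases hix : i = x
          · rw [hsupp' i (Or.inl hix), zero_mul]
          · rw [hk0 i (Finset.mem_compl.2 hiB) hix, mul_zero]
      · intro h; exact absurd (Finset.mem_univ _) h
    refine hBc c hc (fun i hi => ?_)
    have hiB : i ∈ B := by simpa using hi
    by_cases hiy : i = y
    · rw [hiy]; exact hcy
    · exact hsupp' i (Or.inr ⟨hiy, hiB⟩)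

/-- enlarge `R` -/
lemma Ex.extend {C : Submodule (ZMod 2) (I → ZMod 2)} (hC : SD C) {J R Y2 Y4 : Finset I}
    (h : Ex C J R Y2 Y4) {x y2 y4 : I} (hxJ : x ∈ J) (hxR : x ∉ R)
    (hy2 : y2 ∈ Jᶜ \ (Y2 ∪ Y4)) (hy4 : y4 ∈ Jᶜ \ (Y2 ∪ Y4)) (hne : y2 ≠ y4)
    {k2 k4 : I → ZMod 2} (hk2 : k2 ∈ C) (hk4 : k4 ∈ C) (hk2x : k2 x = 1) (hk4x : k4 x = 1)
    (hk2y : k2 y2 = 1) (hk4y : k4 y4 = 1)
    (hk20 : ∀ i ∈ (R ∪ (Jᶜ \ Y2))ᶜ, i ≠ x → k2 i = 0)
    (hk40 : ∀ i ∈ (R ∪ (Jᶜ \ Y4))ᶜ, i ≠ x → k4 i = 0) :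
    Ex C J (insert x R) (insert y2 Y2) (insert y4 Y4) := by
  rw [Finset.mem_sdiff, Finset.mem_compl, Finset.mem_union, not_or] at hy2 hy4
  have key : ∀ (Y : Finset I) (y : I), Y ⊆ Jᶜ → y ∉ J → y ∉ Y →
      insert x R ∪ (Jᶜ \ insert y Y) = insert x ((R ∪ (Jᶜ \ Y)).erase y) := by
    intro Y y hY hyJ hyY
    have hxy : x ≠ y := fun h => hyJ (h ▸ hxJ)
    ext i
    simp only [Finset.mem_union, Finset.mem_insert, Finset.mem_sdiff, Finset.mem_compl,
      Finset.mem_erase, not_or]
    constructor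
    · rintro ((h1 | h1) | h1)
      · exact Or.inl h1
      · refine Or.inr ⟨?_, Or.inl h1⟩
        rintro rfl
        exact hyJ (h.hR h1)
      · exact Or.inr ⟨h1.2.1, Or.inr ⟨h1.1, h1.2.2⟩⟩
    · rintro (h1 | ⟨h1, h2 | h2⟩)
      · exact Or.inl (Or.inl h1)
      · exact Or.inl (Or.inr h2)
      · exact Or.inr ⟨h2.1, h1, h2.2⟩
  have hxn : ∀ Y : Finset I, x ∉ R ∪ (Jᶜ \ Y) := by
    intro Y hx
    rcases Finset.mem_union.1 hx with h1 | h1
    · exact hxR h1
    · exact (Finset.mem_compl.1 (Finset.mem_sdiff.1 h1).1) hxJ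
  have s2 := exch_step hC h.h2 h.h2c (hxn Y2) (y := y2)
    (Finset.mem_union_right _ (Finset.mem_sdiff.2 ⟨Finset.mem_compl.2 hy2.1, hy2.2.1⟩)) hk2 hk2x hk2y hk20
  have s4 := exch_step hC h.h4 h.h4c (hxn Y4) (y := y4)
    (Finset.mem_union_right _ (Finset.mem_sdiff.2 ⟨Finset.mem_compl.2 hy4.1, hy4.2.2⟩)) hk4 hk4x hk4y hk40
  rw [← key Y2 y2 h.hY2 hy2.1 hy2.2.1] at s2
  rw [← key Y4 y4 h.hY4 hy4.1 hy4.2.2] at s4
  refine ⟨h.hJ, h.hJc, ?_, ?_, ?_, ?_, ?_, ?_, s2.1, s2.2, s4.1, s4.2⟩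
  · intro i hi
    rcases Finset.mem_insert.1 hi with h1 | h1
    · rw [h1]; exact hxJ
    · exact h.hR h1
  · intro i hi
    rcases Finset.mem_insert.1 hi with h1 | h1
    · rw [h1]; exact Finset.mem_compl.2 hy2.1
    · exact h.hY2 h1
  · intro i hi
    rcases Finset.mem_insert.1 hi with h1 | h1
    · rw [h1]; exact Finset.mem_compl.2 hy4.1
    · exact h.hY4 h1
  · rw [Finset.disjoint_insert_left, Finset.disjoint_insert_right, Finset.mem_insert, not_or]
    exact ⟨⟨hne, hy2.2.2⟩, hy4.2.1, h.dis⟩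
  · rw [Finset.card_insert_of_notMem hy2.2.1, Finset.card_insert_of_notMem hxR, h.c2]
  · rw [Finset.card_insert_of_notMem hy4.2.2, Finset.card_insert_of_notMem hxR, h.c4]

/-- the words of a maximal configuration -/
lemma max_words {C : Submodule (ZMod 2) (I → ZMod 2)} (hC : SD C) {J R Y2 Y4 : Finset I}
    (h : Ex C J R Y2 Y4)
    (hmax : ∀ R' Y2' Y4', Ex C J R' Y2' Y4' → R'.card ≤ R.card) (x : I) (hx : x ∈ J \ R) :
    ∃ c ∈ C, c x = 1 ∧ (∀ i ∈ J \ R, i ≠ x → c i = 0) ∧
      ((∀ i ∈ Jᶜ \ (Y2 ∪ Y4), c i = 0) ∨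
        ∃ y ∈ Jᶜ \ (Y2 ∪ Y4), c y = 1 ∧ ∀ i ∈ Jᶜ \ (Y2 ∪ Y4), i ≠ y → c i = 0) := by
  rw [Finset.mem_sdiff] at hx
  have hxn : ∀ Y : Finset I, x ∈ (R ∪ (Jᶜ \ Y))ᶜ := by
    intro Y
    rw [Finset.mem_compl]
    intro hx'
    rcases Finset.mem_union.1 hx' with h1 | h1
    · exact hx.2 h1
    · exact (Finset.mem_compl.1 (Finset.mem_sdiff.1 h1).1) hx.1
  obtain ⟨k2, hk2, hk2x, hk20⟩ := free_surj hC h.h2c x (hxn Y2)
  obtain ⟨k4, hk4, hk4x, hk40⟩ := free_surj hC h.h4c x (hxn Y4)
  have hJR : ∀ (Y : Finset I) (i : I), i ∈ J \ R → i ∈ (R ∪ (Jᶜ \ Y))ᶜ := by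
    intro Y i hi
    rw [Finset.mem_sdiff] at hi
    rw [Finset.mem_compl]
    intro hi'
    rcases Finset.mem_union.1 hi' with h1 | h1
    · exact hi.2 h1
    · exact (Finset.mem_compl.1 (Finset.mem_sdiff.1 h1).1) hi.1
  have hno : ∀ y2 ∈ Jᶜ \ (Y2 ∪ Y4), ∀ y4 ∈ Jᶜ \ (Y2 ∪ Y4), k2 y2 = 1 → k4 y4 = 1 → y2 = y4 := by
    intro y2 hy2 y4 hy4 h2 h4
    by_contra hne
    have h5 := h.extend hC hx.1 hx.2 hy2 hy4 hne hk2 hk4 hk2x hk4x h2 h4 hk20 hk40
    have h6 := hmax _ _ _ h5
    rw [Finset.card_insert_of_notMem hx.2] at h6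
    omega
  by_cases hS2 : ∀ i ∈ Jᶜ \ (Y2 ∪ Y4), k2 i = 0
  · exact ⟨k2, hk2, hk2x, fun i hi hix => hk20 i (hJR Y2 i hi) hix, Or.inl hS2⟩
  · by_cases hS4 : ∀ i ∈ Jᶜ \ (Y2 ∪ Y4), k4 i = 0
    · exact ⟨k4, hk4, hk4x, fun i hi hix => hk40 i (hJR Y4 i hi) hix, Or.inl hS4⟩
    · push Not at hS2 hS4
      obtain ⟨y2, hy2, h2⟩ := hS2
      obtain ⟨y4, hy4, h4⟩ := hS4
      have h2' := (zmod2_cases _).resolve_left h2
      have h4' := (zmod2_cases _).resolve_left h4
      have he := hno y2 hy2 y4 hy4 h2' h4'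
      refine ⟨k2, hk2, hk2x, fun i hi hix => hk20 i (hJR Y2 i hi) hix, Or.inr ⟨y2, hy2, h2', ?_⟩⟩
      intro i hi hiy
      refine (zmod2_cases _).resolve_right (fun h1 => hiy ?_)
      rw [hno i hi y4 hy4 h1 h4', he]

/-- (B) every self-dual code is a pairing code up to a small part, and it has four information sets
which share as many elements as the size of this part. -/
theorem exists_near {C : Submodule (ZMod 2) (I → ZMod 2)} (hC : SD C) (s : ℕ)
    (hs : Fintype.card I = 2 * s) :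
    (∀ i, ∃ j, j ≠ i ∧ un i + un j ∈ C) ∨
      ∃ J R Y2 Y4 : Finset I, Ex C J R Y2 Y4 ∧ 1 ≤ R.card ∧ R.card ≤ s ∧ Near C R.card := by
  have h0 : Free (∅ : Finset I) C := by
    intro c _ h
    funext i
    exact h i (by simp)
  obtain ⟨J0, -, hJ0, hJ0c⟩ := exists_free hC.so h0
  have hstart : Ex C J0 ∅ ∅ ∅ := by
    refine ⟨hJ0, hJ0c, by simp, by simp, by simp, by simp, rfl, rfl, ?_, ?_, ?_, ?_⟩ <;>
      simpa using (by first | exact hJ0c | exact hJ0)
  -- a maximal configuration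
  obtain ⟨q, hq, hqmax⟩ := (Set.toFinite {q : Finset I × Finset I × Finset I × Finset I |
    Ex C q.1 q.2.1 q.2.2.1 q.2.2.2}).toFinset.exists_max_image (fun q => q.2.1.card)
    ⟨(J0, ∅, ∅, ∅), by rw [Set.Finite.mem_toFinset]; exact hstart⟩
  obtain ⟨J, R, Y2, Y4⟩ := q
  rw [Set.Finite.mem_toFinset] at hq
  have hex : Ex C J R Y2 Y4 := hq
  have hmax : ∀ R' Y2' Y4', Ex C J R' Y2' Y4' → R'.card ≤ R.card := by
    intro R' Y2' Y4' h
    exact hqmax (J, R', Y2', Y4') (by rw [Set.Finite.mem_toFinset]; exact h)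
  have hJcard : J.card = s := card_free hC s hs hex.hJ hex.hJc
  have hJccard : Jᶜ.card = s := by
    refine card_free hC s hs hex.hJc ?_
    rw [compl_compl]; exact hex.hJ
  set W : Finset I := R ∪ (Y2 ∪ Y4) with hW
  have hWcard : W.card ≤ 3 * R.card := by
    have h1 := Finset.card_union_le R (Y2 ∪ Y4)
    have h2 := Finset.card_union_le Y2 Y4
    have h3 := hex.c2
    have h4 := hex.c4
    rw [hW]; omega
  have hw := fun x hx => max_words hC hex hmax x hx
  choose! c hcC hcx hc0 hcy using hw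
  -- the elements with a partner
  set X1 : Finset I := (J \ R).filter (fun x => ∃ y ∈ Jᶜ \ (Y2 ∪ Y4), c x y = 1 ∧
    ∀ i ∈ Jᶜ \ (Y2 ∪ Y4), i ≠ y → c x i = 0) with hX1
  have hyy : ∀ x ∈ X1, ∃ y ∈ Jᶜ \ (Y2 ∪ Y4), c x y = 1 ∧
      ∀ i ∈ Jᶜ \ (Y2 ∪ Y4), i ≠ y → c x i = 0 := fun x hx => (Finset.mem_filter.1 hx).2
  choose! yy hyyJ hyy1 hyy0 using hyy
  have hX0 : ∀ x ∈ J \ R, x ∉ X1 → ∀ i ∈ Jᶜ \ (Y2 ∪ Y4), c x i = 0 := by
    intro x hx hx1
    rcases hcy x hx with h | h
    · exact h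
    · exact absurd (Finset.mem_filter.2 ⟨hx, h⟩) hx1
  have hX1sub : X1 ⊆ J \ R := Finset.filter_subset _ _
  obtain ⟨Rp0, hRp0sub, hRp0⟩ := Set.exists_subset_bijOn (X1 : Set I) yy
  set Rp : Finset I := (Set.toFinite Rp0).toFinset with hRp
  have hmemRp : ∀ x, x ∈ Rp ↔ x ∈ Rp0 := fun x => Set.Finite.mem_toFinset _
  have hRpX1 : Rp ⊆ X1 := fun x hx => hRp0sub ((hmemRp x).1 hx)
  set Z0 : Finset I := (J \ R) \ Rp with hZ0
  -- the support of the words
  have hsupp : ∀ x ∈ J \ R, ∀ i, i ∉ W → i ≠ x → (x ∈ X1 → i ≠ yy x) → c x i = 0 := by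
    intro x hx i hiW hix hiy
    have hi1 : i ∉ R := fun h => hiW (Finset.mem_union_left _ h)
    have hi2 : i ∉ Y2 ∪ Y4 := fun h => hiW (Finset.mem_union_right _ h)
    by_cases hiJ : i ∈ J
    · exact hc0 x hx i (Finset.mem_sdiff.2 ⟨hiJ, hi1⟩) hix
    · have hi3 : i ∈ Jᶜ \ (Y2 ∪ Y4) := Finset.mem_sdiff.2 ⟨Finset.mem_compl.2 hiJ, hi2⟩
      by_cases hx1 : x ∈ X1
      · exact hyy0 x hx1 i hi3 (hiy hx1)
      · exact hX0 x hx hx1 i hi3
  -- the independence argument
  have hZ0card : Z0.card ≤ W.card := by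
    let Θ : (Z0 → ZMod 2) → (W → ZMod 2) := fun a w => ∑ x : Z0, a x * c x w
    have hinj : Function.Injective Θ := by
      intro a b hab
      -- reduce to the kernel
      let d : Z0 → ZMod 2 := fun x => a x + b x
      let v : I → ZMod 2 := ∑ x : Z0, d x • c x
      have hvC : v ∈ C := C.sum_mem (fun x _ => C.smul_mem _ (hcC x (Finset.mem_sdiff.1 x.2).1))
      have hvi : ∀ i, v i = ∑ x : Z0, d x * c x i := by
        intro i
        simp only [v, Finset.sum_apply, Pi.smul_apply, smul_eq_mul]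
      have hvW : ∀ i ∈ W, v i = 0 := by
        intro i hi
        have h1 := congrFun hab ⟨i, hi⟩
        simp only [Θ] at h1
        rw [hvi]
        simp only [d, add_mul]
        rw [Finset.sum_add_distrib, h1, zmod2_add_self]
      have hvZ : ∀ x : Z0, v x = d x := by
        intro x
        rw [hvi, Finset.sum_eq_single x]
        · rw [hcx x (Finset.mem_sdiff.1 x.2).1, mul_one]
        · intro x' _ hne
          rw [hc0 x' (Finset.mem_sdiff.1 x'.2).1 x (Finset.mem_sdiff.1 x.2).1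
            (fun h => hne (Subtype.ext h.symm)), mul_zero]
        · intro h; exact absurd (Finset.mem_univ _) h
      have hvR : ∀ x ∈ J \ R, x ∉ Z0 → v x = 0 := by
        intro x hx hxZ
        rw [hvi]
        refine Finset.sum_eq_zero (fun x' _ => ?_)
        rw [hc0 x' (Finset.mem_sdiff.1 x'.2).1 x hx (fun h => hxZ (h ▸ x'.2)), mul_zero]
      have hip : ∀ x ∈ J \ R, v x + (if x ∈ X1 then v (yy x) else 0) = 0 := by
        intro x hx
        have h1 := hC.so v hvC (c x) (hcC x hx)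
        unfold ip at h1
        have h2 : ∀ i, v i * c x i = (if i = x then v x else 0)
            + (if x ∈ X1 then (if i = yy x then v (yy x) else 0) else 0) := by
          intro i
          by_cases hix : i = x
          · subst hix
            rw [if_pos rfl, hcx i hx, mul_one]
            by_cases hi1 : i ∈ X1
            · rw [if_pos hi1, if_neg, add_zero]
              intro h
              have h3 := (Finset.mem_sdiff.1 (hyyJ i hi1)).1
              rw [← h] at h3
              exact (Finset.mem_compl.1 h3) (Finset.mem_sdiff.1 hx).1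
            · rw [if_neg hi1, add_zero]
          · rw [if_neg hix, zero_add]
            by_cases hi1 : x ∈ X1
            · rw [if_pos hi1]
              by_cases hiy : i = yy x
              · rw [if_pos hiy, hiy, hyy1 x hi1, mul_one]
              · rw [if_neg hiy]
                by_cases hiW : i ∈ W
                · rw [hvW i hiW, zero_mul]
                · rw [hsupp x hx i hiW hix (fun _ => hiy), mul_zero]
            · rw [if_neg hi1]
              by_cases hiW : i ∈ W
              · rw [hvW i hiW, zero_mul]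
              · rw [hsupp x hx i hiW hix (fun h => absurd h hi1), mul_zero]
        rw [Finset.sum_congr rfl (fun i _ => h2 i), Finset.sum_add_distrib,
          Finset.sum_ite_eq' Finset.univ x, if_pos (Finset.mem_univ _)] at h1
        by_cases hi1 : x ∈ X1
        · simp only [if_pos hi1] at h1 ⊢
          rwa [Finset.sum_ite_eq' Finset.univ (yy x), if_pos (Finset.mem_univ _)] at h1
        · simp only [if_neg hi1, Finset.sum_const_zero] at h1 ⊢
          exact h1
      have hvy : ∀ x ∈ X1, v (yy x) = 0 := by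
        intro x hx
        obtain ⟨x', hx', he⟩ := hRp0.surjOn (Set.mem_image_of_mem yy (Finset.mem_coe.2 hx))
        have hx'1 : x' ∈ X1 := hRp0sub hx'
        have h1 := hip x' (hX1sub hx'1)
        rw [if_pos hx'1, he, hvR x' (hX1sub hx'1) (fun h =>
          (Finset.mem_sdiff.1 h).2 ((hmemRp x').2 hx')), zero_add] at h1
        exact h1
      funext x
      have h1 := hip x (Finset.mem_sdiff.1 x.2).1
      have h2 : v x = 0 := by
        by_cases hx1 : (x : I) ∈ X1
        · rwa [if_pos hx1, hvy x hx1, add_zero] at h1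
        · rwa [if_neg hx1, add_zero] at h1
      rw [hvZ x] at h2
      have h3 : a x + b x = 0 := h2
      have h4 : a x = a x + b x + b x := by rw [add_assoc, zmod2_add_self, add_zero]
      rw [h4, h3, zero_add]
    have h1 := Fintype.card_le_of_injective Θ hinj
    rw [Fintype.card_fun, Fintype.card_fun, ZMod.card, Fintype.card_coe, Fintype.card_coe] at h1
    exact (Nat.pow_le_pow_iff_right (by norm_num)).1 h1
  have hRpJ : Rp ⊆ J := fun x hx => (Finset.mem_sdiff.1 (hX1sub (hRpX1 hx))).1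
  have hRpinj : Set.InjOn yy (Rp : Set I) := by
    intro x hx x' hx' h
    exact hRp0.injOn ((hmemRp x).1 (Finset.mem_coe.1 hx)) ((hmemRp x').1 (Finset.mem_coe.1 hx')) h
  by_cases ht : R.card = 0
  · -- the pairing case
    left
    have hR0 : R = ∅ := Finset.card_eq_zero.1 ht
    have hW0 : W.card = 0 := by omega
    have hWe : W = ∅ := Finset.card_eq_zero.1 hW0
    have hZe : Z0 = ∅ := Finset.card_eq_zero.1 (by omega)
    have hRpe : Rp = J := by
      refine Finset.Subset.antisymm hRpJ (fun x hx => ?_)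
      by_contra hxn
      have : x ∈ Z0 := by
        rw [hZ0, hR0, Finset.sdiff_empty]
        exact Finset.mem_sdiff.2 ⟨hx, hxn⟩
      rw [hZe] at this
      simp at this
    have hword : ∀ x ∈ J, un x + un (yy x) ∈ C := by
      intro x hx
      have hx1 : x ∈ X1 := hRpX1 (hRpe ▸ hx)
      have hxJ := hX1sub hx1
      have h1 : un x + un (yy x) = c x := by
        have hne : x ≠ yy x := by
          intro h
          have h3 := (Finset.mem_sdiff.1 (hyyJ x hx1)).1
          rw [← h] at h3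
          exact (Finset.mem_compl.1 h3) hx
        funext i
        rw [Pi.add_apply]
        by_cases hix : i = x
        · rw [hix, un_self, un_ne hne, add_zero, hcx x hxJ]
        · by_cases hiy : i = yy x
          · rw [hiy, un_self, un_ne hne.symm, zero_add, hyy1 x hx1]
          · rw [un_ne hix, un_ne hiy, add_zero,
              hsupp x hxJ i (by rw [hWe]; simp) hix (fun _ => hiy)]
      rw [h1]; exact hcC x hxJ
    have hyJ : ∀ x ∈ J, yy x ∈ Jᶜ := fun x hx =>
      (Finset.mem_sdiff.1 (hyyJ x (hRpX1 (hRpe ▸ hx)))).1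
    intro i
    by_cases hi : i ∈ J
    · exact ⟨yy i, fun h => (Finset.mem_compl.1 (hyJ i hi)) (by rw [h]; exact hi), hword i hi⟩
    · have hsurj : (J.image yy) = Jᶜ := by
        refine Finset.eq_of_subset_of_card_le ?_ ?_
        · intro y hy
          obtain ⟨x, hx, rfl⟩ := Finset.mem_image.1 hy
          exact hyJ x hx
        · rw [Finset.card_image_of_injOn (hRpe ▸ hRpinj), hJcard, hJccard]
      have hi' : i ∈ J.image yy := by rw [hsurj]; exact Finset.mem_compl.2 hi
      obtain ⟨x, hx, rfl⟩ := Finset.mem_image.1 hi'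
      refine ⟨x, fun h => hi (h ▸ hx), ?_⟩
      rw [add_comm]; exact hword x hx
  · right
    refine ⟨J, R, Y2, Y4, hex, Nat.one_le_iff_ne_zero.2 ht, ?_, ?_⟩
    · rw [← hJcard]; exact Finset.card_le_card hex.hR
    · have hJZ : J \ (J \ Rp) = Rp := by
        rw [sdiff_sdiff_right_self]
        exact inf_eq_right.2 hRpJ
      refine ⟨J, W, J \ Rp, yy, hex.hJ, hex.hJc, hWcard, ?_, Finset.sdiff_subset, ?_, ?_, ?_, ?_⟩
      · have h1 : J \ Rp ⊆ R ∪ Z0 := by
          intro x hx
          rw [Finset.mem_sdiff] at hx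
          by_cases hxR : x ∈ R
          · exact Finset.mem_union_left _ hxR
          · exact Finset.mem_union_right _ (Finset.mem_sdiff.2 ⟨Finset.mem_sdiff.2 ⟨hx.1, hxR⟩, hx.2⟩)
        have h2 := Finset.card_le_card h1
        have h3 := Finset.card_union_le R Z0
        omega
      · intro x hx
        rw [Finset.mem_inter] at hx
        refine Finset.mem_sdiff.2 ⟨hx.2, fun h => ?_⟩
        have h1 := Finset.mem_sdiff.1 (hX1sub (hRpX1 h))
        rcases Finset.mem_union.1 hx.1 with h2 | h2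
        · exact h1.2 h2
        · rcases Finset.mem_union.1 h2 with h3 | h3
          · exact (Finset.mem_compl.1 (hex.hY2 h3)) hx.2
          · exact (Finset.mem_compl.1 (hex.hY4 h3)) hx.2
      · rw [hJZ]; exact hRpinj
      · intro x hx
        rw [hJZ] at hx
        exact Finset.mem_compl.1 (Finset.mem_sdiff.1 (hyyJ x (hRpX1 hx))).1
      · intro x hx
        rw [hJZ] at hx
        have hx1 := hRpX1 hx
        have hxJ := hX1sub hx1
        exact ⟨c x, hcC x hxJ, hcx x hxJ, hyy1 x hx1, fun i hiW hix hiy =>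
          hsupp x hxJ i hiW hix (fun _ => hiy)⟩

end RM44
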