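import Pool.Agent.Helper44.RM.Inv
import Pool.Agent.Helper44.PFR.Pfr

set_option autoImplicit false
set_option linter.unusedSectionVars false

open scoped BigOperators
open Classical

namespace RM44
open RMC

variable {V : Type} [AddCommGroup V] [Module (ZMod 2) V] [Fintype V]

/-- a large subspace with a large average of the squared correlations, from the polynomial
Freiman-Ruzsa theorem -/
theorem exists_subspace2 (F : V → ℝ) (hF : ∀ x, F x ^ 2 = 1) (lam : ℕ)
    (hu : (1 / 2 : ℝ) ^ lam * Fintype.card V ≤ ∑ z, gg F z ^ 2) :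
    ∃ L0 : Submodule (ZMod 2) (V × Module.Dual (ZMod 2) V),
      ((1 / 2 : ℝ) ^ lam) ^ 3 * Fintype.card V / 96
        ≤ ((2 : ℝ) ^ (21 * lam + 45)) ^ 11 * Fintype.card L0 ∧
      (1 / 2 : ℝ) ^ lam / 2 * Fintype.card L0
        ≤ ((2 : ℝ) ^ (21 * lam + 45)) ^ 11 * ∑ z : L0, gg F z := by
  set N : ℝ := (Fintype.card V : ℝ) with hN
  have hNpos : 0 < N := cardV_pos
  set u : ℝ := (1 / 2 : ℝ) ^ lam with hu'
  have hupos : 0 < u := by rw [hu']; positivity
  have hu1 : u ≤ 1 := by rw [hu']; exact pow_le_one₀ (by norm_num) (by norm_num)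
  set S : Finset (V × Module.Dual (ZMod 2) V) := Finset.univ.filter (fun z => u / 2 ≤ gg F z) with hS
  set α : ℝ := u ^ 2 / 8 with hα
  have hαpos : 0 < α := by rw [hα]; positivity
  have hsq : ∀ z, gg F z ^ 2 ≤ gg F z := by
    intro z
    have h1 := gg_nonneg F z
    have h2 := gg_le_one F hF z
    nlinarith
  have hSsum : u * N / 2 ≤ ∑ z ∈ S, gg F z ^ 2 := by
    have h1 : ∑ z, gg F z ^ 2 = ∑ z ∈ S, gg F z ^ 2
        + ∑ z ∈ Finset.univ.filter (fun z => ¬ (u / 2 ≤ gg F z)), gg F z ^ 2 :=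
      (Finset.sum_filter_add_sum_filter_not _ _ _).symm
    have h2 : ∑ z ∈ Finset.univ.filter (fun z => ¬ (u / 2 ≤ gg F z)), gg F z ^ 2 ≤ u / 2 * N := by
      calc ∑ z ∈ Finset.univ.filter (fun z => ¬ (u / 2 ≤ gg F z)), gg F z ^ 2
          ≤ ∑ z ∈ Finset.univ.filter (fun z => ¬ (u / 2 ≤ gg F z)), u / 2 * gg F z := by
            refine Finset.sum_le_sum (fun z hz => ?_)
            have h3 := (not_le.1 (Finset.mem_filter.1 hz).2).le
            rw [pow_two]
            exact mul_le_mul_of_nonneg_right h3 (gg_nonneg F z)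
        _ ≤ ∑ z, u / 2 * gg F z := Finset.sum_le_sum_of_subset_of_nonneg (Finset.subset_univ _)
            (fun z _ _ => mul_nonneg (by positivity) (gg_nonneg F z))
        _ = u / 2 * N := by rw [← Finset.mul_sum, sum_gg F hF]
    rw [h1] at hu
    linarith
  have hScard : u * N / 2 ≤ (S.card : ℝ) := by
    refine hSsum.trans ?_
    calc ∑ z ∈ S, gg F z ^ 2 ≤ ∑ z ∈ S, (1 : ℝ) :=
          Finset.sum_le_sum (fun z _ => (hsq z).trans (gg_le_one F hF z))
      _ = S.card := by simp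
  have hSpos : (0 : ℝ) < S.card := lt_of_lt_of_le (by positivity) hScard
  have hSne : S.Nonempty := Finset.card_pos.1 (by exact_mod_cast hSpos)
  have hE : α * (S.card : ℝ) ^ 2
      ≤ (((S ×ˢ S).filter (fun z => α ≤ gg F (z.1 + z.2))).card : ℝ) := by
    have h1 := gg_posdef F hF S
    have h2 : u / 2 * S.card ≤ ∑ z ∈ S, gg F z := by
      calc u / 2 * S.card = ∑ z ∈ S, u / 2 := by rw [Finset.sum_const, nsmul_eq_mul]; ring
        _ ≤ _ := Finset.sum_le_sum (fun z hz => (Finset.mem_filter.1 hz).2)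
    have h3 : (u / 2 * S.card) ^ 2 ≤ (∑ z ∈ S, gg F z) ^ 2 := pow_le_pow_left₀ (by positivity) h2 2
    have h4 : ∑ z ∈ S, ∑ z' ∈ S, gg F (z + z')
        ≤ (((S ×ˢ S).filter (fun z => α ≤ gg F (z.1 + z.2))).card : ℝ) + α * (S.card : ℝ) ^ 2 := by
      rw [← Finset.sum_product' (f := fun z z' => gg F (z + z')), Finset.card_filter]
      push_cast
      have h5 : α * (S.card : ℝ) ^ 2 = ∑ z ∈ S ×ˢ S, α := by
        rw [Finset.sum_const, Finset.card_product, nsmul_eq_mul]; push_cast; ring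
      rw [h5, ← Finset.sum_add_distrib]
      refine Finset.sum_le_sum (fun z _ => ?_)
      split_ifs with h
      · have := gg_le_one F hF (z.1 + z.2)
        linarith
      · have := (not_le.1 h).le
        linarith
    have h6 : (u / 2 * S.card) ^ 2 = 2 * (α * (S.card : ℝ) ^ 2) := by rw [hα]; ring
    linarith
  obtain ⟨A, B, hAS, hBS, hAc, hBc, hpath⟩ := bsg S (fun z z' => α ≤ gg F (z + z')) α hαpos hSne hE
  set S' : Finset (V × Module.Dual (ZMod 2) V) := Finset.univ.filter (fun z => α ≤ gg F z) with hS'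
  have hS'card : α * S'.card ≤ N := by
    rw [hN, ← sum_gg F hF]
    calc α * (S'.card : ℝ) = ∑ z ∈ S', α := by rw [Finset.sum_const, nsmul_eq_mul]; ring
      _ ≤ ∑ z ∈ S', gg F z := Finset.sum_le_sum (fun z hz => (Finset.mem_filter.1 hz).2)
      _ ≤ _ := Finset.sum_le_sum_of_subset_of_nonneg (Finset.subset_univ _)
          (fun z _ _ => gg_nonneg F z)
  set κ : ℝ := α ^ 5 * (S.card : ℝ) ^ 2 / 4096 with hκ
  have hκpos : 0 < κ := by rw [hκ]; positivity
  set D : Finset (V × Module.Dual (ZMod 2) V) := (A ×ˢ B).image (fun z => z.1 + z.2) with hD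
  have hDrep : ∀ d ∈ D, κ ≤ rep S' d := by
    intro d hd
    obtain ⟨z, hz, rfl⟩ := Finset.mem_image.1 hd
    rw [Finset.mem_product] at hz
    refine (hpath z.1 hz.1 z.2 hz.2).trans ?_
    exact path_le_rep S S' _ (fun a b h => Finset.mem_filter.2 ⟨Finset.mem_univ _, h⟩) _ _
  have hrep0 : ∀ d, 0 ≤ rep S' d := fun d => Finset.sum_nonneg (fun w1 _ =>
    Finset.sum_nonneg (fun w2 _ =>
      mul_nonneg (mul_nonneg (ind_nonneg _ _) (ind_nonneg _ _)) (ind_nonneg _ _)))
  have hDcard : (D.card : ℝ) * κ ≤ (N / α) ^ 3 := by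
    calc (D.card : ℝ) * κ = ∑ d ∈ D, κ := by rw [Finset.sum_const, nsmul_eq_mul]
      _ ≤ ∑ d ∈ D, rep S' d := Finset.sum_le_sum hDrep
      _ ≤ ∑ d, rep S' d := Finset.sum_le_sum_of_subset_of_nonneg (Finset.subset_univ _)
          (fun d _ _ => hrep0 d)
      _ = (S'.card : ℝ) ^ 3 := sum_rep S'
      _ ≤ (N / α) ^ 3 := by
          refine pow_le_pow_left₀ (Nat.cast_nonneg _) ?_ 3
          rw [le_div_iff₀ hαpos]; linarith
  -- the doubling constant
  have hlow : u ^ 3 * N / 96 ≤ α * S.card / 6 := by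
    rw [hα]
    have : u ^ 2 / 8 * (u * N / 2) ≤ u ^ 2 / 8 * S.card :=
      mul_le_mul_of_nonneg_left hScard (by positivity)
    calc u ^ 3 * N / 96 = (u ^ 2 / 8 * (u * N / 2)) / 6 := by ring
      _ ≤ _ := by linarith
  set K : ℝ := 2 ^ (21 * lam + 45) with hK
  have hKpos : 0 < K := by rw [hK]; positivity
  have hDle : (D.card : ℝ) ≤ K * (u ^ 3 * N / 96) := by
    have h1 : α ^ 5 * (u * N / 2) ^ 2 / 4096 ≤ κ := by
      rw [hκ]
      have : (u * N / 2) ^ 2 ≤ (S.card : ℝ) ^ 2 := pow_le_pow_left₀ (by positivity) hScard 2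
      have h2 : α ^ 5 * (u * N / 2) ^ 2 ≤ α ^ 5 * (S.card : ℝ) ^ 2 :=
        mul_le_mul_of_nonneg_left this (by positivity)
      linarith
    have h2 : (D.card : ℝ) * (α ^ 5 * (u * N / 2) ^ 2 / 4096) ≤ (N / α) ^ 3 :=
      (mul_le_mul_of_nonneg_left h1 (Nat.cast_nonneg _)).trans hDcard
    have h3 : K = 2 ^ 45 * (u⁻¹) ^ 21 := by
      rw [hK, hu', pow_add, pow_mul, mul_comm, ← inv_pow, ← pow_mul, ← pow_mul, mul_comm 21 lam]
      norm_num
    have h4 : (N / α) ^ 3 ≤ K * (u ^ 3 * N / 96) * (α ^ 5 * (u * N / 2) ^ 2 / 4096) := by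
      rw [h3, hα]
      have h5 : 2 ^ 45 * (u⁻¹) ^ 21 * (u ^ 3 * N / 96) * ((u ^ 2 / 8) ^ 5 * (u * N / 2) ^ 2 / 4096)
          = (2 ^ 45 / (96 * 8 ^ 5 * 4 * 4096)) * (N ^ 3 * (u⁻¹) ^ 6) := by
        field_simp
        norm_num
      have h6 : (N / (u ^ 2 / 8)) ^ 3 = 512 * (N ^ 3 * (u⁻¹) ^ 6) := by
        field_simp
        norm_num
      rw [h5, h6]
      refine mul_le_mul_of_nonneg_right ?_ (by positivity)
      norm_num
    exact le_of_mul_le_mul_right (h2.trans h4) (by positivity)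
  have hDA : (D.card : ℝ) ≤ K * A.card :=
    hDle.trans (mul_le_mul_of_nonneg_left (hlow.trans hAc) hKpos.le)
  have hDB : (D.card : ℝ) ≤ K * B.card :=
    hDle.trans (mul_le_mul_of_nonneg_left (hlow.trans hBc) hKpos.le)
  have hlowpos : 0 < u ^ 3 * N / 96 := by positivity
  have hAne : A.Nonempty := Finset.card_pos.1 (by
    have := lt_of_lt_of_le hlowpos (hlow.trans hAc)
    exact_mod_cast this)
  have hBne : B.Nonempty := Finset.card_pos.1 (by
    have := lt_of_lt_of_le hlowpos (hlow.trans hBc)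
    exact_mod_cast this)
  obtain ⟨H, c, A', hA', hcard⟩ := PFR44.pfr (fun x => v_add_self x) A B D hAne hBne
    (fun a ha b hb => Finset.mem_image.2 ⟨(a, b), Finset.mem_product.2 ⟨ha, hb⟩, rfl⟩) K hKpos hDA hDB
  have hA'S : A' ⊆ S := by
    rcases hA' with h | h
    · rw [h]; exact hAS
    · rw [h]; exact hBS
  have hA'c : u ^ 3 * N / 96 ≤ (A'.card : ℝ) := by
    rcases hA' with h | h
    · rw [h]; exact hlow.trans hAc
    · rw [h]; exact hlow.trans hBc
  have hA'pos : (0 : ℝ) < A'.card := lt_of_lt_of_le hlowpos hA'c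
  set n : ℕ := (A'.filter (fun z => z + c ∈ H)).card with hn
  have hHpos : (0 : ℝ) < Fintype.card H := by
    have : 0 < Fintype.card H := Fintype.card_pos_iff.2 ⟨0⟩
    exact_mod_cast this
  have hn1 : (n : ℝ) ≤ A'.card := by
    exact_mod_cast Finset.card_le_card (Finset.filter_subset _ _)
  have hn2 : (n : ℝ) ≤ Fintype.card H := by
    have h1 : n ≤ Fintype.card H := by
      rw [hn, ← Fintype.card_coe]
      refine Fintype.card_le_of_injective
        (fun z : {z // z ∈ A'.filter (fun z => z + c ∈ H)} =>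
          (⟨(z : V × Module.Dual (ZMod 2) V) + c, (Finset.mem_filter.1 z.2).2⟩ : H)) ?_
      intro z z' hz
      have h2 := congrArg Subtype.val hz
      exact Subtype.ext (add_right_cancel h2)
    exact_mod_cast h1
  have hK11 : 0 < K ^ 11 := by positivity
  have hb1 : (Fintype.card H : ℝ) ≤ K ^ 11 * n := by
    have h1 : (A'.card : ℝ) * Fintype.card H ≤ A'.card * (K ^ 11 * n) := by
      refine hcard.trans ?_
      calc K ^ 11 * (n : ℝ) ^ 2 = n * (K ^ 11 * n) := by ring
        _ ≤ A'.card * (K ^ 11 * n) := mul_le_mul_of_nonneg_right hn1 (by positivity)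
    exact le_of_mul_le_mul_left h1 hA'pos
  have hb2 : (A'.card : ℝ) ≤ K ^ 11 * Fintype.card H := by
    have h1 : (Fintype.card H : ℝ) * A'.card ≤ Fintype.card H * (K ^ 11 * Fintype.card H) := by
      calc (Fintype.card H : ℝ) * A'.card = A'.card * Fintype.card H := mul_comm _ _
        _ ≤ K ^ 11 * (n : ℝ) ^ 2 := hcard
        _ ≤ K ^ 11 * (Fintype.card H : ℝ) ^ 2 :=
            mul_le_mul_of_nonneg_left (pow_le_pow_left₀ (Nat.cast_nonneg _) hn2 2) hK11.le
        _ = _ := by ring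
    exact le_of_mul_le_mul_left h1 hHpos
  let L0 : Submodule (ZMod 2) (V × Module.Dual (ZMod 2) V) := AddSubgroup.toZModSubmodule 2 H
  have hmem : ∀ z, z ∈ L0 ↔ z ∈ H := fun z => Iff.rfl
  have hLc : (Fintype.card L0 : ℝ) = Fintype.card H := by
    have h1 : Fintype.card L0 = Fintype.card H :=
      Fintype.card_congr (Equiv.subtypeEquivRight (fun z => hmem z))
    exact_mod_cast h1
  refine ⟨L0, ?_, ?_⟩
  · rw [hLc]; exact hA'c.trans hb2
  · rw [hLc]
    have h1 : u / 2 * n ≤ ∑ z : L0, gg F z := by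
      refine le_trans ?_ (gg_coset F L0 c)
      calc u / 2 * n = ∑ z ∈ A'.filter (fun z => z + c ∈ H), u / 2 := by
            rw [Finset.sum_const, nsmul_eq_mul, hn]; ring
        _ ≤ ∑ z ∈ A'.filter (fun z => z + c ∈ H), gg F z :=
            Finset.sum_le_sum (fun z hz =>
              (Finset.mem_filter.1 (hA'S (Finset.mem_filter.1 hz).1)).2)
        _ ≤ ∑ z ∈ Finset.univ.image (fun y : L0 => c + (y : V × Module.Dual (ZMod 2) V)), gg F z := by
            refine Finset.sum_le_sum_of_subset_of_nonneg (fun z hz => ?_) (fun z _ _ => gg_nonneg F z)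
            have h2 := (Finset.mem_filter.1 hz).2
            refine Finset.mem_image.2 ⟨⟨z + c, (hmem _).2 h2⟩, Finset.mem_univ _, ?_⟩
            change c + (z + c) = z
            have h3 : c + (z + c) = z + (c + c) := by abel
            rw [h3, v_add_self, add_zero]
        _ = ∑ y : L0, gg F (c + (y : V × Module.Dual (ZMod 2) V)) := by
            rw [Finset.sum_image]
            intro y _ y' _ h
            exact Subtype.ext (add_left_cancel h)
    calc u / 2 * (Fintype.card H : ℝ) ≤ u / 2 * (K ^ 11 * n) :=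
          mul_le_mul_of_nonneg_left hb1 (by positivity)
      _ = K ^ 11 * (u / 2 * n) := by ring
      _ ≤ K ^ 11 * ∑ z : L0, gg F z := mul_le_mul_of_nonneg_left h1 hK11.le

/-- If all quadratic correlations are small then the second moment of the squared correlations is
small: linear dependence. -/
theorem inverse2 (F : V → ℝ) (hF : ∀ x, F x ^ 2 = 1) (ρ : ℝ) (hρ0 : 0 ≤ ρ) (hR : Rb F ρ) (lam : ℕ)
    (hρ : ρ ≤ 2 ^ lam) (hbig : (2 : ℝ) ^ (932 * lam + 1993) ≤ Fintype.card V) :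
    ∑ z, gg F z ^ 2 < (1 / 2 : ℝ) ^ lam * Fintype.card V := by
  by_contra hcon
  push Not at hcon
  obtain ⟨L0, hL1, hL2⟩ := exists_subspace2 F hF lam hcon
  set K : ℝ := 2 ^ (21 * lam + 45) with hK
  have hKpos : 0 < K := by rw [hK]; positivity
  set u : ℝ := (1 / 2 : ℝ) ^ lam with hu
  have hupos : 0 < u := by rw [hu]; positivity
  have h1 := sub_bound F hF ρ hR L0 (u / 2 / K ^ 11) (by positivity) (by
    rw [div_mul_eq_mul_div, div_le_iff₀ (by positivity)]
    linarith)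
  have hLpos : (0 : ℝ) < Fintype.card L0 := by
    have : 0 < Fintype.card L0 := Fintype.card_pos_iff.2 ⟨0⟩
    exact_mod_cast this
  have h2 : u ^ 3 * Fintype.card L0 ≤ 32 * K ^ 33 * ρ ^ 2 := by
    have h3 : (u / 2 / K ^ 11) ^ 3 * (Fintype.card L0 : ℝ)
        = (u ^ 3 * Fintype.card L0) / (8 * K ^ 33) := by
      field_simp
      ring
    rw [h3, div_le_iff₀ (by positivity)] at h1
    linarith
  have h3 : u ^ 6 * (Fintype.card V : ℝ) ≤ 3072 * K ^ 44 * ρ ^ 2 := by
    calc u ^ 6 * (Fintype.card V : ℝ) = 96 * (u ^ 3 * (u ^ 3 * Fintype.card V / 96)) := by ring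
      _ ≤ 96 * (u ^ 3 * (K ^ 11 * Fintype.card L0)) := by gcongr
      _ = 96 * (K ^ 11 * (u ^ 3 * Fintype.card L0)) := by ring
      _ ≤ 96 * (K ^ 11 * (32 * K ^ 33 * ρ ^ 2)) := by gcongr
      _ = 3072 * K ^ 44 * ρ ^ 2 := by ring
  have h4 : ρ ^ 2 ≤ (2 ^ lam) ^ 2 := pow_le_pow_left₀ hρ0 hρ 2
  have hux : u * 2 ^ lam = 1 := by
    rw [hu, ← mul_pow]; norm_num
  have h5 : (Fintype.card V : ℝ) ≤ 3072 * 2 ^ (932 * lam + 1980) := by
    calc (Fintype.card V : ℝ) = (u * 2 ^ lam) ^ 6 * Fintype.card V := by rw [hux]; ring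
      _ = (2 ^ lam) ^ 6 * (u ^ 6 * Fintype.card V) := by ring
      _ ≤ (2 ^ lam) ^ 6 * (3072 * K ^ 44 * (2 ^ lam) ^ 2) := by
          refine mul_le_mul_of_nonneg_left (h3.trans ?_) (by positivity)
          exact mul_le_mul_of_nonneg_left h4 (by positivity)
      _ = 3072 * (K ^ 44 * (2 ^ lam) ^ 8) := by ring
      _ = 3072 * 2 ^ (932 * lam + 1980) := by
          rw [hK, ← pow_mul, ← pow_mul, ← pow_add]
          congr 2
          ring
  have h6 : (2 : ℝ) ^ (932 * lam + 1993) = 8192 * 2 ^ (932 * lam + 1980) := by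
    rw [show 932 * lam + 1993 = (932 * lam + 1980) + 13 by ring, pow_add _ (932 * lam + 1980) 13,
      mul_comm, show (2 : ℝ) ^ 13 = 8192 by norm_num]
  rw [h6] at hbig
  have h7 : (0 : ℝ) < 2 ^ (932 * lam + 1980) := by positivity
  linarith

end RM44
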