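import Pool.Agent.Helper44.RM.MomW
import Pool.Agent.Helper71.RMC.Moeb
import Pool.Agent.Helper71.RMC.Asm

set_option autoImplicit false
set_option linter.unusedSectionVars false

open scoped BigOperators
open Classical

namespace RM44
open RMC

/-- Every sign function on `F_2^m` has a quadratic correlation of size `sqrt (s / e)` with
`s` proportional to `m`. -/
theorem key_w (s : ℕ) (hs : 6 ≤ s) (m : ℕ) (hm : 119296 * s + 1993 ≤ m)
    (V : Type) [AddCommGroup V] [Module (ZMod 2) V] [Fintype V] (hV : Fintype.card V = 2 ^ m)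
    (F : V → ℝ) (hF : ∀ x, F x ^ 2 = 1) (ρ : ℝ) (hR : Rb F ρ) :
    (s : ℝ) / Real.exp 1 ≤ ρ := by
  by_contra hcon
  push Not at hcon
  have hVR : (Fintype.card V : ℝ) = 2 ^ m := by rw [hV]; push_cast; rfl
  have hnrm := nrm_sign m hV F hF
  have hFpos : 0 < nrm F := by rw [hnrm]; positivity
  have hρ := hR.nonneg hFpos
  have hρ2 : ρ ≤ 2 ^ (128 * s) := by
    have h1 : (s : ℝ) / Real.exp 1 ≤ s := by
      refine div_le_self (Nat.cast_nonneg s) ?_
      have := Real.add_one_le_exp (1 : ℝ)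
      linarith
    have h2 : (s : ℝ) ≤ 2 ^ s := by exact_mod_cast (Nat.lt_two_pow_self (n := s)).le
    have h3 : (2 : ℝ) ^ s ≤ 2 ^ (128 * s) := pow_le_pow_right₀ (by norm_num) (by omega)
    linarith
  have hu := inverse2 F hF ρ hρ hR (128 * s) hρ2 (by
    rw [hVR]
    exact pow_le_pow_right₀ (by norm_num) (by omega))
  have hcI : Fintype.card (Fin s ⊕ Fin s) = 2 * s := by
    rw [Fintype.card_sum, Fintype.card_fin]; ring
  obtain ⟨c, hc1, hc2, hc3⟩ := exists_moebius (I := Fin s ⊕ Fin s) s hcI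
  have hsum := sol_sum_eq (I := Fin s ⊕ Fin s) (V := V) c hc1 F
  refine absurd (moment_w s hs m (by omega) V hV F hF ρ hR hu.le (soc (Fin s ⊕ Fin s))
    (fun D => mem_soc) c hc2 hc3 ?_ (fun D => card_CV_so D)
    (fun C hC j => card_sub C s hcI hC j)) (not_le.2 hcon)
  rw [← hsum, Finset.sum_filter]
  exact sum_univ_inst _ _ _

end RM44
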