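import Mathlib

set_option autoImplicit false

open scoped BigOperators
open Classical

namespace RM44

lemma exp_le_quad {y : ℝ} (hy : |y| ≤ 1) : Real.exp y ≤ 1 + y + y ^ 2 := by
  have h := Real.abs_exp_sub_one_sub_id_le hy
  have h1 := (abs_le.1 h).2
  linarith

lemma pow_le_cosh (y : ℝ) (r : ℕ) (hr : 1 ≤ r) :
    y ^ (2 * r) / ((2 * r).factorial : ℝ) ≤ Real.cosh y - 1 := by
  have h := Real.hasSum_cosh y
  have h1 := sum_le_hasSum ({0, r} : Finset ℕ) (fun n _ => by
    have : 0 ≤ y ^ (2 * n) := by rw [pow_mul]; positivity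
    positivity) h
  rw [Finset.sum_pair (by omega)] at h1
  simp only [Nat.mul_zero, pow_zero, Nat.factorial_zero, Nat.cast_one, div_one] at h1
  linarith

lemma exp_convex_le {v c : ℝ} (hv0 : 0 ≤ v) (hv1 : v ≤ 1) :
    Real.exp (c * v) - 1 ≤ v * (Real.exp c - 1) := by
  have h := convexOn_exp.2 (Set.mem_univ (0 : ℝ)) (Set.mem_univ c) (sub_nonneg.2 hv1) hv0
    (by ring)
  simp only [smul_eq_mul, mul_zero, zero_add, Real.exp_zero, mul_one] at h
  rw [mul_comm c v]
  linarith

/-- the even moments of sums of independent bounded variables -/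
theorem moment {α : Type} (A : Finset α) (X : α → ℝ) (v : ℝ) (hv0 : 0 ≤ v) (hv1 : v ≤ 1)
    (hX : ∀ a ∈ A, |X a| ≤ 1) (h0 : ∑ a ∈ A, X a = 0)
    (h2 : ∑ a ∈ A, X a ^ 2 ≤ v * A.card) (l r : ℕ) (hr : 1 ≤ r) (hrl : r ≤ l) :
    ∑ a ∈ Fintype.piFinset (fun _ : Fin l => A), (∑ i, X (a i)) ^ (2 * r)
      ≤ (A.card : ℝ) ^ l * v * (4 * Real.exp 1 * r * l) ^ r := by
  have hrR : (0 : ℝ) < r := by exact_mod_cast hr
  have hlR : (0 : ℝ) < l := by exact_mod_cast (lt_of_lt_of_le hr hrl)
  have hrlR : (r : ℝ) ≤ l := by exact_mod_cast hrl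
  set lam : ℝ := Real.sqrt (r / l) with hlam
  have hlamsq : lam ^ 2 = r / l := Real.sq_sqrt (by positivity)
  have hlampos : 0 < lam := Real.sqrt_pos.2 (by positivity)
  have hlam1 : lam ≤ 1 := by
    rw [hlam, Real.sqrt_le_one]
    rw [div_le_one hlR]; exact hrlR
  have hone : ∀ ε : ℝ, ε ^ 2 = r / l → |ε| ≤ 1 →
      ∑ a ∈ Fintype.piFinset (fun _ : Fin l => A), Real.exp (ε * ∑ i, X (a i))
        ≤ (A.card : ℝ) ^ l * Real.exp (r * v) := by
    intro ε hε hε1
    have h3 : ∑ a ∈ Fintype.piFinset (fun _ : Fin l => A), Real.exp (ε * ∑ i, X (a i))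
        = (∑ a ∈ A, Real.exp (ε * X a)) ^ l := by
      have h4 := Finset.prod_univ_sum (fun _ : Fin l => A) (fun _ a => Real.exp (ε * X a))
      rw [Finset.prod_const, Finset.card_univ, Fintype.card_fin] at h4
      rw [h4]
      refine Finset.sum_congr rfl (fun a _ => ?_)
      rw [← Real.exp_sum, Finset.mul_sum]
    have h5 : ∑ a ∈ A, Real.exp (ε * X a) ≤ A.card * Real.exp (r / l * v) := by
      calc ∑ a ∈ A, Real.exp (ε * X a)
          ≤ ∑ a ∈ A, (1 + ε * X a + (ε * X a) ^ 2) := by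
            refine Finset.sum_le_sum (fun a ha => exp_le_quad ?_)
            rw [abs_mul]
            calc |ε| * |X a| ≤ 1 * 1 := mul_le_mul hε1 (hX a ha) (abs_nonneg _) (by norm_num)
              _ = 1 := by norm_num
        _ = A.card + ε * ∑ a ∈ A, X a + ε ^ 2 * ∑ a ∈ A, X a ^ 2 := by
            rw [Finset.sum_add_distrib, Finset.sum_add_distrib, Finset.mul_sum, Finset.mul_sum,
              Finset.sum_const, nsmul_eq_mul, mul_one]
            congr 1
            exact Finset.sum_congr rfl (fun a _ => by ring)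
        _ ≤ A.card + ε ^ 2 * (v * A.card) := by
            rw [h0, mul_zero, add_zero]
            have := mul_le_mul_of_nonneg_left h2 (sq_nonneg ε)
            linarith
        _ = A.card * (r / l * v + 1) := by rw [hε]; ring
        _ ≤ A.card * Real.exp (r / l * v) := by
            refine mul_le_mul_of_nonneg_left (Real.add_one_le_exp _) (Nat.cast_nonneg _)
    rw [h3]
    calc (∑ a ∈ A, Real.exp (ε * X a)) ^ l ≤ (A.card * Real.exp (r / l * v)) ^ l :=
          pow_le_pow_left₀ (Finset.sum_nonneg (fun a _ => (Real.exp_pos _).le)) h5 l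
      _ = (A.card : ℝ) ^ l * Real.exp (r * v) := by
          rw [mul_pow, ← Real.exp_nat_mul]
          congr 2
          field_simp
  have hcard : ((Fintype.piFinset (fun _ : Fin l => A)).card : ℝ) = (A.card : ℝ) ^ l := by
    rw [Fintype.card_piFinset, Finset.prod_const, Finset.card_univ, Fintype.card_fin]
    push_cast; rfl
  have hcosh : ∑ a ∈ Fintype.piFinset (fun _ : Fin l => A), (Real.cosh (lam * ∑ i, X (a i)) - 1)
      ≤ (A.card : ℝ) ^ l * (v * Real.exp r) := by
    have h3 := hone lam hlamsq (by rw [abs_of_pos hlampos]; exact hlam1)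
    have h4 := hone (-lam) (by rw [neg_sq]; exact hlamsq) (by rw [abs_neg, abs_of_pos hlampos]; exact hlam1)
    rw [Finset.sum_sub_distrib, Finset.sum_const, nsmul_eq_mul, mul_one, hcard]
    have h5 : ∑ a ∈ Fintype.piFinset (fun _ : Fin l => A), Real.cosh (lam * ∑ i, X (a i))
        = (∑ a ∈ Fintype.piFinset (fun _ : Fin l => A), Real.exp (lam * ∑ i, X (a i))
          + ∑ a ∈ Fintype.piFinset (fun _ : Fin l => A), Real.exp (-lam * ∑ i, X (a i))) / 2 := by
      rw [← Finset.sum_add_distrib, Finset.sum_div]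
      refine Finset.sum_congr rfl (fun a _ => ?_)
      rw [Real.cosh_eq, neg_mul]
    rw [h5]
    have h6 := exp_convex_le (c := r) hv0 hv1
    have h7 : v * (Real.exp r - 1) ≤ v * Real.exp r := by nlinarith
    have h8 : (A.card : ℝ) ^ l * (Real.exp (r * v) - 1) ≤ (A.card : ℝ) ^ l * (v * Real.exp r) :=
      mul_le_mul_of_nonneg_left (h6.trans h7) (by positivity)
    linarith
  have hfac : (0 : ℝ) < ((2 * r).factorial : ℝ) := by positivity
  have hpt : ∀ a : Fin l → α, (∑ i, X (a i)) ^ (2 * r)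
      ≤ ((2 * r).factorial : ℝ) / lam ^ (2 * r) * (Real.cosh (lam * ∑ i, X (a i)) - 1) := by
    intro a
    have h3 := pow_le_cosh (lam * ∑ i, X (a i)) r hr
    rw [mul_pow, div_le_iff₀ hfac] at h3
    rw [div_mul_eq_mul_div, le_div_iff₀ (by positivity)]
    linarith
  calc ∑ a ∈ Fintype.piFinset (fun _ : Fin l => A), (∑ i, X (a i)) ^ (2 * r)
      ≤ ∑ a ∈ Fintype.piFinset (fun _ : Fin l => A),
          ((2 * r).factorial : ℝ) / lam ^ (2 * r) * (Real.cosh (lam * ∑ i, X (a i)) - 1) :=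
        Finset.sum_le_sum (fun a _ => hpt a)
    _ = ((2 * r).factorial : ℝ) / lam ^ (2 * r) *
          ∑ a ∈ Fintype.piFinset (fun _ : Fin l => A), (Real.cosh (lam * ∑ i, X (a i)) - 1) := by
        rw [Finset.mul_sum]
    _ ≤ ((2 * r).factorial : ℝ) / lam ^ (2 * r) * ((A.card : ℝ) ^ l * (v * Real.exp r)) :=
        mul_le_mul_of_nonneg_left hcosh (by positivity)
    _ ≤ ((2 * r : ℝ)) ^ (2 * r) / lam ^ (2 * r) * ((A.card : ℝ) ^ l * (v * Real.exp r)) := by
        refine mul_le_mul_of_nonneg_right ?_ (by positivity)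
        refine div_le_div_of_nonneg_right ?_ (by positivity)
        have := Nat.factorial_le_pow (2 * r)
        calc ((2 * r).factorial : ℝ) ≤ (((2 * r) ^ (2 * r) : ℕ) : ℝ) := by exact_mod_cast this
          _ = _ := by push_cast; ring
    _ = (A.card : ℝ) ^ l * v * (4 * Real.exp 1 * r * l) ^ r := by
        have h3 : lam ^ (2 * r) = (r / l : ℝ) ^ r := by rw [pow_mul, hlamsq]
        have h4 : Real.exp r = Real.exp 1 ^ r := by rw [← Real.exp_nat_mul, mul_one]
        rw [h3, h4, pow_mul, ← div_pow]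
        have h5 : ((2 * (r : ℝ)) ^ 2 / (r / l)) = 4 * r * l := by field_simp; ring
        rw [h5, mul_pow (4 * Real.exp 1 * r) (l : ℝ), mul_pow (4 * Real.exp 1) (r : ℝ), mul_pow 4 (Real.exp 1),
          mul_pow (4 * (r : ℝ)) (l : ℝ), mul_pow 4 (r : ℝ)]
        ring

end RM44
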