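import Pool.Agent.Helper44.RM.Card

set_option autoImplicit false
set_option linter.unusedSectionVars false

open scoped BigOperators
open Classical

namespace RM44
open RMC

variable {I : Type} [Fintype I]

/-- pairing codes are near with `t = 0` -/
lemma near_zero {C : Submodule (ZMod 2) (I → ZMod 2)} (hC : SD C)
    (hall : ∀ i, ∃ j, j ≠ i ∧ un i + un j ∈ C) : Near C 0 := by
  have h0 : Free (∅ : Finset I) C := by
    intro c _ h
    funext i
    exact h i (by simp)
  obtain ⟨J, -, hJ, hJc⟩ := exists_free hC.so h0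
  choose y hy hyC using hall
  have hval : ∀ x, (un x + un (y x)) x = (1 : ZMod 2) := by
    intro x
    rw [Pi.add_apply, un_self, un_ne (hy x).symm, add_zero]
  have hval2 : ∀ x, (un x + un (y x)) (y x) = (1 : ZMod 2) := by
    intro x
    rw [Pi.add_apply, un_self, un_ne (hy x), zero_add]
  have hval0 : ∀ x i, i ≠ x → i ≠ y x → (un x + un (y x)) i = (0 : ZMod 2) := by
    intro x i h1 h2
    rw [Pi.add_apply, un_ne h1, un_ne h2, add_zero]
  refine ⟨J, ∅, ∅, y, hJ, hJc, by simp, by simp, by simp, by simp, ?_, ?_, ?_⟩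
  · intro x hx x' hx' hxx
    by_contra hne
    have hx2 : x ∈ J := (Finset.mem_sdiff.1 (Finset.mem_coe.1 hx)).1
    have hx2' : x' ∈ J := (Finset.mem_sdiff.1 (Finset.mem_coe.1 hx')).1
    have hmem : un x + un x' ∈ C := by
      have h1 := C.add_mem (hyC x) (hyC x')
      have h2 : (un x + un (y x)) + (un x' + un (y x')) = un x + un x' := by
        rw [hxx]
        funext i
        simp only [Pi.add_apply]
        have h3 : ∀ p q r : ZMod 2, p + q + (r + q) = p + r := by decide
        exact h3 _ _ _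
      rwa [h2] at h1
    have h4 := hJ _ hmem (fun i hi => by
      have g1 : i ≠ x := by rintro rfl; exact hi hx2
      have g2 : i ≠ x' := by rintro rfl; exact hi hx2'
      rw [Pi.add_apply, un_ne g1, un_ne g2, add_zero])
    have h5 := congrFun h4 x
    rw [Pi.add_apply, un_self, un_ne hne, add_zero] at h5
    exact one_ne_zero h5
  · intro x hx hyJ
    have hx2 : x ∈ J := (Finset.mem_sdiff.1 hx).1
    have h4 := hJ _ (hyC x) (fun i hi => by
      have g1 : i ≠ x := by rintro rfl; exact hi hx2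
      have g2 : i ≠ y x := by intro h; rw [h] at hi; exact hi hyJ
      exact hval0 x i g1 g2)
    have h5 := congrFun h4 x
    rw [hval] at h5
    exact one_ne_zero h5
  · intro x _
    exact ⟨_, hyC x, hval x, hval2 x, fun i _ h1 h2 => hval0 x i h1 h2⟩

theorem exists_near2 {C : Submodule (ZMod 2) (I → ZMod 2)} (hC : SD C) (s : ℕ)
    (hs : Fintype.card I = 2 * s) :
    ∃ t, t ≤ s ∧ Near C t ∧ (t = 0 ∨ ∃ J R Y2 Y4 : Finset I, Ex C J R Y2 Y4 ∧ R.card = t) := by
  rcases exists_near hC s hs with hall | ⟨J, R, Y2, Y4, hex, -, hRs, hnear⟩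
  · exact ⟨0, Nat.zero_le _, near_zero hC hall, Or.inl rfl⟩
  · exact ⟨R.card, hRs, hnear, Or.inr ⟨J, R, Y2, Y4, hex, rfl⟩⟩

theorem card_near' (s : ℕ) (hs : 6 ≤ s) (t : ℕ) :
    (((sdc (Fin s ⊕ Fin s)).filter (fun C => Near C t)).card)
      ≤ s.factorial * 2 ^ (4 * s + 14 * t * s) := by
  have hcard : Fintype.card (Fin s ⊕ Fin s) = 2 * s := by simp; ring
  have i0 : Fin s ⊕ Fin s := Sum.inl ⟨0, by omega⟩
  have h1 : ((sdc (Fin s ⊕ Fin s)).filter (fun C => Near C t))
      ⊆ Finset.univ.image (dec s t i0) := by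
    intro C hC
    obtain ⟨hC1, hC2⟩ := Finset.mem_filter.1 hC
    obtain ⟨d, hd⟩ := dec_surj (mem_sdc.1 hC1) s hcard i0 t hC2
    exact Finset.mem_image.2 ⟨d, Finset.mem_univ _, hd⟩
  refine (Finset.card_le_card h1).trans (Finset.card_image_le.trans ?_)
  have h2 : 2 * s ≤ 2 ^ s := by
    have h3 : ∀ n, 6 ≤ n → 2 * n ≤ 2 ^ n := by
      intro n hn
      induction n, hn using Nat.le_induction with
      | base => norm_num
      | succ n hn ih => rw [pow_succ]; omega
    exact h3 s hs
  rw [Finset.card_univ]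
  simp only [Fintype.card_prod, Fintype.card_finset, Fintype.card_perm, Fintype.card_fin,
    Fintype.card_fun, ZMod.card, hcard]
  calc 2 ^ (2 * s) * (s.factorial * ((2 * s) ^ (3 * t) * ((2 ^ (3 * t)) ^ s
        * (2 ^ (2 * s) * (2 ^ (2 * s)) ^ (4 * t)))))
      ≤ 2 ^ (2 * s) * (s.factorial * ((2 ^ s) ^ (3 * t) * ((2 ^ (3 * t)) ^ s
        * (2 ^ (2 * s) * (2 ^ (2 * s)) ^ (4 * t))))) := by
        gcongr
    _ = s.factorial * 2 ^ (4 * s + 14 * t * s) := by
        rw [← pow_mul, ← pow_mul, ← pow_mul]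
        rw [show 2 ^ (2 * s) * (s.factorial * (2 ^ (s * (3 * t)) * (2 ^ (3 * t * s)
          * (2 ^ (2 * s) * 2 ^ (2 * s * (4 * t))))))
          = s.factorial * (2 ^ (2 * s) * (2 ^ (s * (3 * t)) * (2 ^ (3 * t * s)
          * (2 ^ (2 * s) * 2 ^ (2 * s * (4 * t)))))) by ring]
        rw [← pow_add, ← pow_add, ← pow_add, ← pow_add]
        congr 2
        ring

end RM44
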