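import Pool.Agent.Helper44.RM.TEx2

set_option autoImplicit false
set_option linter.unusedSectionVars false

open scoped BigOperators
open Classical

namespace RM44
open RMC

variable {I : Type} [Fintype I]
variable {V : Type} [AddCommGroup V] [Module (ZMod 2) V] [Fintype V]

/-- multiplying by a character does not change the squared correlations -/
lemma gg_twist (F : V → ℝ) (ξ : Module.Dual (ZMod 2) V) (z : V × Module.Dual (ZMod 2) V) :
    gg (fun x => F x * chi (ξ x)) z = gg F z := by
  have h1 : pau (fun x => F x * chi (ξ x)) z.1 z.2 = chi (ξ z.1) * pau F z.1 z.2 := by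
    unfold pau
    rw [Finset.mul_sum]
    refine Finset.sum_congr rfl (fun x _ => ?_)
    dsimp only
    rw [map_add, chi_add]
    have h2 := chi_sq (ξ x)
    calc F x * chi (ξ x) * (F (x + z.1) * (chi (ξ x) * chi (ξ z.1))) * chi (z.2 x)
        = (chi (ξ x) * chi (ξ x)) * (chi (ξ z.1) * (F x * F (x + z.1) * chi (z.2 x))) := by ring
      _ = chi (ξ z.1) * (F x * F (x + z.1) * chi (z.2 x)) := by rw [h2, one_mul]
  unfold gg
  rw [h1, mul_pow, pow_two (chi (ξ z.1)), chi_sq, one_mul]

lemma sum_sub (D : Submodule (ZMod 2) (I → ZMod 2)) (f : (I → V) → ℝ) :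
    ∑ X : CV V D, f (X : I → V) = ∑ X : I → V, (if X ∈ CV V D then f X else 0) := by
  rw [← Finset.sum_filter]
  exact (Finset.sum_subtype (Finset.univ.filter (fun X : I → V => X ∈ CV V D))
    (fun x => by simp) f).symm

lemma tw_sq {F : V → ℝ} (hF : ∀ x, F x ^ 2 = 1) (ξ : Module.Dual (ZMod 2) V) (x : V) :
    (F x * chi (ξ x)) ^ 2 = 1 := by
  rw [mul_pow, hF, pow_two, chi_sq, one_mul]

/-- membership in `D ⊗ V` through the dual code -/
lemma mem_CV_iff (D : Submodule (ZMod 2) (I → ZMod 2)) (X : I → V) :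
    X ∈ CV V D ↔ ∀ e : I → ZMod 2, (∀ d ∈ D, ip e d = 0) → ∑ i, e i • X i = 0 := by
  constructor
  · intro hX e he
    rw [← Module.forall_dual_apply_eq_zero_iff (ZMod 2)]
    intro l
    rw [map_sum]
    have h1 := he _ (hX l)
    unfold ip at h1
    rw [← h1]
    refine Finset.sum_congr rfl (fun i _ => ?_)
    rw [map_smul, smul_eq_mul]
  · intro h l
    by_contra hcon
    obtain ⟨f, hf, hfD⟩ := Submodule.exists_dual_map_eq_bot_of_notMem hcon inferInstance
    let e : I → ZMod 2 := fun i => f (Pi.single i 1)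
    have he : ∀ c : I → ZMod 2, ip e c = f c := by
      intro c
      have h1 : c = ∑ i, c i • (Pi.single i (1 : ZMod 2) : I → ZMod 2) := by
        funext k
        simp [Finset.sum_apply, Pi.single_apply]
      conv_rhs => rw [h1, map_sum]
      unfold ip
      refine Finset.sum_congr rfl (fun i _ => ?_)
      rw [map_smul, smul_eq_mul, mul_comm]
    have h2 : ∀ d ∈ D, ip e d = 0 := by
      intro d hd
      rw [he]
      have h3 : f d ∈ Submodule.map f D := Submodule.mem_map_of_mem hd
      rw [hfD] at h3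
      exact (Submodule.mem_bot _).1 h3
    have h4 := h e h2
    apply hf
    rw [← he]
    unfold ip
    have h5 := congrArg l h4
    rw [map_sum, map_zero] at h5
    rw [← h5]
    refine Finset.sum_congr rfl (fun i _ => ?_)
    rw [map_smul, smul_eq_mul]

/-- (M4) the contribution of a subcode is at most the contribution of the code, twisted by
characters -/
theorem T_sub_le {C D : Submodule (ZMod 2) (I → ZMod 2)} (hDC : D ≤ C) (F : V → ℝ) (B : ℝ)
    (hB : ∀ Ξ : I → Module.Dual (ZMod 2) V, |TF C (fun i x => F x * chi (Ξ i x))| ≤ B) :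
    |T D F| ≤ B := by
  have hN := cardV_pos (V := V)
  let E := {e : I → ZMod 2 // ∀ d ∈ D, ip e d = 0}
  have hB0 : 0 ≤ B := (abs_nonneg _).trans (hB 0)
  -- the indicator
  have hind : ∀ X : I → V, (if X ∈ CV V D then (1 : ℝ) else 0)
      = ∏ e : E, ((Fintype.card V : ℝ)⁻¹ * ∑ ξ : Module.Dual (ZMod 2) V,
          chi (ξ (∑ i, (e : I → ZMod 2) i • X i))) := by
    intro X
    have h1 : ∀ e : E, (Fintype.card V : ℝ)⁻¹ * ∑ ξ : Module.Dual (ZMod 2) V,
          chi (ξ (∑ i, (e : I → ZMod 2) i • X i))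
        = if ∑ i, (e : I → ZMod 2) i • X i = 0 then 1 else 0 := by
      intro e
      rw [sum_dual]
      split_ifs
      · exact inv_mul_cancel₀ hN.ne'
      · rw [mul_zero]
    simp only [h1]
    rw [Finset.prod_ite_zero]
    by_cases hX : X ∈ CV V D
    · rw [if_pos hX, if_pos]
      · simp
      · intro e _
        exact (mem_CV_iff D X).1 hX e e.2
    · rw [if_neg hX, if_neg]
      intro h
      exact hX ((mem_CV_iff D X).2 (fun e he => h ⟨e, he⟩ (Finset.mem_univ _)))
  have hprod : ∀ X : I → V, (if X ∈ CV V D then (1 : ℝ) else 0)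
      = ((Fintype.card V : ℝ)⁻¹) ^ (Fintype.card E) * ∑ Φ : E → Module.Dual (ZMod 2) V,
          ∏ i, chi ((∑ e : E, (e : I → ZMod 2) i • Φ e) (X i)) := by
    intro X
    rw [hind X, Finset.prod_mul_distrib, Finset.prod_const, Finset.card_univ,
      Finset.prod_univ_sum, Fintype.piFinset_univ]
    congr 1
    refine Finset.sum_congr rfl (fun Φ _ => ?_)
    rw [← chi_sum, ← chi_sum]
    congr 1
    have h1 : ∀ e : E, Φ e (∑ i, (e : I → ZMod 2) i • X i)
        = ∑ i, (e : I → ZMod 2) i * Φ e (X i) := by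
      intro e
      rw [map_sum]
      refine Finset.sum_congr rfl (fun i _ => ?_)
      rw [map_smul, smul_eq_mul]
    have h2 : ∀ i, (∑ e : E, (e : I → ZMod 2) i • Φ e) (X i)
        = ∑ e : E, (e : I → ZMod 2) i * Φ e (X i) := by
      intro i
      rw [LinearMap.sum_apply]
      refine Finset.sum_congr rfl (fun e _ => ?_)
      rw [LinearMap.smul_apply, smul_eq_mul]
    simp only [h1, h2]
    exact Finset.sum_comm
  -- the sum over `D ⊗ V` inside `C ⊗ V`
  have hT : T D F = ∑ X : CV V C, (∏ i, F ((X : I → V) i))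
      * (if (X : I → V) ∈ CV V D then (1 : ℝ) else 0) := by
    have h1 : T D F = ∑ X : I → V, (if X ∈ CV V D then ∏ i, F (X i) else 0) :=
      sum_sub D (fun X => ∏ i, F (X i))
    have h2 : ∑ X : CV V C, (∏ i, F ((X : I → V) i))
        * (if (X : I → V) ∈ CV V D then (1 : ℝ) else 0)
        = ∑ X : I → V, (if X ∈ CV V C then (∏ i, F (X i))
          * (if X ∈ CV V D then (1 : ℝ) else 0) else 0) :=
      sum_sub C (fun X => (∏ i, F (X i)) * (if X ∈ CV V D then (1 : ℝ) else 0))
    rw [h1, h2]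
    refine Finset.sum_congr rfl (fun X _ => ?_)
    by_cases hX : X ∈ CV V D
    · have hX' : X ∈ CV V C := fun l => hDC (hX l)
      rw [if_pos hX, if_pos hX', if_pos hX, mul_one]
    · rw [if_neg hX, if_neg hX, mul_zero]
      split_ifs <;> rfl
  have hT2 : T D F = ((Fintype.card V : ℝ)⁻¹) ^ (Fintype.card E)
      * ∑ Φ : E → Module.Dual (ZMod 2) V,
        TF C (fun i x => F x * chi ((∑ e : E, (e : I → ZMod 2) i • Φ e) x)) := by
    rw [hT]
    simp only [hprod]
    unfold TF
    rw [Finset.sum_comm, Finset.mul_sum]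
    refine Finset.sum_congr rfl (fun X _ => ?_)
    rw [mul_left_comm, Finset.mul_sum]
    congr 1
    refine Finset.sum_congr rfl (fun Φ _ => ?_)
    rw [Finset.prod_mul_distrib]
  rw [hT2, abs_mul, abs_of_nonneg (by positivity)]
  have h3 : |∑ Φ : E → Module.Dual (ZMod 2) V,
        TF C (fun i x => F x * chi ((∑ e : E, (e : I → ZMod 2) i • Φ e) x))|
      ≤ (Fintype.card V : ℝ) ^ (Fintype.card E) * B := by
    refine (Finset.abs_sum_le_sum_abs _ _).trans ?_
    refine (Finset.sum_le_sum (fun Φ _ => hB _)).trans (le_of_eq ?_)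
    rw [Finset.sum_const, Finset.card_univ, nsmul_eq_mul, Fintype.card_fun, card_dual]
    push_cast
    rfl
  calc ((Fintype.card V : ℝ)⁻¹) ^ (Fintype.card E) * _
      ≤ ((Fintype.card V : ℝ)⁻¹) ^ (Fintype.card E) * ((Fintype.card V : ℝ) ^ (Fintype.card E) * B) :=
        mul_le_mul_of_nonneg_left h3 (by positivity)
    _ = B := by
        rw [← mul_assoc, ← mul_pow, inv_mul_cancel₀ hN.ne', one_pow, one_mul]

end RM44
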