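import Pool.Agent.Helper44.RM.Mv
import Pool.Agent.Helper44.RM.Near2
import Pool.Agent.Helper44.RM.Twist
import Pool.Agent.Helper44.RM.Inv2

set_option autoImplicit false
set_option linter.unusedSectionVars false

open scoped BigOperators
open Classical

namespace RM44
open RMC

section
variable {I : Type} [Fintype I]
variable {V : Type} [AddCommGroup V] [Module (ZMod 2) V] [Fintype V]

lemma abs_prod_sign (F : I → V → ℝ) (hF : ∀ i x, F i x ^ 2 = 1) (X : I → V) :
    |∏ i, F i (X i)| = 1 := by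
  rw [Finset.abs_prod]
  refine Finset.prod_eq_one (fun i _ => ?_)
  have h := hF i (X i)
  have h2 : |F i (X i)| ^ 2 = 1 := by rw [sq_abs]; exact h
  nlinarith [abs_nonneg (F i (X i)), sq_nonneg (|F i (X i)| - 1)]

lemma TF_trivial (C : Submodule (ZMod 2) (I → ZMod 2)) (F : I → V → ℝ)
    (hF : ∀ i x, F i x ^ 2 = 1) : |TF C F| ≤ (Fintype.card (CV V C) : ℝ) := by
  unfold TF
  refine (Finset.abs_sum_le_sum_abs _ _).trans (le_of_eq ?_)
  simp only [abs_prod_sign F hF, Finset.sum_const, Finset.card_univ, nsmul_eq_mul, mul_one]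

/-- the twisted contributions of one code -/
theorem code_bound {C : Submodule (ZMod 2) (I → ZMod 2)} (hC : SD C) (s : ℕ)
    (hs : Fintype.card I = 2 * s) (F : V → ℝ) (hF : ∀ x, F x ^ 2 = 1) (k : ℕ)
    (hu : ∑ z : V × Module.Dual (ZMod 2) V, gg F z ^ 2 ≤ (1 / 2 : ℝ) ^ (4 * k) * Fintype.card V) :
    ∃ t, t ≤ s ∧ Near C t ∧ ∀ Ξ : I → Module.Dual (ZMod 2) V,
      |TF C (fun i x => F x * chi (Ξ i x))| ≤ (Fintype.card V : ℝ) ^ s * (1 / 2) ^ (k * t) := by
  obtain ⟨t, hts, hnear, h⟩ := exists_near2 hC s hs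
  refine ⟨t, hts, hnear, fun Ξ => ?_⟩
  have hN := cardV_pos (V := V)
  have hsign : ∀ i x, ((fun i x => F x * chi (Ξ i x)) i x : ℝ) ^ 2 = 1 := fun i x => tw_sq hF _ x
  rcases h with h | ⟨J, R, Y2, Y4, hex, hR⟩
  · rw [h, mul_zero, pow_zero, mul_one]
    refine (TF_trivial C _ hsign).trans (le_of_eq ?_)
    rw [card_CV hC s hs]
    push_cast; rfl
  · have h1 := TF_ex hC s hs (fun i x => F x * chi (Ξ i x)) hsign ((1 / 2 : ℝ) ^ (4 * k)) (by positivity)
      (fun i => by
        simp only [gg_twist]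
        exact hu) J R Y2 Y4 hex
    rw [hR] at h1
    have h2 : TF C (fun i x => F x * chi (Ξ i x)) ^ 4
        ≤ ((Fintype.card V : ℝ) ^ s * (1 / 2) ^ (k * t)) ^ 4 := by
      refine h1.trans (le_of_eq ?_)
      rw [mul_pow, ← pow_mul (1 / 2 : ℝ) (4 * k), ← pow_mul (1 / 2 : ℝ) (k * t),
        show 4 * k * t = k * t * 4 by ring]
    refine (pow_le_pow_iff_left₀ (abs_nonneg _) (by positivity) (four_ne_zero)).1 ?_
    rw [show |TF C (fun i x => F x * chi (Ξ i x))| ^ 4 = TF C (fun i x => F x * chi (Ξ i x)) ^ 4 from by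
      rw [show (4 : ℕ) = 2 * 2 from rfl, pow_mul, sq_abs, ← pow_mul]]
    exact h2

/-- the contribution of a subcode -/
theorem sub_bound_T {C D : Submodule (ZMod 2) (I → ZMod 2)} (hDC : D ≤ C) (s : ℕ) (F : V → ℝ)
    (hF : ∀ x, F x ^ 2 = 1) (hcard : Fintype.card (CV V D) = Fintype.card V ^ Module.finrank (ZMod 2) D)
    (j : ℕ) (hj : Module.finrank (ZMod 2) D + j = s) (m' : ℕ) (hm : (2 : ℝ) ^ (2 * m') ≤ Fintype.card V)
    (k t : ℕ) (hB : ∀ Ξ : I → Module.Dual (ZMod 2) V,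
      |TF C (fun i x => F x * chi (Ξ i x))| ≤ (Fintype.card V : ℝ) ^ s * (1 / 2) ^ (2 * k * t)) :
    |T D F| ≤ (Fintype.card V : ℝ) ^ s * (1 / 2) ^ (m' * j) * (1 / 2) ^ (k * t) := by
  have hN := cardV_pos (V := V)
  have h1 := T_sub_le hDC F _ hB
  have h2 : |T D F| ≤ (Fintype.card V : ℝ) ^ s * (1 / 2) ^ (2 * m' * j) := by
    have h3 : |T D F| ≤ (Fintype.card V : ℝ) ^ (Module.finrank (ZMod 2) D) := by
      have h4 := TF_trivial D (fun _ => F) (fun _ => hF)
      rw [hcard] at h4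
      push_cast at h4
      exact h4
    refine h3.trans ?_
    rw [← hj, pow_add, mul_assoc]
    nth_rewrite 1 [← mul_one ((Fintype.card V : ℝ) ^ (Module.finrank (ZMod 2) D))]
    refine mul_le_mul_of_nonneg_left ?_ (by positivity)
    rw [pow_mul (1 / 2 : ℝ), ← mul_pow]
    refine one_le_pow₀ ?_
    have h5 : (2 : ℝ) ^ (2 * m') * (1 / 2) ^ (2 * m') = 1 := by
      rw [← mul_pow]; norm_num
    calc (1 : ℝ) = (2 : ℝ) ^ (2 * m') * (1 / 2) ^ (2 * m') := h5.symm
      _ ≤ (Fintype.card V : ℝ) * (1 / 2) ^ (2 * m') :=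
          mul_le_mul_of_nonneg_right hm (by positivity)
  refine abs_le_of_sq_le_sq ?_ (by positivity) |> fun h => h
  have h6 : T D F ^ 2 = |T D F| * |T D F| := by rw [← sq_abs]; ring
  rw [h6]
  calc |T D F| * |T D F|
      ≤ ((Fintype.card V : ℝ) ^ s * (1 / 2) ^ (2 * m' * j))
        * ((Fintype.card V : ℝ) ^ s * (1 / 2) ^ (2 * k * t)) :=
        mul_le_mul h2 h1 (abs_nonneg _) (by positivity)
    _ = ((Fintype.card V : ℝ) ^ s * (1 / 2) ^ (m' * j) * (1 / 2) ^ (k * t)) ^ 2 := by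
        rw [mul_pow, mul_pow, ← pow_mul (1 / 2 : ℝ) (m' * j), ← pow_mul (1 / 2 : ℝ) (k * t),
          show m' * j * 2 = 2 * m' * j by ring, show k * t * 2 = 2 * k * t by ring]
        ring

end

lemma geom2 (n : ℕ) : ∑ t ∈ Finset.range n, (1 / 2 : ℝ) ^ t ≤ 2 := by
  have h : ∀ n : ℕ, ∑ t ∈ Finset.range n, (1 / 2 : ℝ) ^ t = 2 - 2 * (1 / 2) ^ n := by
    intro n
    induction n with
    | zero => simp
    | succ n ih => rw [Finset.sum_range_succ, ih, pow_succ]; ring
  rw [h n]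
  have : (0 : ℝ) ≤ (1 / 2) ^ n := by positivity
  linarith

lemma half_two (a b : ℕ) (h : a ≤ b) : (2 : ℝ) ^ a * (1 / 2) ^ b = (1 / 2) ^ (b - a) := by
  obtain ⟨c, rfl⟩ := Nat.exists_eq_add_of_le h
  rw [pow_add, ← mul_assoc, ← mul_pow, Nat.add_sub_cancel_left]
  norm_num

/-- The moment argument for `s` up to a constant times `m`. -/
theorem moment_w (s : ℕ) (hs : 6 ≤ s) (m : ℕ) (hm : 20 * s + 8 ≤ m)
    (V : Type) [AddCommGroup V] [Module (ZMod 2) V] [Fintype V] (hV : Fintype.card V = 2 ^ m)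
    (F : V → ℝ) (hF : ∀ x, F x ^ 2 = 1) (ρ : ℝ) (hR : Rb F ρ)
    (hu : ∑ z : V × Module.Dual (ZMod 2) V, gg F z ^ 2
      ≤ (1 / 2 : ℝ) ^ (128 * s) * Fintype.card V)
    (S : Finset (Submodule (ZMod 2) (Fin s ⊕ Fin s → ZMod 2))) (hS : ∀ D, D ∈ S ↔ SO D)
    (c : Submodule (ZMod 2) (Fin s ⊕ Fin s → ZMod 2) → ℝ) (hc1 : ∀ D, SD D → c D = 1)
    (hc2 : ∀ D, SO D → |c D| ≤ 2 ^ (3 * (s - Module.finrank (ZMod 2) D) * s))
    (hsum : (∑ X : Fin s ⊕ Fin s → V, if Sol X then ∏ i, F (X i) else 0)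
      = ∑ D ∈ S, c D * T D F)
    (hcard : ∀ D : Submodule (ZMod 2) (Fin s ⊕ Fin s → ZMod 2),
      Fintype.card (CV V D) = Fintype.card V ^ Module.finrank (ZMod 2) D)
    (hsub : ∀ C : Submodule (ZMod 2) (Fin s ⊕ Fin s → ZMod 2), SD C → ∀ j,
      (S.filter (fun D => D ≤ C ∧ Module.finrank (ZMod 2) D + j = s)).card ≤ 2 ^ (2 * s * j)) :
    (s : ℝ) / Real.exp 1 ≤ ρ := by
  have hnrm := nrm_sign m hV F hF
  have hVR : (Fintype.card V : ℝ) = 2 ^ m := by rw [hV]; push_cast; rfl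
  have hFpos : 0 < nrm F := by rw [hnrm]; positivity
  have hρ := hR.nonneg hFpos
  have hcI : Fintype.card (Fin s ⊕ Fin s) = 2 * s := by
    rw [Fintype.card_sum, Fintype.card_fin]; ring
  have hIe : Even (Fintype.card (Fin s ⊕ Fin s)) := by rw [hcI]; exact even_two_mul s
  have h1 := sol_sum_le (I := Fin s ⊕ Fin s) F ρ hρ hR s (by omega) hcI
  have hNn : nrm F = (Fintype.card V : ℝ) := by rw [hnrm, hVR]
  have hN := cardV_pos (V := V)
  set N : ℝ := (Fintype.card V : ℝ) with hNdef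
  -- the permutation codes
  let P : Finset (Submodule (ZMod 2) (Fin s ⊕ Fin s → ZMod 2)) := Finset.univ.image (pc (s := s))
  have hPsub : P ⊆ sdc (Fin s ⊕ Fin s) := by
    intro C hC
    obtain ⟨σ, -, rfl⟩ := Finset.mem_image.1 hC
    exact mem_sdc.2 (pc_SD σ)
  have hPcard : P.card = s.factorial := by
    rw [Finset.card_image_of_injective _ pc_inj, Finset.card_univ, Fintype.card_perm,
      Fintype.card_fin]
  have hPsum : ∑ C ∈ P, T C F = (s.factorial : ℝ) * N ^ s := by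
    have : ∀ C ∈ P, T C F = nrm F ^ s := by
      intro C hC
      obtain ⟨σ, -, rfl⟩ := Finset.mem_image.1 hC
      exact T_pc σ F
    rw [Finset.sum_congr rfl this, Finset.sum_const, hPcard, nsmul_eq_mul, hNn]
  have hu' : ∑ z : V × Module.Dual (ZMod 2) V, gg F z ^ 2
      ≤ (1 / 2 : ℝ) ^ (4 * (32 * s)) * Fintype.card V := by
    rw [show 4 * (32 * s) = 128 * s by ring]; exact hu
  have hcn : ∀ t, (((sdc (Fin s ⊕ Fin s)).filter (fun C => Near C t)).card : ℝ)
      ≤ (s.factorial : ℝ) * 2 ^ (4 * s + 14 * t * s) := by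
    intro t
    exact_mod_cast card_near' s hs t
  -- codimension zero
  have hrest : -((s.factorial : ℝ) * N ^ s * (1 / 7))
      ≤ ∑ C ∈ sdc (Fin s ⊕ Fin s) \ P, T C F := by
    let b : ℕ → ℝ := fun t => N ^ s * (1 / 2) ^ (32 * s * t)
    have hb0 : ∀ t, 0 ≤ b t := fun t => by
      change 0 ≤ N ^ s * (1 / 2) ^ (32 * s * t)
      positivity
    have h3 : ∑ C ∈ sdc (Fin s ⊕ Fin s) \ P, -(∑ t ∈ Finset.Icc 1 s, if Near C t then b t else 0)
        ≤ ∑ C ∈ sdc (Fin s ⊕ Fin s) \ P, T C F :=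
      Finset.sum_le_sum (fun C hC => T_ge_near (mem_sdc.1 (Finset.mem_sdiff.1 hC).1) s hcI F hF
        (32 * s) hu')
    refine le_trans ?_ h3
    rw [Finset.sum_neg_distrib]
    apply neg_le_neg
    calc ∑ C ∈ sdc (Fin s ⊕ Fin s) \ P, ∑ t ∈ Finset.Icc 1 s, (if Near C t then b t else 0)
        ≤ ∑ C ∈ sdc (Fin s ⊕ Fin s), ∑ t ∈ Finset.Icc 1 s, (if Near C t then b t else 0) := by
          refine Finset.sum_le_sum_of_subset_of_nonneg Finset.sdiff_subset (fun C _ _ => ?_)
          refine Finset.sum_nonneg (fun t _ => ?_)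
          split_ifs
          · exact hb0 t
          · exact le_refl _
      _ = ∑ t ∈ Finset.Icc 1 s, ((((sdc (Fin s ⊕ Fin s)).filter (fun C => Near C t)).card : ℝ)
            * b t) := by
          rw [Finset.sum_comm]
          refine Finset.sum_congr rfl (fun t _ => ?_)
          rw [← Finset.sum_filter, Finset.sum_const, nsmul_eq_mul]
      _ ≤ ∑ t ∈ Finset.Icc 1 s, ((s.factorial : ℝ) * N ^ s * (1 / 8) ^ t) := by
          refine Finset.sum_le_sum (fun t ht => ?_)
          have ht1 := (Finset.mem_Icc.1 ht).1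
          refine (mul_le_mul_of_nonneg_right (hcn t) (hb0 t)).trans ?_
          change (s.factorial : ℝ) * 2 ^ (4 * s + 14 * t * s) * (N ^ s * (1 / 2) ^ (32 * s * t)) ≤ _
          have h6 : (2 : ℝ) ^ (4 * s + 14 * t * s) * (1 / 2) ^ (32 * s * t) ≤ (1 / 8) ^ t := by
            have h7 : 4 * s + 14 * t * s + 3 * t ≤ 32 * s * t := by nlinarith
            rw [half_two _ _ (by omega)]
            have h8 : (1 / 8 : ℝ) ^ t = (1 / 2) ^ (3 * t) := by rw [pow_mul]; norm_num
            rw [h8]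
            exact pow_le_pow_of_le_one (by norm_num) (by norm_num) (by omega)
          calc (s.factorial : ℝ) * 2 ^ (4 * s + 14 * t * s) * (N ^ s * (1 / 2) ^ (32 * s * t))
              = (s.factorial : ℝ) * N ^ s
                * (2 ^ (4 * s + 14 * t * s) * (1 / 2) ^ (32 * s * t)) := by ring
            _ ≤ _ := mul_le_mul_of_nonneg_left h6 (by positivity)
      _ = (s.factorial : ℝ) * N ^ s * ∑ t ∈ Finset.Icc 1 s, (1 / 8 : ℝ) ^ t := by
          rw [Finset.mul_sum]
      _ ≤ (s.factorial : ℝ) * N ^ s * (1 / 7) :=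
          mul_le_mul_of_nonneg_left (geom8 s) (by positivity)
  -- positive codimension
  let W : Submodule (ZMod 2) (Fin s ⊕ Fin s → ZMod 2) → ℝ := fun C =>
    ∑ t ∈ Finset.range (s + 1), if Near C t then (1 / 2 : ℝ) ^ (16 * s * t) else 0
  have hW0 : ∀ C : Submodule (ZMod 2) (Fin s ⊕ Fin s → ZMod 2), ∀ t ∈ Finset.range (s + 1),
      (0 : ℝ) ≤ if Near C t then (1 / 2 : ℝ) ^ (16 * s * t) else 0 := by
    intro C t _
    split_ifs <;> positivity
  have hWn : ∀ C, 0 ≤ W C := fun C => Finset.sum_nonneg (hW0 C)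
  have hWsum : ∑ C ∈ sdc (Fin s ⊕ Fin s), W C ≤ (s.factorial : ℝ) * (2 ^ (4 * s) * 2) := by
    change ∑ C ∈ sdc (Fin s ⊕ Fin s), ∑ t ∈ Finset.range (s + 1),
      (if Near C t then (1 / 2 : ℝ) ^ (16 * s * t) else 0) ≤ _
    rw [Finset.sum_comm]
    calc ∑ t ∈ Finset.range (s + 1), ∑ C ∈ sdc (Fin s ⊕ Fin s),
          (if Near C t then (1 / 2 : ℝ) ^ (16 * s * t) else 0)
        = ∑ t ∈ Finset.range (s + 1), ((((sdc (Fin s ⊕ Fin s)).filter (fun C => Near C t)).card : ℝ)
            * (1 / 2 : ℝ) ^ (16 * s * t)) := by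
          refine Finset.sum_congr rfl (fun t _ => ?_)
          rw [← Finset.sum_filter, Finset.sum_const, nsmul_eq_mul]
      _ ≤ ∑ t ∈ Finset.range (s + 1), ((s.factorial : ℝ) * 2 ^ (4 * s)) * (1 / 2) ^ t := by
          refine Finset.sum_le_sum (fun t _ => ?_)
          refine (mul_le_mul_of_nonneg_right (hcn t) (by positivity)).trans ?_
          rw [pow_add]
          have h6 : (2 : ℝ) ^ (14 * t * s) * (1 / 2) ^ (16 * s * t) ≤ (1 / 2) ^ t := by
            have h7 : 14 * t * s + t ≤ 16 * s * t := by nlinarith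
            rw [half_two _ _ (by omega)]
            exact pow_le_pow_of_le_one (by norm_num) (by norm_num) (by omega)
          calc (s.factorial : ℝ) * (2 ^ (4 * s) * 2 ^ (14 * t * s)) * (1 / 2) ^ (16 * s * t)
              = ((s.factorial : ℝ) * 2 ^ (4 * s)) * (2 ^ (14 * t * s) * (1 / 2) ^ (16 * s * t)) := by
                ring
            _ ≤ _ := mul_le_mul_of_nonneg_left h6 (by positivity)
      _ = ((s.factorial : ℝ) * 2 ^ (4 * s)) * ∑ t ∈ Finset.range (s + 1), (1 / 2 : ℝ) ^ t := by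
          rw [Finset.mul_sum]
      _ ≤ ((s.factorial : ℝ) * 2 ^ (4 * s)) * 2 :=
          mul_le_mul_of_nonneg_left (geom2 _) (by positivity)
      _ = _ := by ring
  let g : Submodule (ZMod 2) (Fin s ⊕ Fin s → ZMod 2) → ℕ → ℝ := fun C j =>
    2 ^ (3 * j * s) * (N ^ s * (1 / 2) ^ ((10 * s + 4) * j) * W C)
  have hg0 : ∀ C j, 0 ≤ g C j := fun C j => by
    have := hWn C
    change 0 ≤ 2 ^ (3 * j * s) * (N ^ s * (1 / 2) ^ ((10 * s + 4) * j) * W C)
    positivity
  have hterm : ∀ D ∈ S.filter (fun D => ¬ SD D), |c D * T D F|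
      ≤ ∑ C ∈ sdc (Fin s ⊕ Fin s), ∑ j ∈ Finset.Icc 1 s,
        (if D ≤ C ∧ Module.finrank (ZMod 2) D + j = s then g C j else 0) := by
    intro D hD
    obtain ⟨hDS, hDn⟩ := Finset.mem_filter.1 hD
    have hDso := (hS D).1 hDS
    obtain ⟨C, hDC, hC⟩ := exists_SD hIe hDso
    -- the dimension
    have hCfr : Module.finrank (ZMod 2) C = s := by
      have h2 := hcard C
      rw [card_CV (V := V) hC s hcI] at h2
      have h3 : 1 < Fintype.card V := by
        rw [hV]
        exact Nat.one_lt_two_pow (by omega)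
      exact (Nat.pow_right_injective h3 h2).symm
    have hlt : Module.finrank (ZMod 2) D < s := by
      refine lt_of_lt_of_eq (Submodule.finrank_lt_finrank_of_lt (lt_of_le_of_ne hDC ?_)) hCfr
      rintro rfl
      exact hDn hC
    obtain ⟨j, hj⟩ := Nat.exists_eq_add_of_lt hlt
    have hj' : Module.finrank (ZMod 2) D + (j + 1) = s := by omega
    obtain ⟨t, hts, hnear, hB⟩ := code_bound hC s hcI F hF (32 * s) hu'
    have hTD := sub_bound_T hDC s F hF (hcard D) (j + 1) hj' (10 * s + 4) (by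
        rw [← hNdef, hVR]
        exact pow_le_pow_right₀ (by norm_num) (by omega)) (16 * s) t (by
        intro Ξ
        rw [show 2 * (16 * s) * t = 32 * s * t by ring]
        exact hB Ξ)
    have hWt : (1 / 2 : ℝ) ^ (16 * s * t) ≤ W C := by
      have h4 := Finset.single_le_sum (hW0 C) (Finset.mem_range.2 (by omega : t < s + 1))
      rw [if_pos hnear] at h4
      exact h4
    have hle : |c D * T D F| ≤ g C (j + 1) := by
      rw [abs_mul]
      have h5 := hc2 D hDso
      rw [show s - Module.finrank (ZMod 2) D = j + 1 by omega] at h5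
      refine mul_le_mul h5 (hTD.trans ?_) (abs_nonneg _) (by positivity)
      exact mul_le_mul_of_nonneg_left hWt (by positivity)
    refine hle.trans ?_
    have h7 : ∀ C ∈ sdc (Fin s ⊕ Fin s), 0 ≤ ∑ j ∈ Finset.Icc 1 s,
        (if D ≤ C ∧ Module.finrank (ZMod 2) D + j = s then g C j else 0) := by
      intro C _
      refine Finset.sum_nonneg (fun j _ => ?_)
      split_ifs
      · exact hg0 C j
      · exact le_refl _
    refine le_trans ?_ (Finset.single_le_sum h7 (mem_sdc.2 hC))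
    have h8 := Finset.single_le_sum
      (f := fun j => if D ≤ C ∧ Module.finrank (ZMod 2) D + j = s then g C j else 0)
      (s := Finset.Icc 1 s) (fun j _ => by
        split_ifs
        · exact hg0 C j
        · exact le_refl _) (Finset.mem_Icc.2 ⟨by omega, by omega⟩ : j + 1 ∈ Finset.Icc 1 s)
    rw [if_pos ⟨hDC, hj'⟩] at h8
    exact h8
  have hneg : |∑ D ∈ S.filter (fun D => ¬ SD D), c D * T D F|
      ≤ (s.factorial : ℝ) * N ^ s * (1 / 7) := by
    calc |∑ D ∈ S.filter (fun D => ¬ SD D), c D * T D F|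
        ≤ ∑ D ∈ S.filter (fun D => ¬ SD D), |c D * T D F| := Finset.abs_sum_le_sum_abs _ _
      _ ≤ ∑ D ∈ S.filter (fun D => ¬ SD D), ∑ C ∈ sdc (Fin s ⊕ Fin s), ∑ j ∈ Finset.Icc 1 s,
          (if D ≤ C ∧ Module.finrank (ZMod 2) D + j = s then g C j else 0) :=
          Finset.sum_le_sum hterm
      _ ≤ ∑ D ∈ S, ∑ C ∈ sdc (Fin s ⊕ Fin s), ∑ j ∈ Finset.Icc 1 s,
          (if D ≤ C ∧ Module.finrank (ZMod 2) D + j = s then g C j else 0) := by
          refine Finset.sum_le_sum_of_subset_of_nonneg (Finset.filter_subset _ _) (fun D _ _ => ?_)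
          refine Finset.sum_nonneg (fun C _ => Finset.sum_nonneg (fun j _ => ?_))
          split_ifs
          · exact hg0 C j
          · exact le_refl _
      _ = ∑ C ∈ sdc (Fin s ⊕ Fin s), ∑ j ∈ Finset.Icc 1 s,
          (((S.filter (fun D => D ≤ C ∧ Module.finrank (ZMod 2) D + j = s)).card : ℝ) * g C j) := by
          rw [Finset.sum_comm]
          refine Finset.sum_congr rfl (fun C _ => ?_)
          rw [Finset.sum_comm]
          refine Finset.sum_congr rfl (fun j _ => ?_)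
          rw [← Finset.sum_filter, Finset.sum_const, nsmul_eq_mul]
      _ ≤ ∑ C ∈ sdc (Fin s ⊕ Fin s), ∑ j ∈ Finset.Icc 1 s,
          (W C * (N ^ s * ((1 / 2) ^ (4 * s + 1) * (1 / 8) ^ j))) := by
          refine Finset.sum_le_sum (fun C hC => Finset.sum_le_sum (fun j hj => ?_))
          have hj1 := (Finset.mem_Icc.1 hj).1
          have h9 : ((S.filter (fun D => D ≤ C ∧ Module.finrank (ZMod 2) D + j = s)).card : ℝ)
              ≤ 2 ^ (2 * s * j) := by exact_mod_cast hsub C (mem_sdc.1 hC) j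
          refine (mul_le_mul_of_nonneg_right h9 (hg0 C j)).trans ?_
          change 2 ^ (2 * s * j) * (2 ^ (3 * j * s) * (N ^ s * (1 / 2) ^ ((10 * s + 4) * j) * W C)) ≤ _
          have h10 : (2 : ℝ) ^ (2 * s * j + 3 * j * s) * (1 / 2) ^ ((10 * s + 4) * j)
              ≤ (1 / 2) ^ (4 * s + 1) * (1 / 8) ^ j := by
            have h11 : 2 * s * j + 3 * j * s + ((4 * s + 1) + 3 * j) ≤ (10 * s + 4) * j := by
              nlinarith
            have h12 : (1 / 8 : ℝ) ^ j = (1 / 2) ^ (3 * j) := by rw [pow_mul]; norm_num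
            rw [half_two _ _ (by omega), h12, ← pow_add]
            exact pow_le_pow_of_le_one (by norm_num) (by norm_num) (by omega)
          calc 2 ^ (2 * s * j) * (2 ^ (3 * j * s) * (N ^ s * (1 / 2) ^ ((10 * s + 4) * j) * W C))
              = W C * (N ^ s * (2 ^ (2 * s * j + 3 * j * s) * (1 / 2) ^ ((10 * s + 4) * j))) := by
                rw [pow_add]; ring
            _ ≤ _ := by
                refine mul_le_mul_of_nonneg_left ?_ (hWn C)
                exact mul_le_mul_of_nonneg_left h10 (by positivity)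
      _ = (∑ C ∈ sdc (Fin s ⊕ Fin s), W C)
            * (N ^ s * ((1 / 2) ^ (4 * s + 1) * ∑ j ∈ Finset.Icc 1 s, (1 / 8 : ℝ) ^ j)) := by
          rw [Finset.sum_mul]
          refine Finset.sum_congr rfl (fun C _ => ?_)
          rw [← Finset.mul_sum, ← Finset.mul_sum, ← Finset.mul_sum]
      _ ≤ ((s.factorial : ℝ) * (2 ^ (4 * s) * 2)) * (N ^ s * ((1 / 2) ^ (4 * s + 1) * (1 / 7))) := by
          have h13 : 0 ≤ ∑ j ∈ Finset.Icc 1 s, (1 / 8 : ℝ) ^ j :=
            Finset.sum_nonneg (fun j _ => by positivity)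
          refine mul_le_mul hWsum ?_ (by positivity) (by positivity)
          refine mul_le_mul_of_nonneg_left ?_ (by positivity)
          exact mul_le_mul_of_nonneg_left (geom8 s) (by positivity)
      _ = (s.factorial : ℝ) * N ^ s * (1 / 7) := by
          have h14 : (2 : ℝ) ^ (4 * s) * 2 * (1 / 2) ^ (4 * s + 1) = 1 := by
            rw [← pow_succ, ← mul_pow]; norm_num
          calc ((s.factorial : ℝ) * (2 ^ (4 * s) * 2)) * (N ^ s * ((1 / 2) ^ (4 * s + 1) * (1 / 7)))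
              = (s.factorial : ℝ) * N ^ s * (1 / 7)
                * (2 ^ (4 * s) * 2 * (1 / 2) ^ (4 * s + 1)) := by ring
            _ = _ := by rw [h14, mul_one]
  -- putting things together
  have hsplit1 : ∑ D ∈ S, c D * T D F
      = ∑ D ∈ S.filter (fun D => SD D), c D * T D F
        + ∑ D ∈ S.filter (fun D => ¬ SD D), c D * T D F :=
    (Finset.sum_filter_add_sum_filter_not S (fun D => SD D) _).symm
  have hSsd : S.filter (fun D => SD D) = sdc (Fin s ⊕ Fin s) := by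
    ext D
    rw [Finset.mem_filter, mem_sdc, hS]
    exact ⟨fun h => h.2, fun h => ⟨h.so, h⟩⟩
  have hsd : ∑ D ∈ S.filter (fun D => SD D), c D * T D F = ∑ C ∈ sdc (Fin s ⊕ Fin s), T C F := by
    rw [← hSsd]
    refine Finset.sum_congr rfl (fun D hD => ?_)
    rw [hc1 D (Finset.mem_filter.1 hD).2, one_mul]
  have hsplit2 := Finset.sum_sdiff (f := fun C => T C F) hPsub
  have hnegl := (abs_le.1 hneg).1
  have h1' : (∑ X : Fin s ⊕ Fin s → V, if Sol X then ∏ i, F (X i) else 0)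
      ≤ ρ ^ (s - 1) * nrm F ^ s := (le_of_eq (sum_univ_inst _ _ _)).trans h1
  rw [hsum, hsplit1, hsd, ← hsplit2, hPsum, hNn] at h1'
  have hGs : 0 < N ^ s := by positivity
  have h7 : ((s.factorial : ℝ) * (5 / 7)) * N ^ s ≤ ρ ^ (s - 1) * N ^ s := by
    linarith
  have h8 := le_of_mul_le_mul_right h7 hGs
  have h9 : (1 : ℝ) ≤ s.factorial := by exact_mod_cast Nat.succ_le_of_lt (Nat.factorial_pos s)
  have h10 : (s.factorial : ℝ) / 2 ≤ ρ ^ (s - 1) := by linarith
  have h11 := (fact_bound s hs).trans h10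
  by_contra hlt
  push Not at hlt
  exact absurd h11 (not_le.2 (pow_lt_pow_left₀ hlt hρ (by omega)))

end RM44
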