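import Pool.Agent.Helper44.RM.Exch

set_option autoImplicit false
set_option linter.unusedSectionVars false

open scoped BigOperators
open Classical

namespace RM44
open RMC

/-- weighted Cauchy-Schwarz -/
lemma wcs {ι : Type} (s : Finset ι) (w f g : ι → ℝ) (hw : ∀ i, 0 ≤ w i) :
    (∑ i ∈ s, w i * (f i * g i)) ^ 2 ≤ (∑ i ∈ s, w i * f i ^ 2) * ∑ i ∈ s, w i * g i ^ 2 := by
  have h := Finset.sum_mul_sq_le_sq_mul_sq s (fun i => Real.sqrt (w i) * f i)
    (fun i => Real.sqrt (w i) * g i)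
  have h1 : ∀ i, Real.sqrt (w i) * f i * (Real.sqrt (w i) * g i) = w i * (f i * g i) := by
    intro i
    calc Real.sqrt (w i) * f i * (Real.sqrt (w i) * g i)
        = (Real.sqrt (w i) * Real.sqrt (w i)) * (f i * g i) := by ring
      _ = w i * (f i * g i) := by rw [Real.mul_self_sqrt (hw i)]
  have h2 : ∀ (f : ι → ℝ) i, (Real.sqrt (w i) * f i) ^ 2 = w i * f i ^ 2 := by
    intro f i
    rw [mul_pow, Real.sq_sqrt (hw i)]
  simp only [h1, h2] at h
  exact h

/-- indicator of zero -/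
noncomputable def del {W : Type} [AddCommGroup W] (z : W) : ℝ := if z = 0 then 1 else 0

lemma del_nonneg {W : Type} [AddCommGroup W] (z : W) : 0 ≤ del z := by
  unfold del; split_ifs <;> norm_num

lemma sum_del_one {W : Type} [AddCommGroup W] [Fintype W] : ∑ z : W, del z = 1 := by
  unfold del
  rw [Finset.sum_ite_eq' Finset.univ (0 : W)]
  simp

variable {I : Type} [Fintype I]

section general
variable {W : Type} [AddCommGroup W] [Module (ZMod 2) W] [Fintype W]

lemma sum_delR {C : Submodule (ZMod 2) (I → ZMod 2)} (hC : SD C) {B R : Finset I}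
    (hB : Free B C) (hBc : Free Bᶜ C) (hRB : R ⊆ B) (g : I → W → ℝ) :
    ∑ X : CV W C, (∏ i ∈ R, del ((X : I → W) i)) * ∏ i ∈ B \ R, g i ((X : I → W) i)
      = ∏ i ∈ B \ R, ∑ z, g i z := by
  have h := sum_free (V := W) hC hB hBc (fun i => if i ∈ R then del else g i)
  have h1 : ∀ X : CV W C, ∏ i ∈ B, (if i ∈ R then del else g i) ((X : I → W) i)
      = (∏ i ∈ R, del ((X : I → W) i)) * ∏ i ∈ B \ R, g i ((X : I → W) i) := by
    intro X
    rw [← Finset.prod_sdiff hRB, mul_comm]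
    congr 1
    · exact Finset.prod_congr rfl (fun i hi => by rw [if_pos hi])
    · exact Finset.prod_congr rfl (fun i hi => by rw [if_neg (Finset.mem_sdiff.1 hi).2])
  simp only [h1] at h
  rw [h, ← Finset.prod_sdiff hRB]
  have h2 : ∏ i ∈ R, ∑ z, (if i ∈ R then del else g i) z = 1 := by
    refine Finset.prod_eq_one (fun i hi => ?_)
    simp only [if_pos hi]
    exact sum_del_one
  rw [h2, mul_one]
  refine Finset.prod_congr rfl (fun i hi => ?_)
  simp only [if_neg (Finset.mem_sdiff.1 hi).2]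

end general

section prod
variable {V W : Type} [AddCommGroup V] [Module (ZMod 2) V] [Fintype V]
  [AddCommGroup W] [Module (ZMod 2) W] [Fintype W]

/-- `C ⊗ (V × W)` is the product of `C ⊗ V` and `C ⊗ W` -/
noncomputable def cvProd (C : Submodule (ZMod 2) (I → ZMod 2)) : CV (V × W) C ≃ CV V C × CV W C where
  toFun X := (⟨fun i => ((X : I → V × W) i).1, fun l => by
      have := X.2 (l.comp (LinearMap.fst (ZMod 2) V W))
      exact this⟩, ⟨fun i => ((X : I → V × W) i).2, fun l => by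
      have := X.2 (l.comp (LinearMap.snd (ZMod 2) V W))
      exact this⟩)
  invFun p := ⟨fun i => ((p.1 : I → V) i, (p.2 : I → W) i), fun l => by
      have h1 := p.1.2 (l.comp (LinearMap.inl (ZMod 2) V W))
      have h2 := p.2.2 (l.comp (LinearMap.inr (ZMod 2) V W))
      have h3 := C.add_mem h1 h2
      have h4 : (fun i => l ((p.1 : I → V) i, (p.2 : I → W) i))
          = (fun i => (l.comp (LinearMap.inl (ZMod 2) V W)) ((p.1 : I → V) i))
            + fun i => (l.comp (LinearMap.inr (ZMod 2) V W)) ((p.2 : I → W) i) := by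
        funext i
        rw [Pi.add_apply]
        simp only [LinearMap.comp_apply, LinearMap.inl_apply, LinearMap.inr_apply]
        rw [← map_add]
        simp
      rw [h4]; exact h3⟩
  left_inv X := rfl
  right_inv p := rfl

end prod

section dual
variable {V : Type} [AddCommGroup V] [Module (ZMod 2) V] [Fintype V]

/-- orthogonality of `C ⊗ V` and `C ⊗ V*` -/
lemma orth_mem {C : Submodule (ZMod 2) (I → ZMod 2)} (hC : SD C) (Ξ : I → Module.Dual (ZMod 2) V) :
    Ξ ∈ CV (Module.Dual (ZMod 2) V) C ↔ ∀ X ∈ CV V C, ∑ i, Ξ i (X i) = 0 := by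
  have hfin : Module.Finite (ZMod 2) V := Module.Finite.of_finite
  constructor
  · intro hΞ X hX
    have h0 : Free (∅ : Finset I) C := by
      intro c _ h
      funext i
      exact h i (by simp)
    obtain ⟨J, -, hJ, hJc⟩ := exists_free hC.so h0
    choose c hc hc1 hc0 using fun j : J => free_surj hC hJ j j.2
    have hX' : X = ∑ j : J, (fun i => c j i • X j) := by
      have hmem : (∑ j : J, (fun i => c j i • X j)) ∈ CV V C :=
        (CV V C).sum_mem (fun j _ => CV_tensor (hc j) (X j))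
      have h1 := (CV_bij (V := V) hC hJ hJc).1 (a₁ := ⟨X, hX⟩) (a₂ := ⟨_, hmem⟩) (by
        funext k
        simp only [Finset.sum_apply]
        rw [Finset.sum_eq_single k]
        · rw [hc1 k, one_smul]
        · intro j _ hjk
          rw [hc0 j k k.2 (fun h => hjk (Subtype.ext h.symm)), zero_smul]
        · intro h; exact absurd (Finset.mem_univ _) h)
      exact congrArg Subtype.val h1
    have h2 : ∀ i, Ξ i (X i) = ∑ j : J, c j i * Ξ i (X j) := by
      intro i
      have h3 := congrFun hX' i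
      rw [h3, Finset.sum_apply, map_sum]
      refine Finset.sum_congr rfl (fun j _ => ?_)
      rw [map_smul, smul_eq_mul]
    simp only [h2]
    rw [Finset.sum_comm]
    refine Finset.sum_eq_zero (fun j _ => ?_)
    have h4 := hΞ (Module.Dual.eval (ZMod 2) V (X j))
    exact hC.so _ (hc j) _ h4
  · intro h l
    obtain ⟨v, rfl⟩ := (Module.evalEquiv (ZMod 2) V).surjective l
    rw [hC]
    intro d hd
    have h1 := h _ (CV_tensor hd v)
    rw [ip_comm]
    unfold ip
    rw [← h1]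
    refine Finset.sum_congr rfl (fun i _ => ?_)
    rw [map_smul, smul_eq_mul]
    rfl

lemma orth_sum {C : Submodule (ZMod 2) (I → ZMod 2)} (hC : SD C) (s : ℕ)
    (hs : Fintype.card I = 2 * s) (Ξ : I → Module.Dual (ZMod 2) V) :
    ∑ X : CV V C, chi (∑ i, Ξ i ((X : I → V) i))
      = if Ξ ∈ CV (Module.Dual (ZMod 2) V) C then (Fintype.card V : ℝ) ^ s else 0 := by
  let φ : CV V C →+ ZMod 2 :=
    { toFun := fun X => ∑ i, Ξ i ((X : I → V) i)
      map_zero' := by simp
      map_add' := fun X Y => by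
        rw [← Finset.sum_add_distrib]
        refine Finset.sum_congr rfl (fun i _ => ?_)
        exact map_add (Ξ i) _ _ }
  split_ifs with h
  · have h1 := sum_chi_zero φ (fun X => (orth_mem hC Ξ).1 h X X.2)
    have h2 : ∑ X : CV V C, chi (∑ i, Ξ i ((X : I → V) i)) = (Fintype.card (CV V C) : ℝ) := h1
    rw [h2, card_CV hC s hs]
    push_cast; rfl
  · refine sum_chi_eq_zero φ ?_
    by_contra hcon
    push Not at hcon
    exact h ((orth_mem hC Ξ).2 (fun X hX => hcon ⟨X, hX⟩))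

end dual

/-- van der Corput step over a subgroup which fixes `a` -/
lemma vdc {G : Type} [AddCommGroup G] [Fintype G] (U : AddSubgroup G) (a b : G → ℝ)
    (ha : ∀ c, a c ^ 2 = 1) (haU : ∀ c, ∀ h ∈ U, a (c + h) = a c) :
    (∑ h : G, if h ∈ U then (1 : ℝ) else 0) * (∑ c, a c * b c) ^ 2
      ≤ (Fintype.card G : ℝ) * ∑ h : G, (if h ∈ U then (1 : ℝ) else 0) * ∑ c, b c * b (c + h) := by
  set w : G → ℝ := fun h => if h ∈ U then (1 : ℝ) else 0 with hw
  set K : ℝ := ∑ h, w h with hK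
  set Tt : ℝ := ∑ c, a c * b c with hTt
  let H : G → ℝ := fun c => ∑ h, w h * b (c + h)
  let β : G → ℝ := fun k => ∑ c, b c * b (c + k)
  have hwU : ∀ h, h ∈ U → w h = 1 := fun h hh => if_pos hh
  have hwN : ∀ h, h ∉ U → w h = 0 := fun h hh => if_neg hh
  have h1 : ∀ h, w h * Tt = ∑ c, a c * (w h * b (c + h)) := by
    intro h
    by_cases hh : h ∈ U
    · rw [hwU h hh, one_mul, hTt]
      rw [← Fintype.sum_equiv (Equiv.addRight h) (fun c => a (c + h) * b (c + h))
        (fun c => a c * b c) (fun c => rfl)]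
      refine Finset.sum_congr rfl (fun c _ => ?_)
      rw [haU c h hh, one_mul]
    · rw [hwN h hh]; simp
  have h2 : K * Tt = ∑ c, a c * H c := by
    rw [hK, Finset.sum_mul]
    simp only [h1]
    rw [Finset.sum_comm]
    refine Finset.sum_congr rfl (fun c _ => ?_)
    rw [← Finset.mul_sum]
  have h3 : (K * Tt) ^ 2 ≤ (Fintype.card G : ℝ) * ∑ c, H c ^ 2 := by
    rw [h2]
    refine (Finset.sum_mul_sq_le_sq_mul_sq _ _ _).trans (le_of_eq ?_)
    simp only [ha, Finset.sum_const, Finset.card_univ, nsmul_eq_mul, mul_one]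
  have h4 : ∑ c, H c ^ 2 = ∑ h, w h * ∑ h', w h' * β (h' - h) := by
    have h5 : ∀ c, H c ^ 2 = ∑ h, w h * ∑ h', w h' * (b (c + h) * b (c + h')) := by
      intro c
      rw [pow_two]
      change (∑ h, w h * b (c + h)) * (∑ h', w h' * b (c + h')) = _
      rw [Finset.sum_mul]
      refine Finset.sum_congr rfl (fun h _ => ?_)
      rw [mul_assoc, Finset.mul_sum, Finset.mul_sum, Finset.mul_sum]
      refine Finset.sum_congr rfl (fun h' _ => ?_)
      ring
    simp only [h5]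
    rw [Finset.sum_comm]
    refine Finset.sum_congr rfl (fun h _ => ?_)
    rw [← Finset.mul_sum, Finset.sum_comm]
    congr 1
    refine Finset.sum_congr rfl (fun h' _ => ?_)
    rw [← Finset.mul_sum]
    congr 1
    refine Fintype.sum_equiv (Equiv.addRight h) _ _ (fun c => ?_)
    change b (c + h) * b (c + h') = b (c + h) * b (c + h + (h' - h))
    rw [show c + h + (h' - h) = c + h' by abel]
  have h6 : ∀ h, w h * ∑ h', w h' * β (h' - h) = w h * ∑ k, w k * β k := by
    intro h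
    by_cases hh : h ∈ U
    · congr 1
      refine (Fintype.sum_equiv (Equiv.addRight h) _ _ (fun k => ?_)).symm
      change w k * β k = w (k + h) * β (k + h - h)
      rw [add_sub_cancel_right]
      congr 1
      by_cases hk : k ∈ U
      · rw [hwU k hk, hwU _ (U.add_mem hk hh)]
      · rw [hwN k hk, hwN]
        intro hcon
        apply hk
        have := U.sub_mem hcon hh
        rwa [add_sub_cancel_right] at this
    · rw [hwN h hh, zero_mul, zero_mul]
  have h7 : ∑ c, H c ^ 2 = K * ∑ k, w k * β k := by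
    rw [h4]
    simp only [h6]
    rw [← Finset.sum_mul]
  have hKpos : 0 < K := by
    have h8 : w 0 ≤ K := Finset.single_le_sum (f := w) (fun i _ => by
      by_cases hi : i ∈ U
      · rw [hwU i hi]; norm_num
      · rw [hwN i hi]) (Finset.mem_univ 0)
    rw [hwU 0 U.zero_mem] at h8
    linarith
  rw [h7] at h3
  have h9 : K * (K * Tt ^ 2) ≤ K * ((Fintype.card G : ℝ) * ∑ k, w k * β k) := by
    calc K * (K * Tt ^ 2) = (K * Tt) ^ 2 := by ring
      _ ≤ (Fintype.card G : ℝ) * (K * ∑ k, w k * β k) := h3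
      _ = K * ((Fintype.card G : ℝ) * ∑ k, w k * β k) := by ring
  exact le_of_mul_le_mul_left h9 hKpos

lemma prod_del {W : Type} [AddCommGroup W] (R : Finset I) (X : I → W) :
    ∏ i ∈ R, del (X i) = if ∀ i ∈ R, X i = 0 then (1 : ℝ) else 0 := by
  unfold del
  rw [Finset.prod_ite_zero]
  simp

lemma del_mk {V W : Type} [AddCommGroup V] [AddCommGroup W] (x : V) (y : W) :
    del ((x, y) : V × W) = del x * del y := by
  unfold del
  by_cases hx : x = 0
  · by_cases hy : y = 0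
    · simp [hx, hy]
    · simp [hx, hy, Prod.ext_iff]
  · simp [hx, Prod.ext_iff]

section pois
variable {V : Type} [AddCommGroup V] [Module (ZMod 2) V] [Fintype V]

/-- Poisson summation over `C ⊗ V` -/
lemma poisson {C : Submodule (ZMod 2) (I → ZMod 2)} (hC : SD C) (s : ℕ)
    (hs : Fintype.card I = 2 * s) (D : I → V → ℝ) (φ : I → Module.Dual (ZMod 2) V → ℝ)
    (h : ∀ i y, D i y = ∑ ξ, φ i ξ * chi (ξ y)) :
    ∑ c : CV V C, ∏ i, D i ((c : I → V) i)
      = (Fintype.card V : ℝ) ^ s * ∑ Ξ : CV (Module.Dual (ZMod 2) V) C,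
          ∏ i, φ i ((Ξ : I → Module.Dual (ZMod 2) V) i) := by
  have h1 : ∀ c : CV V C, ∏ i, D i ((c : I → V) i)
      = ∑ Ξ : I → Module.Dual (ZMod 2) V, (∏ i, φ i (Ξ i)) * chi (∑ i, Ξ i ((c : I → V) i)) := by
    intro c
    simp only [h]
    rw [Finset.prod_univ_sum, Fintype.piFinset_univ]
    refine Finset.sum_congr rfl (fun Ξ _ => ?_)
    rw [chi_sum, ← Finset.prod_mul_distrib]
  simp only [h1]
  rw [Finset.sum_comm]
  simp only [← Finset.mul_sum, orth_sum hC s hs]
  have h2 : ∀ Ξ : I → Module.Dual (ZMod 2) V,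
      (∏ i, φ i (Ξ i)) * (if Ξ ∈ CV (Module.Dual (ZMod 2) V) C then (Fintype.card V : ℝ) ^ s else 0)
      = if Ξ ∈ CV (Module.Dual (ZMod 2) V) C then
          (Fintype.card V : ℝ) ^ s * (∏ i, φ i (Ξ i)) else 0 := by
    intro Ξ
    split_ifs
    · ring
    · ring
  simp only [h2]
  rw [← Finset.sum_filter, Finset.mul_sum]
  exact Finset.sum_subtype _ (by simp) _

end pois

section main
variable {V : Type} [AddCommGroup V] [Module (ZMod 2) V] [Fintype V]

/-- normalised autocorrelation -/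
noncomputable def pn (F : V → ℝ) (z : V × Module.Dual (ZMod 2) V) : ℝ :=
  pau F z.1 z.2 / (Fintype.card V : ℝ)

lemma pn_sq (F : V → ℝ) (z : V × Module.Dual (ZMod 2) V) : |pn F z| ^ 2 = gg F z := by
  rw [sq_abs]
  unfold pn gg
  rw [div_pow]

lemma auto_inv (F : V → ℝ) (k y : V) :
    F y * F (y + k) = ∑ ξ : Module.Dual (ZMod 2) V, pn F (k, ξ) * chi (ξ y) := by
  have h := four_inv (fun x => F x * F (x + k)) y
  have hN := cardV_pos (V := V)
  have h1 : ∑ ξ : Module.Dual (ZMod 2) V, pn F (k, ξ) * chi (ξ y)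
      = (∑ ξ : Module.Dual (ZMod 2) V, (∑ x, F x * F (x + k) * chi (ξ x)) * chi (ξ y))
        / (Fintype.card V : ℝ) := by
    rw [Finset.sum_div]
    refine Finset.sum_congr rfl (fun ξ _ => ?_)
    unfold pn pau
    ring
  rw [h1, h]
  field_simp

lemma del_inv (y : V) :
    (1 : ℝ) = ∑ ξ : Module.Dual (ZMod 2) V, del ξ * chi (ξ y) := by
  unfold del
  rw [Finset.sum_eq_single (0 : Module.Dual (ZMod 2) V)]
  · simp [chi_zero]
  · intro ξ _ hξ
    rw [if_neg hξ, zero_mul]
  · intro h; exact absurd (Finset.mem_univ _) h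

/-- first half: `N^(s-t) T² ≤ N^(2s) E` -/
lemma T_sq_E {C : Submodule (ZMod 2) (I → ZMod 2)} (hC : SD C) (s : ℕ)
    (hs : Fintype.card I = 2 * s) (F : V → ℝ) (hF : ∀ x, F x ^ 2 = 1) {J R : Finset I}
    (hJ : Free J C) (hJc : Free Jᶜ C) (hRJ : R ⊆ J) :
    (Fintype.card V : ℝ) ^ (J \ R).card * T C F ^ 2
      ≤ (Fintype.card V : ℝ) ^ (2 * s) * ∑ X : CV (V × Module.Dual (ZMod 2) V) C,
          (∏ i ∈ R, del ((X : I → V × Module.Dual (ZMod 2) V) i))
            * ∏ i ∈ Rᶜ, |pn F ((X : I → V × Module.Dual (ZMod 2) V) i)| := by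
  have hN := cardV_pos (V := V)
  let U : AddSubgroup (CV V C) :=
    { carrier := {h | ∀ i ∈ R, (h : I → V) i = 0}
      zero_mem' := by intro i _; rfl
      add_mem' := by
        intro x y hx hy i hi
        change (x : I → V) i + (y : I → V) i = 0
        rw [hx i hi, hy i hi, add_zero]
      neg_mem' := by
        intro x hx i hi
        change - (x : I → V) i = 0
        rw [hx i hi, neg_zero] }
  let a : CV V C → ℝ := fun c => ∏ i ∈ R, F ((c : I → V) i)
  let b : CV V C → ℝ := fun c => ∏ i ∈ Rᶜ, F ((c : I → V) i)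
  have hw : ∀ h : CV V C, (if h ∈ U then (1 : ℝ) else 0) = ∏ i ∈ R, del ((h : I → V) i) := by
    intro h
    rw [prod_del]
    have h0 : h ∈ U ↔ ∀ i ∈ R, (h : I → V) i = 0 := Iff.rfl
    by_cases hh : h ∈ U
    · rw [if_pos hh, if_pos (h0.1 hh)]
    · rw [if_neg hh, if_neg (fun h1 => hh (h0.2 h1))]
  have hv := vdc U a b (fun c => by
      change (∏ i ∈ R, F ((c : I → V) i)) ^ 2 = 1
      rw [← Finset.prod_pow]
      exact Finset.prod_eq_one (fun i _ => hF _))
    (fun c h hh => by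
      refine Finset.prod_congr rfl (fun i hi => ?_)
      have h1 : ((c + h : CV V C) : I → V) i = (c : I → V) i + (h : I → V) i := rfl
      rw [h1, hh i hi, add_zero])
  simp only [hw] at hv
  have hK : ∑ h : CV V C, ∏ i ∈ R, del ((h : I → V) i) = (Fintype.card V : ℝ) ^ (J \ R).card := by
    have h1 := sum_delR (W := V) hC hJ hJc hRJ (fun _ _ => 1)
    simpa using h1
  have hT : ∑ c, a c * b c = T C F := by
    unfold T
    refine Finset.sum_congr rfl (fun c _ => ?_)
    exact Finset.prod_mul_prod_compl R (fun i => F ((c : I → V) i))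
  rw [hK, hT, card_CV hC s hs] at hv
  have hin : ∀ h : CV V C, ∑ c : CV V C, b c * b (c + h)
      = (Fintype.card V : ℝ) ^ s * ∑ Ξ : CV (Module.Dual (ZMod 2) V) C,
        (∏ i ∈ R, del ((Ξ : I → Module.Dual (ZMod 2) V) i))
          * ∏ i ∈ Rᶜ, pn F ((h : I → V) i, (Ξ : I → Module.Dual (ZMod 2) V) i) := by
    intro h
    have h1 := poisson hC s hs
      (fun i y => if i ∈ R then 1 else F y * F (y + (h : I → V) i))
      (fun i ξ => if i ∈ R then del ξ else pn F ((h : I → V) i, ξ))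
      (fun i y => by
        by_cases hi : i ∈ R
        · simp only [if_pos hi]
          exact del_inv y
        · simp only [if_neg hi]
          exact auto_inv F _ y)
    have h2 : ∀ c : CV V C, b c * b (c + h)
        = ∏ i, (if i ∈ R then (1 : ℝ) else F ((c : I → V) i) * F ((c : I → V) i + (h : I → V) i)) := by
      intro c
      rw [← Finset.prod_mul_prod_compl R]
      have h3 : ∏ i ∈ R, (if i ∈ R then (1 : ℝ)
          else F ((c : I → V) i) * F ((c : I → V) i + (h : I → V) i)) = 1 :=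
        Finset.prod_eq_one (fun i hi => if_pos hi)
      rw [h3, one_mul]
      change (∏ i ∈ Rᶜ, F ((c : I → V) i)) * (∏ i ∈ Rᶜ, F (((c + h : CV V C) : I → V) i)) = _
      rw [← Finset.prod_mul_distrib]
      refine Finset.prod_congr rfl (fun i hi => ?_)
      rw [if_neg (Finset.mem_compl.1 hi)]
      rfl
    simp only [h2]
    rw [h1]
    congr 1
    refine Finset.sum_congr rfl (fun Ξ _ => ?_)
    rw [← Finset.prod_mul_prod_compl R]
    congr 1
    · exact Finset.prod_congr rfl (fun i hi => if_pos hi)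
    · exact Finset.prod_congr rfl (fun i hi => if_neg (Finset.mem_compl.1 hi))
  simp only [hin] at hv
  refine hv.trans ?_
  have hR2 : ∑ h : CV V C, (∏ i ∈ R, del ((h : I → V) i)) *
      ((Fintype.card V : ℝ) ^ s * ∑ Ξ : CV (Module.Dual (ZMod 2) V) C,
        (∏ i ∈ R, del ((Ξ : I → Module.Dual (ZMod 2) V) i))
          * ∏ i ∈ Rᶜ, pn F ((h : I → V) i, (Ξ : I → Module.Dual (ZMod 2) V) i))
      = (Fintype.card V : ℝ) ^ s * ∑ X : CV (V × Module.Dual (ZMod 2) V) C,
          (∏ i ∈ R, del ((X : I → V × Module.Dual (ZMod 2) V) i))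
            * ∏ i ∈ Rᶜ, pn F ((X : I → V × Module.Dual (ZMod 2) V) i) := by
    rw [← (cvProd C).symm.sum_comp, Fintype.sum_prod_type, Finset.mul_sum]
    refine Finset.sum_congr rfl (fun h _ => ?_)
    rw [Finset.mul_sum, Finset.mul_sum, Finset.mul_sum]
    refine Finset.sum_congr rfl (fun Ξ _ => ?_)
    have h5 : ∏ i ∈ R, del ((((cvProd C).symm (h, Ξ) : CV (V × Module.Dual (ZMod 2) V) C) :
        I → V × Module.Dual (ZMod 2) V) i)
        = (∏ i ∈ R, del ((h : I → V) i)) * ∏ i ∈ R, del ((Ξ : I → Module.Dual (ZMod 2) V) i) := by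
      rw [← Finset.prod_mul_distrib]
      refine Finset.prod_congr rfl (fun i _ => ?_)
      exact del_mk _ _
    rw [h5]
    change (∏ i ∈ R, del ((h : I → V) i)) * ((Fintype.card V : ℝ) ^ s *
      ((∏ i ∈ R, del ((Ξ : I → Module.Dual (ZMod 2) V) i))
          * ∏ i ∈ Rᶜ, pn F ((h : I → V) i, (Ξ : I → Module.Dual (ZMod 2) V) i)))
      = (Fintype.card V : ℝ) ^ s * (((∏ i ∈ R, del ((h : I → V) i))
        * ∏ i ∈ R, del ((Ξ : I → Module.Dual (ZMod 2) V) i))
          * ∏ i ∈ Rᶜ, pn F ((h : I → V) i, (Ξ : I → Module.Dual (ZMod 2) V) i))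
    ring
  rw [hR2]
  push_cast
  rw [← mul_assoc, ← pow_add, ← two_mul]
  refine mul_le_mul_of_nonneg_left ?_ (by positivity)
  refine Finset.sum_le_sum (fun X _ => ?_)
  refine mul_le_mul_of_nonneg_left ?_ (Finset.prod_nonneg (fun i _ => del_nonneg _))
  refine (le_abs_self _).trans (le_of_eq ?_)
  rw [Finset.abs_prod]

/-- second half: `E² ≤ N^(2(s-t)) u^t` -/
lemma E_sq_le {C : Submodule (ZMod 2) (I → ZMod 2)} (hC : SD C) (s : ℕ)
    (hs : Fintype.card I = 2 * s) (F : V → ℝ) (hF : ∀ x, F x ^ 2 = 1) (u : ℝ) (hu0 : 0 ≤ u)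
    (hu : ∑ z : V × Module.Dual (ZMod 2) V, gg F z ^ 2 ≤ u * Fintype.card V)
    (J R Y2 Y4 : Finset I) (h : Ex C J R Y2 Y4) :
    (∑ X : CV (V × Module.Dual (ZMod 2) V) C,
          (∏ i ∈ R, del ((X : I → V × Module.Dual (ZMod 2) V) i))
            * ∏ i ∈ Rᶜ, |pn F ((X : I → V × Module.Dual (ZMod 2) V) i)|) ^ 2
      ≤ ((Fintype.card V : ℝ) ^ (J \ R).card) ^ 2 * u ^ R.card := by
  have hN := cardV_pos (V := V)
  have hgg0 := gg_nonneg F
  let w : CV (V × Module.Dual (ZMod 2) V) C → ℝ := fun X =>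
    ∏ i ∈ R, del ((X : I → V × Module.Dual (ZMod 2) V) i)
  have hw0 : ∀ X, 0 ≤ w X := fun X => Finset.prod_nonneg (fun i _ => del_nonneg _)
  let P : Finset I → CV (V × Module.Dual (ZMod 2) V) C → ℝ := fun A X =>
    ∏ i ∈ A, |pn F ((X : I → V × Module.Dual (ZMod 2) V) i)|
  let G : Finset I → CV (V × Module.Dual (ZMod 2) V) C → ℝ := fun A X =>
    ∏ i ∈ A, gg F ((X : I → V × Module.Dual (ZMod 2) V) i)
  have hPG : ∀ A X, P A X ^ 2 = G A X := by
    intro A X
    change (∏ i ∈ A, |pn F ((X : I → V × Module.Dual (ZMod 2) V) i)|) ^ 2 = _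
    rw [← Finset.prod_pow]
    exact Finset.prod_congr rfl (fun i _ => pn_sq F _)
  have hRc : Rᶜ = (J \ R) ∪ Jᶜ := by
    ext i
    simp only [Finset.mem_compl, Finset.mem_union, Finset.mem_sdiff]
    constructor
    · intro hi
      by_cases hiJ : i ∈ J
      · exact Or.inl ⟨hiJ, hi⟩
      · exact Or.inr hiJ
    · rintro (hi | hi)
      · exact hi.2
      · exact fun hiR => hi (h.hR hiR)
  have hdis : Disjoint (J \ R) Jᶜ := by
    rw [Finset.disjoint_left]
    intro i hi hi2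
    exact (Finset.mem_compl.1 hi2) (Finset.mem_sdiff.1 hi).1
  have hsplit : ∀ X, P Rᶜ X = P (J \ R) X * P Jᶜ X := by
    intro X
    change ∏ i ∈ Rᶜ, _ = _
    rw [hRc, Finset.prod_union hdis]
  -- first Cauchy-Schwarz
  have hE : (∑ X, w X * P Rᶜ X) ^ 2 ≤ (∑ X, w X * G (J \ R) X) * ∑ X, w X * G Jᶜ X := by
    simp only [hsplit]
    have h1 := wcs Finset.univ w (P (J \ R)) (P Jᶜ) hw0
    simp only [hPG] at h1
    exact h1
  have hE1 : ∑ X, w X * G (J \ R) X = (Fintype.card V : ℝ) ^ (J \ R).card := by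
    have h1 := sum_delR (W := V × Module.Dual (ZMod 2) V) hC h.hJ h.hJc h.hR (fun _ => gg F)
    rw [sum_gg F hF, Finset.prod_const] at h1
    exact h1
  -- second Cauchy-Schwarz
  have hJcs : ∀ {Y Y' : Finset I}, Y ⊆ Jᶜ → Y' ⊆ Jᶜ → Disjoint Y Y' →
      ∀ X, G (Jᶜ \ Y) X = G (Jᶜ \ (Y ∪ Y')) X * G Y' X := by
    intro Y Y' hY hY' hYY X
    have h1 : Jᶜ \ Y = (Jᶜ \ (Y ∪ Y')) ∪ Y' := by
      ext i
      simp only [Finset.mem_union, Finset.mem_sdiff]
      constructor
      · rintro ⟨h1, h2⟩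
        by_cases h3 : i ∈ Y'
        · exact Or.inr h3
        · exact Or.inl ⟨h1, by tauto⟩
      · rintro (⟨h1, h2⟩ | h1)
        · exact ⟨h1, by tauto⟩
        · exact ⟨hY' h1, fun h2 => (Finset.disjoint_left.1 hYY) h2 h1⟩
    have h2 : Disjoint (Jᶜ \ (Y ∪ Y')) Y' := by
      rw [Finset.disjoint_left]
      intro i hi hi2
      exact (Finset.mem_sdiff.1 hi).2 (Finset.mem_union_right _ hi2)
    change ∏ i ∈ Jᶜ \ Y, _ = _
    rw [h1, Finset.prod_union h2]
  let w2 : CV (V × Module.Dual (ZMod 2) V) C → ℝ := fun X => w X * G (Jᶜ \ (Y2 ∪ Y4)) X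
  have hG0 : ∀ A X, 0 ≤ G A X := fun A X => Finset.prod_nonneg (fun i _ => hgg0 _)
  have hw20 : ∀ X, 0 ≤ w2 X := fun X => mul_nonneg (hw0 X) (hG0 _ _)
  have hE2 : (∑ X, w X * G Jᶜ X) ^ 2
      ≤ (∑ X, w X * (G (Jᶜ \ Y2) X * G Y4 X)) * ∑ X, w X * (G (Jᶜ \ Y4) X * G Y2 X) := by
    have h1 := wcs Finset.univ w2 (G Y4) (G Y2) hw20
    have h2 : ∀ X, w2 X * (G Y4 X * G Y2 X) = w X * G Jᶜ X := by
      intro X
      have h3 : G Jᶜ X = G (Jᶜ \ Y2) X * G Y2 X := by
        change ∏ i ∈ Jᶜ, _ = _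
        exact (Finset.prod_sdiff h.hY2).symm
      rw [h3, hJcs h.hY2 h.hY4 h.dis]
      change w X * G (Jᶜ \ (Y2 ∪ Y4)) X * (G Y4 X * G Y2 X) = _
      ring
    have h4 : ∀ X, w2 X * G Y4 X ^ 2 = w X * (G (Jᶜ \ Y2) X * G Y4 X) := by
      intro X
      rw [hJcs h.hY2 h.hY4 h.dis]
      change w X * G (Jᶜ \ (Y2 ∪ Y4)) X * G Y4 X ^ 2 = _
      ring
    have h5 : ∀ X, w2 X * G Y2 X ^ 2 = w X * (G (Jᶜ \ Y4) X * G Y2 X) := by
      intro X
      rw [hJcs h.hY4 h.hY2 h.dis.symm, Finset.union_comm Y4 Y2]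
      change w X * G (Jᶜ \ (Y2 ∪ Y4)) X * G Y2 X ^ 2 = _
      ring
    simp only [h2, h4, h5] at h1
    exact h1
  -- evaluation
  have hcJ := card_free hC s hs h.hJ h.hJc
  have hcR : R.card ≤ s := hcJ ▸ Finset.card_le_card h.hR
  have hcJR : (J \ R).card = s - R.card := by
    rw [Finset.card_sdiff_of_subset h.hR, hcJ]
  have hcJc : Jᶜ.card = s := by
    rw [Finset.card_compl, hcJ, hs]; omega
  have hsum2 : 0 ≤ ∑ z : V × Module.Dual (ZMod 2) V, gg F z ^ 2 :=
    Finset.sum_nonneg (fun z _ => sq_nonneg _)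
  have heval : ∀ {Y Y' : Finset I}, Y ⊆ Jᶜ → Y' ⊆ Jᶜ → Disjoint Y Y' →
      Y.card = R.card → Y'.card = R.card → Free (R ∪ (Jᶜ \ Y)) C → Free (R ∪ (Jᶜ \ Y))ᶜ C →
      ∑ X, w X * (G (Jᶜ \ Y) X * G Y' X) ≤ (Fintype.card V : ℝ) ^ (J \ R).card * u ^ R.card := by
    intro Y Y' hY hY' hYY hc hc' hf hfc
    have h1 := sum_delR (W := V × Module.Dual (ZMod 2) V) hC hf hfc
      (Finset.subset_union_left) (fun i z => if i ∈ Y' then gg F z ^ 2 else gg F z)
    have hB : (R ∪ (Jᶜ \ Y)) \ R = Jᶜ \ Y := by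
      ext i
      simp only [Finset.mem_sdiff, Finset.mem_union, Finset.mem_compl]
      constructor
      · rintro ⟨h1 | h1, h2⟩
        · exact absurd h1 h2
        · exact h1
      · intro h1
        exact ⟨Or.inr h1, fun h2 => h1.1 (h.hR h2)⟩
    rw [hB] at h1
    have hYc : Y' ⊆ Jᶜ \ Y := fun i hi =>
      Finset.mem_sdiff.2 ⟨hY' hi, fun h2 => (Finset.disjoint_left.1 hYY) h2 hi⟩
    have h2 : ∀ X : CV (V × Module.Dual (ZMod 2) V) C,
        w X * (G (Jᶜ \ Y) X * G Y' X)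
        = (∏ i ∈ R, del ((X : I → V × Module.Dual (ZMod 2) V) i)) *
          ∏ i ∈ Jᶜ \ Y, (if i ∈ Y' then gg F ((X : I → V × Module.Dual (ZMod 2) V) i) ^ 2
            else gg F ((X : I → V × Module.Dual (ZMod 2) V) i)) := by
      intro X
      change w X * _ = w X * _
      congr 1
      rw [hJcs hY hY' hYY, ← Finset.prod_sdiff hYc]
      have h3 : (Jᶜ \ Y) \ Y' = Jᶜ \ (Y ∪ Y') := by
        rw [Finset.sdiff_sdiff_left']
        ext i
        simp only [Finset.mem_sdiff, Finset.mem_union, Finset.mem_inter]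
        tauto
      rw [h3]
      have h4 : ∏ i ∈ Jᶜ \ (Y ∪ Y'), (if i ∈ Y' then
            gg F ((X : I → V × Module.Dual (ZMod 2) V) i) ^ 2
            else gg F ((X : I → V × Module.Dual (ZMod 2) V) i)) = G (Jᶜ \ (Y ∪ Y')) X := by
        refine Finset.prod_congr rfl (fun i hi => if_neg ?_)
        intro h5
        exact (Finset.mem_sdiff.1 hi).2 (Finset.mem_union_right _ h5)
      have h6 : ∏ i ∈ Y', (if i ∈ Y' then
            gg F ((X : I → V × Module.Dual (ZMod 2) V) i) ^ 2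
            else gg F ((X : I → V × Module.Dual (ZMod 2) V) i)) = G Y' X ^ 2 := by
        change _ = (∏ i ∈ Y', gg F ((X : I → V × Module.Dual (ZMod 2) V) i)) ^ 2
        rw [← Finset.prod_pow]
        exact Finset.prod_congr rfl (fun i hi => if_pos hi)
      rw [h4, h6]
      ring
    simp only [h2]
    rw [h1]
    have h7 : ∏ i ∈ Jᶜ \ Y, ∑ z : V × Module.Dual (ZMod 2) V,
        (if i ∈ Y' then gg F z ^ 2 else gg F z)
        = (Fintype.card V : ℝ) ^ ((Jᶜ \ Y) \ Y').card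
          * (∑ z : V × Module.Dual (ZMod 2) V, gg F z ^ 2) ^ R.card := by
      rw [← Finset.prod_sdiff hYc]
      congr 1
      · rw [← Finset.prod_const]
        refine Finset.prod_congr rfl (fun i hi => ?_)
        simp only [if_neg (Finset.mem_sdiff.1 hi).2]
        exact sum_gg F hF
      · rw [← hc', ← Finset.prod_const]
        refine Finset.prod_congr rfl (fun i hi => ?_)
        simp only [if_pos hi]
    rw [h7]
    have h8 : ((Jᶜ \ Y) \ Y').card + R.card = (J \ R).card := by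
      rw [Finset.card_sdiff_of_subset hYc, Finset.card_sdiff_of_subset hY, hcJc, hc, hc', hcJR]
      have h9 := Finset.card_le_card hYc
      rw [Finset.card_sdiff_of_subset hY, hcJc, hc, hc'] at h9
      omega
    calc (Fintype.card V : ℝ) ^ ((Jᶜ \ Y) \ Y').card
          * (∑ z : V × Module.Dual (ZMod 2) V, gg F z ^ 2) ^ R.card
        ≤ (Fintype.card V : ℝ) ^ ((Jᶜ \ Y) \ Y').card * (u * Fintype.card V) ^ R.card :=
          mul_le_mul_of_nonneg_left (pow_le_pow_left₀ hsum2 hu _) (by positivity)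
      _ = (Fintype.card V : ℝ) ^ (J \ R).card * u ^ R.card := by
          rw [← h8, mul_pow, pow_add]; ring
  have hE3 := heval h.hY2 h.hY4 h.dis h.c2 h.c4 h.h2 h.h2c
  have hE4 := heval h.hY4 h.hY2 h.dis.symm h.c4 h.c2 h.h4 h.h4c
  have hE20 : 0 ≤ ∑ X, w X * G Jᶜ X :=
    Finset.sum_nonneg (fun X _ => mul_nonneg (hw0 X) (hG0 _ _))
  have hM0 : 0 ≤ (Fintype.card V : ℝ) ^ (J \ R).card * u ^ R.card := by positivity
  have hE2' : ∑ X, w X * G Jᶜ X ≤ (Fintype.card V : ℝ) ^ (J \ R).card * u ^ R.card := by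
    refine (pow_le_pow_iff_left₀ hE20 hM0 (two_ne_zero)).1 ?_
    refine hE2.trans ?_
    rw [pow_two]
    exact mul_le_mul hE3 hE4
      (Finset.sum_nonneg (fun X _ => mul_nonneg (hw0 X) (mul_nonneg (hG0 _ _) (hG0 _ _)))) hM0
  refine hE.trans ?_
  rw [hE1]
  calc (Fintype.card V : ℝ) ^ (J \ R).card * ∑ X, w X * G Jᶜ X
      ≤ (Fintype.card V : ℝ) ^ (J \ R).card * ((Fintype.card V : ℝ) ^ (J \ R).card * u ^ R.card) :=
        mul_le_mul_of_nonneg_left hE2' (by positivity)
    _ = _ := by ring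

/-- The bound for the contribution of one code, from two exchanges of `R`. -/
theorem T_ex {C : Submodule (ZMod 2) (I → ZMod 2)} (hC : SD C) (s : ℕ)
    (hs : Fintype.card I = 2 * s) (F : V → ℝ) (hF : ∀ x, F x ^ 2 = 1) (u : ℝ) (hu0 : 0 ≤ u)
    (hu : ∑ z : V × Module.Dual (ZMod 2) V, gg F z ^ 2 ≤ u * Fintype.card V)
    (J R Y2 Y4 : Finset I) (h : Ex C J R Y2 Y4) :
    T C F ^ 4 ≤ ((Fintype.card V : ℝ) ^ s) ^ 4 * u ^ R.card := by
  have hN := cardV_pos (V := V)
  have h1 := T_sq_E hC s hs F hF h.hJ h.hJc h.hR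
  have h2 := E_sq_le hC s hs F hF u hu0 hu J R Y2 Y4 h
  set M : ℝ := (Fintype.card V : ℝ) ^ (J \ R).card with hM
  have hMpos : 0 < M := by positivity
  set E : ℝ := ∑ X : CV (V × Module.Dual (ZMod 2) V) C,
          (∏ i ∈ R, del ((X : I → V × Module.Dual (ZMod 2) V) i))
            * ∏ i ∈ Rᶜ, |pn F ((X : I → V × Module.Dual (ZMod 2) V) i)| with hE
  have h3 : (M * T C F ^ 2) ^ 2 ≤ ((Fintype.card V : ℝ) ^ (2 * s) * E) ^ 2 :=
    pow_le_pow_left₀ (by positivity) h1 2
  have h4 : M ^ 2 * T C F ^ 4 ≤ M ^ 2 * (((Fintype.card V : ℝ) ^ s) ^ 4 * u ^ R.card) := by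
    calc M ^ 2 * T C F ^ 4 = (M * T C F ^ 2) ^ 2 := by ring
      _ ≤ ((Fintype.card V : ℝ) ^ (2 * s) * E) ^ 2 := h3
      _ = ((Fintype.card V : ℝ) ^ s) ^ 4 * E ^ 2 := by
          rw [mul_pow, ← pow_mul, ← pow_mul]
          congr 2
          ring
      _ ≤ ((Fintype.card V : ℝ) ^ s) ^ 4 * (M ^ 2 * u ^ R.card) :=
          mul_le_mul_of_nonneg_left h2 (by positivity)
      _ = M ^ 2 * (((Fintype.card V : ℝ) ^ s) ^ 4 * u ^ R.card) := by ring
  exact le_of_mul_le_mul_left h4 (by positivity)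

end main

end RM44
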