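import Pool.Agent.Helper44.RM.Card
import Pool.Agent.Helper44.RM.TEx

set_option autoImplicit false
set_option linter.unusedSectionVars false

open scoped BigOperators
open Classical

namespace RM44
open RMC

lemma geom8 (n : ℕ) : ∑ t ∈ Finset.Icc 1 n, (1 / 8 : ℝ) ^ t ≤ 1 / 7 := by
  have h : ∀ n : ℕ, ∑ t ∈ Finset.Icc 1 n, (1 / 8 : ℝ) ^ t = (1 - (1 / 8) ^ n) / 7 := by
    intro n
    induction n with
    | zero => simp
    | succ n ih =>
      rw [Finset.sum_Icc_succ_top (by omega), ih, pow_succ]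
      ring
  rw [h n]
  have : (0 : ℝ) ≤ (1 / 8) ^ n := by positivity
  linarith

section
variable {I : Type} [Fintype I]
variable {V : Type} [AddCommGroup V] [Module (ZMod 2) V] [Fintype V]

/-- lower bound for the contribution of one code -/
theorem T_ge_near {C : Submodule (ZMod 2) (I → ZMod 2)} (hC : SD C) (s : ℕ)
    (hs : Fintype.card I = 2 * s) (F : V → ℝ) (hF : ∀ x, F x ^ 2 = 1) (k : ℕ)
    (hu : ∑ z : V × Module.Dual (ZMod 2) V, gg F z ^ 2 ≤ (1 / 2 : ℝ) ^ (4 * k) * Fintype.card V) :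
    -(∑ t ∈ Finset.Icc 1 s, if Near C t then (Fintype.card V : ℝ) ^ s * (1 / 2) ^ (k * t) else 0)
      ≤ T C F := by
  have hN := cardV_pos (V := V)
  have h0 : ∀ t ∈ Finset.Icc 1 s,
      (0 : ℝ) ≤ if Near C t then (Fintype.card V : ℝ) ^ s * (1 / 2) ^ (k * t) else 0 := by
    intro t _
    split_ifs <;> positivity
  rcases exists_near hC s hs with hall | ⟨J, R, Y2, Y4, hex, hR1, hRs, hnear⟩
  · have h1 := Finset.sum_nonneg h0
    linarith [T_nonneg_of_pairs hC F hall]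
  · have h1 := T_ex hC s hs F hF _ (by positivity) hu J R Y2 Y4 hex
    have h2 : T C F ^ 4 ≤ ((Fintype.card V : ℝ) ^ s * (1 / 2) ^ (k * R.card)) ^ 4 := by
      refine h1.trans (le_of_eq ?_)
      rw [mul_pow, ← pow_mul (1 / 2 : ℝ) (4 * k), ← pow_mul (1 / 2 : ℝ) (k * R.card),
        show 4 * k * R.card = k * R.card * 4 by ring]
    have h3 : |T C F| ≤ (Fintype.card V : ℝ) ^ s * (1 / 2) ^ (k * R.card) := by
      refine (pow_le_pow_iff_left₀ (abs_nonneg _) (by positivity) (four_ne_zero)).1 ?_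
      rw [show |T C F| ^ 4 = T C F ^ 4 from by
        rw [show (4 : ℕ) = 2 * 2 from rfl, pow_mul, sq_abs, ← pow_mul]]
      exact h2
    have h4 := Finset.single_le_sum h0 (Finset.mem_Icc.2 ⟨hR1, hRs⟩)
    rw [if_pos hnear] at h4
    have h5 := (abs_le.1 h3).1
    linarith

end

/-- the moment argument with the count of near pairing codes -/
theorem moment_v (s : ℕ) (hs : 6 ≤ s) (m : ℕ) (hm : 8 * s ^ 2 + 2 ≤ m)
    (V : Type) [AddCommGroup V] [Module (ZMod 2) V] [Fintype V] (hV : Fintype.card V = 2 ^ m)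
    (F : V → ℝ) (hF : ∀ x, F x ^ 2 = 1) (ρ : ℝ) (hR : Rb F ρ)
    (hu : ∑ z : V × Module.Dual (ZMod 2) V, gg F z ^ 2
      ≤ (1 / 2 : ℝ) ^ (80 * s + 12) * Fintype.card V) :
    (s : ℝ) / Real.exp 1 ≤ ρ := by
  have hnrm := nrm_sign m hV F hF
  have hVR : (Fintype.card V : ℝ) = 2 ^ m := by rw [hV]; push_cast; rfl
  have hNpos : (0 : ℝ) < 2 ^ m := by positivity
  have hFpos : 0 < nrm F := by rw [hnrm]; positivity
  have hρ := hR.nonneg hFpos
  have hcI : Fintype.card (Fin s ⊕ Fin s) = 2 * s := by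
    rw [Fintype.card_sum, Fintype.card_fin]; ring
  have h1 := sol_sum_le (I := Fin s ⊕ Fin s) F ρ hρ hR s (by omega) hcI
  have h2 := sum_T_le (I := Fin s ⊕ Fin s) F 1 zero_le_one (fun x => (hF x).le) s (by omega) hcI
  have hNc : ((sdc (Fin s ⊕ Fin s)).card : ℝ) ≤ (2 : ℝ) ^ (4 * s ^ 2) := by
    have h3 := card_sdc_le (Fin s ⊕ Fin s)
    rw [hcI, ← pow_mul] at h3
    have h4 : 2 * s * (2 * s) = 4 * s ^ 2 := by ring
    rw [h4] at h3
    exact_mod_cast h3
  -- the permutation codes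
  let P : Finset (Submodule (ZMod 2) (Fin s ⊕ Fin s → ZMod 2)) := Finset.univ.image (pc (s := s))
  have hPsub : P ⊆ sdc (Fin s ⊕ Fin s) := by
    intro C hC
    obtain ⟨σ, -, rfl⟩ := Finset.mem_image.1 hC
    exact mem_sdc.2 (pc_SD σ)
  have hPcard : P.card = s.factorial := by
    rw [Finset.card_image_of_injective _ pc_inj, Finset.card_univ, Fintype.card_perm,
      Fintype.card_fin]
  have hPsum : ∑ C ∈ P, T C F = (s.factorial : ℝ) * nrm F ^ s := by
    have : ∀ C ∈ P, T C F = nrm F ^ s := by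
      intro C hC
      obtain ⟨σ, -, rfl⟩ := Finset.mem_image.1 hC
      exact T_pc σ F
    rw [Finset.sum_congr rfl this, Finset.sum_const, hPcard, nsmul_eq_mul]
  have hu' : ∑ z : V × Module.Dual (ZMod 2) V, gg F z ^ 2
      ≤ (1 / 2 : ℝ) ^ (4 * (20 * s + 3)) * Fintype.card V := by
    rw [show 4 * (20 * s + 3) = 80 * s + 12 by ring]; exact hu
  have hrest : -((s.factorial : ℝ) * nrm F ^ s * (1 / 7))
      ≤ ∑ C ∈ sdc (Fin s ⊕ Fin s) \ P, T C F := by
    let b : ℕ → ℝ := fun t => (Fintype.card V : ℝ) ^ s * (1 / 2) ^ ((20 * s + 3) * t)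
    have hb0 : ∀ t, 0 ≤ b t := fun t => by
      change 0 ≤ (Fintype.card V : ℝ) ^ s * (1 / 2) ^ ((20 * s + 3) * t)
      positivity
    have h3 : ∑ C ∈ sdc (Fin s ⊕ Fin s) \ P, -(∑ t ∈ Finset.Icc 1 s, if Near C t then b t else 0)
        ≤ ∑ C ∈ sdc (Fin s ⊕ Fin s) \ P, T C F :=
      Finset.sum_le_sum (fun C hC => T_ge_near (mem_sdc.1 (Finset.mem_sdiff.1 hC).1) s hcI F hF
        (20 * s + 3) hu')
    refine le_trans ?_ h3
    rw [Finset.sum_neg_distrib]
    apply neg_le_neg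
    calc ∑ C ∈ sdc (Fin s ⊕ Fin s) \ P, ∑ t ∈ Finset.Icc 1 s, (if Near C t then b t else 0)
        ≤ ∑ C ∈ sdc (Fin s ⊕ Fin s), ∑ t ∈ Finset.Icc 1 s, (if Near C t then b t else 0) := by
          refine Finset.sum_le_sum_of_subset_of_nonneg Finset.sdiff_subset (fun C _ _ => ?_)
          refine Finset.sum_nonneg (fun t _ => ?_)
          split_ifs
          · exact hb0 t
          · exact le_refl _
      _ = ∑ t ∈ Finset.Icc 1 s, ((((sdc (Fin s ⊕ Fin s)).filter (fun C => Near C t)).card : ℝ)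
            * b t) := by
          rw [Finset.sum_comm]
          refine Finset.sum_congr rfl (fun t _ => ?_)
          rw [← Finset.sum_filter, Finset.sum_const, nsmul_eq_mul]
      _ ≤ ∑ t ∈ Finset.Icc 1 s, ((s.factorial : ℝ) * nrm F ^ s * (1 / 8) ^ t) := by
          refine Finset.sum_le_sum (fun t ht => ?_)
          have h4 := card_near s hs t (Finset.mem_Icc.1 ht).1
          have h5 : (((sdc (Fin s ⊕ Fin s)).filter (fun C => Near C t)).card : ℝ)
              ≤ (s.factorial : ℝ) * 2 ^ (20 * t * s) := by exact_mod_cast h4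
          refine (mul_le_mul_of_nonneg_right h5 (hb0 t)).trans (le_of_eq ?_)
          change (s.factorial : ℝ) * 2 ^ (20 * t * s)
            * ((Fintype.card V : ℝ) ^ s * (1 / 2) ^ ((20 * s + 3) * t)) = _
          rw [hVR, hnrm]
          have h6 : (2 : ℝ) ^ (20 * t * s) * (1 / 2) ^ ((20 * s + 3) * t) = (1 / 8) ^ t := by
            rw [show (20 * s + 3) * t = 20 * t * s + 3 * t by ring, pow_add, ← mul_assoc,
              ← mul_pow]
            norm_num
            rw [pow_mul]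
            norm_num
          calc (s.factorial : ℝ) * 2 ^ (20 * t * s)
            * (((2 : ℝ) ^ m) ^ s * (1 / 2) ^ ((20 * s + 3) * t))
              = (s.factorial : ℝ) * ((2 : ℝ) ^ m) ^ s
                * (2 ^ (20 * t * s) * (1 / 2) ^ ((20 * s + 3) * t)) := by ring
            _ = _ := by rw [h6]
      _ = (s.factorial : ℝ) * nrm F ^ s * ∑ t ∈ Finset.Icc 1 s, (1 / 8 : ℝ) ^ t := by
          rw [Finset.mul_sum]
      _ ≤ (s.factorial : ℝ) * nrm F ^ s * (1 / 7) :=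
          mul_le_mul_of_nonneg_left (geom8 s) (by positivity)
  have hsplit := Finset.sum_sdiff (f := fun C => T C F) hPsub
  have h5 : ((sdc (Fin s ⊕ Fin s)).card : ℝ) ^ 2 * (1 ^ s * (Fintype.card V : ℝ) ^ (s - 1))
      ≤ nrm F ^ s / 4 := by
    rw [one_pow, one_mul]
    have h3 : ((sdc (Fin s ⊕ Fin s)).card : ℝ) ^ 2 ≤ ((2 : ℝ) ^ (4 * s ^ 2)) ^ 2 :=
      pow_le_pow_left₀ (by positivity) hNc 2
    refine (mul_le_mul_of_nonneg_right h3 (by positivity)).trans ?_
    rw [hVR, hnrm]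
    have h3 : ((2 : ℝ) ^ m) ^ s = ((2 : ℝ) ^ m) ^ (s - 1) * (2 : ℝ) ^ m := by
      rw [← pow_succ]; congr 1; omega
    rw [h3, ← pow_mul, show 4 * s ^ 2 * 2 = 8 * s ^ 2 by ring]
    have h4 : (2 : ℝ) ^ (8 * s ^ 2) * 4 ≤ 2 ^ m := by
      have : (4 : ℝ) = 2 ^ 2 := by norm_num
      rw [this, ← pow_add]
      exact pow_le_pow_right₀ (by norm_num) hm
    have h5 : (0 : ℝ) ≤ ((2 : ℝ) ^ m) ^ (s - 1) := by positivity
    nlinarith
  have hGs : 0 < nrm F ^ s := by positivity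
  have h7 : ((s.factorial : ℝ) * (6 / 7) - 1 / 4) * nrm F ^ s ≤ ρ ^ (s - 1) * nrm F ^ s := by
    linarith
  have h8 := le_of_mul_le_mul_right h7 hGs
  have h9 : (1 : ℝ) ≤ s.factorial := by exact_mod_cast Nat.succ_le_of_lt (Nat.factorial_pos s)
  have h10 : (s.factorial : ℝ) / 2 ≤ ρ ^ (s - 1) := by linarith
  have h11 := (fact_bound s hs).trans h10
  by_contra hlt
  push Not at hlt
  exact absurd h11 (not_le.2 (pow_lt_pow_left₀ hlt hρ (by omega)))

end RM44
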