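import Pool.Agent.Helper71.RMC.Four

set_option autoImplicit false
set_option linter.unusedSectionVars false

open scoped BigOperators
open Classical

namespace RM44
open RMC

variable {V : Type} [AddCommGroup V] [Module (ZMod 2) V] [Fintype V]

/-- the symplectic form on `V × V*` -/
def sp (z w : V × Module.Dual (ZMod 2) V) : ZMod 2 := z.2 w.1 + w.2 z.1

lemma sp_comm (z w : V × Module.Dual (ZMod 2) V) : sp z w = sp w z := add_comm _ _

lemma sp_add (z w w' : V × Module.Dual (ZMod 2) V) : sp z (w + w') = sp z w + sp z w' := by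
  unfold sp
  rw [Prod.fst_add, Prod.snd_add, map_add, LinearMap.add_apply]
  ring

lemma sp_add_left (z z' w : V × Module.Dual (ZMod 2) V) : sp (z + z') w = sp z w + sp z' w := by
  rw [sp_comm, sp_add, sp_comm w, sp_comm w]

lemma sp_zero (z : V × Module.Dual (ZMod 2) V) : sp z 0 = 0 := by
  unfold sp
  simp

lemma sp_smul (z w : V × Module.Dual (ZMod 2) V) (a : ZMod 2) : sp z (a • w) = a * sp z w := by
  unfold sp
  rw [Prod.smul_fst, Prod.smul_snd, map_smul, LinearMap.smul_apply, smul_eq_mul, smul_eq_mul]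
  ring

/-- inner product with `z` as a homomorphism -/
def spHom (z : V × Module.Dual (ZMod 2) V) : (V × Module.Dual (ZMod 2) V) →+ ZMod 2 where
  toFun := sp z
  map_zero' := sp_zero z
  map_add' := sp_add z

/-- self-duality of the squared correlations -/
theorem self_dual (F : V → ℝ) (t : V × Module.Dual (ZMod 2) V) :
    ∑ z : V × Module.Dual (ZMod 2) V, pau F z.1 z.2 ^ 2 * chi (sp z t)
      = (Fintype.card V : ℝ) * pau F t.1 t.2 ^ 2 := by
  rw [Fintype.sum_prod_type]
  have h1 : ∀ h : V, ∑ ξ : Module.Dual (ZMod 2) V, pau F h ξ ^ 2 * chi (sp (h, ξ) t)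
      = chi (t.2 h) * ((Fintype.card V : ℝ) * ∑ y, (F y * F (y + h)) *
        (F (y + t.1) * F (y + t.1 + h))) := by
    intro h
    have h2 : ∀ ξ : Module.Dual (ZMod 2) V, pau F h ξ ^ 2 * chi (sp (h, ξ) t)
        = chi (t.2 h) * ∑ y, (F y * F (y + h)) * (pau F h ξ * chi (ξ (y + t.1))) := by
      intro ξ
      have h3 : pau F h ξ ^ 2 = ∑ y, (F y * F (y + h)) * (pau F h ξ * chi (ξ y)) := by
        rw [pow_two]
        nth_rewrite 1 [pau]
        rw [Finset.sum_mul]
        exact Finset.sum_congr rfl (fun y _ => by ring)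
      rw [h3, Finset.sum_mul, Finset.mul_sum]
      refine Finset.sum_congr rfl (fun y _ => ?_)
      unfold sp
      simp only
      rw [map_add, chi_add, chi_add]
      ring
    simp only [h2]
    rw [← Finset.mul_sum, Finset.sum_comm]
    congr 1
    rw [Finset.mul_sum]
    refine Finset.sum_congr rfl (fun y _ => ?_)
    rw [← Finset.mul_sum]
    have h4 := four_inv (fun x => F x * F (x + h)) (y + t.1)
    have h5 : ∑ ξ : Module.Dual (ZMod 2) V, pau F h ξ * chi (ξ (y + t.1))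
        = (Fintype.card V : ℝ) * (F (y + t.1) * F (y + t.1 + h)) := h4
    rw [h5]
    ring
  simp only [h1]
  have h6 : ∀ h : V, chi (t.2 h) * ((Fintype.card V : ℝ) * ∑ y, (F y * F (y + h)) *
        (F (y + t.1) * F (y + t.1 + h)))
      = (Fintype.card V : ℝ) * ∑ y, (F y * F (y + t.1)) *
        (chi (t.2 h) * (F (y + h) * F (y + h + t.1))) := by
    intro h
    rw [mul_left_comm]
    congr 1
    rw [Finset.mul_sum]
    refine Finset.sum_congr rfl (fun y _ => ?_)
    rw [show y + t.1 + h = y + h + t.1 by abel]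
    ring
  simp only [h6]
  rw [← Finset.mul_sum, Finset.sum_comm]
  congr 1
  have h7 : ∀ y : V, ∑ h : V, (F y * F (y + t.1)) * (chi (t.2 h) * (F (y + h) * F (y + h + t.1)))
      = (F y * F (y + t.1) * chi (t.2 y)) * pau F t.1 t.2 := by
    intro y
    rw [← Finset.mul_sum]
    have h8 : ∑ h : V, chi (t.2 h) * (F (y + h) * F (y + h + t.1))
        = chi (t.2 y) * pau F t.1 t.2 := by
      have h9 : ∑ h : V, chi (t.2 h) * (F (y + h) * F (y + h + t.1))
          = ∑ x : V, chi (t.2 (x + y)) * (F x * F (x + t.1)) := by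
        refine Fintype.sum_equiv (Equiv.addLeft y) _ _ (fun h => ?_)
        change chi (t.2 h) * (F (y + h) * F (y + h + t.1))
          = chi (t.2 (y + h + y)) * (F (y + h) * F (y + h + t.1))
        rw [show y + h + y = h + y + y by abel, v_add_cancel]
      rw [h9]
      unfold pau
      rw [Finset.mul_sum]
      refine Finset.sum_congr rfl (fun x _ => ?_)
      rw [map_add, chi_add]
      ring
    rw [h8]
    ring
  simp only [h7]
  rw [← Finset.sum_mul, pow_two]
  rfl

/-- the normalised squared correlations -/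
noncomputable def gg (F : V → ℝ) (z : V × Module.Dual (ZMod 2) V) : ℝ :=
  pau F z.1 z.2 ^ 2 / (Fintype.card V : ℝ) ^ 2

lemma cardV_pos : (0 : ℝ) < Fintype.card V := by
  have : 0 < Fintype.card V := Fintype.card_pos_iff.2 ⟨0⟩
  exact_mod_cast this

lemma gg_nonneg (F : V → ℝ) (z : V × Module.Dual (ZMod 2) V) : 0 ≤ gg F z := by
  unfold gg; positivity

lemma gg_dual (F : V → ℝ) (t : V × Module.Dual (ZMod 2) V) :
    ∑ z : V × Module.Dual (ZMod 2) V, gg F z * chi (sp z t)
      = (Fintype.card V : ℝ) * gg F t := by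
  have h := self_dual F t
  unfold gg
  have h1 : ∀ z : V × Module.Dual (ZMod 2) V, pau F z.1 z.2 ^ 2 / (Fintype.card V : ℝ) ^ 2
      * chi (sp z t) = (pau F z.1 z.2 ^ 2 * chi (sp z t)) / (Fintype.card V : ℝ) ^ 2 := by
    intro z; ring
  simp only [h1]
  rw [← Finset.sum_div, h]
  ring

lemma sum_gg_fst (F : V → ℝ) (hF : ∀ x, F x ^ 2 = 1) (h : V) :
    ∑ ξ : Module.Dual (ZMod 2) V, gg F (h, ξ) = 1 := by
  unfold gg
  rw [← Finset.sum_div, pau_sq_sum]
  have h1 : ∑ x, (F x * F (x + h)) ^ 2 = (Fintype.card V : ℝ) := by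
    simp only [mul_pow, hF, mul_one, Finset.sum_const, Finset.card_univ, nsmul_eq_mul]
  rw [h1]
  have := cardV_pos (V := V)
  field_simp

lemma gg_le_one (F : V → ℝ) (hF : ∀ x, F x ^ 2 = 1) (z : V × Module.Dual (ZMod 2) V) :
    gg F z ≤ 1 := by
  rw [← sum_gg_fst F hF z.1]
  exact Finset.single_le_sum (f := fun ξ => gg F (z.1, ξ)) (fun ξ _ => gg_nonneg F _)
    (Finset.mem_univ z.2)

lemma sum_gg (F : V → ℝ) (hF : ∀ x, F x ^ 2 = 1) :
    ∑ z : V × Module.Dual (ZMod 2) V, gg F z = Fintype.card V := by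
  rw [Fintype.sum_prod_type]
  simp only [sum_gg_fst F hF]
  simp

lemma chi_le_one (a : ZMod 2) : chi a ≤ 1 := by
  rcases zmod2_cases a with h | h <;> rw [h] <;> simp [chi_zero, chi_one]

lemma sum_chi_nonneg (L : Submodule (ZMod 2) (V × Module.Dual (ZMod 2) V))
    (w : V × Module.Dual (ZMod 2) V) : 0 ≤ ∑ y : L, chi (sp w y) := by
  let φ : L →+ ZMod 2 := (spHom w).comp L.toAddSubgroup.subtype
  by_cases h : ∀ g : L, φ g = 0
  · have h1 := sum_chi_zero φ h
    have h2 : ∑ y : L, chi (sp w y) = (Fintype.card L : ℝ) := h1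
    rw [h2]
    positivity
  · push Not at h
    have h1 := sum_chi_eq_zero φ h
    exact le_of_eq h1.symm

/-- translates of subspaces carry less mass -/
theorem gg_coset (F : V → ℝ) (L : Submodule (ZMod 2) (V × Module.Dual (ZMod 2) V))
    (c : V × Module.Dual (ZMod 2) V) :
    ∑ y : L, gg F (c + (y : V × Module.Dual (ZMod 2) V)) ≤ ∑ y : L, gg F y := by
  have hN := cardV_pos (V := V)
  have h1 : ∀ c' : V × Module.Dual (ZMod 2) V,
      (Fintype.card V : ℝ) * ∑ y : L, gg F (c' + (y : V × Module.Dual (ZMod 2) V))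
      = ∑ z, gg F z * (chi (sp z c') * ∑ y : L, chi (sp z y)) := by
    intro c'
    rw [Finset.mul_sum]
    simp only [← gg_dual]
    rw [Finset.sum_comm]
    refine Finset.sum_congr rfl (fun z _ => ?_)
    rw [← mul_assoc, Finset.mul_sum]
    refine Finset.sum_congr rfl (fun y _ => ?_)
    rw [sp_add, chi_add]
    ring
  have h2 := h1 c
  have h3 := h1 0
  simp only [zero_add, sp_zero, chi_zero, one_mul] at h3
  refine le_of_mul_le_mul_left ?_ hN
  rw [h2, h3]
  refine Finset.sum_le_sum (fun z _ => ?_)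
  refine mul_le_mul_of_nonneg_left ?_ (gg_nonneg F z)
  calc chi (sp z c) * ∑ y : L, chi (sp z y) ≤ 1 * ∑ y : L, chi (sp z y) :=
        mul_le_mul_of_nonneg_right (chi_le_one _) (sum_chi_nonneg L z)
    _ = _ := one_mul _

/-- positive definiteness -/
theorem gg_posdef (F : V → ℝ) (hF : ∀ x, F x ^ 2 = 1)
    (S : Finset (V × Module.Dual (ZMod 2) V)) :
    (∑ z ∈ S, gg F z) ^ 2 ≤ ∑ z ∈ S, ∑ z' ∈ S, gg F (z + z') := by
  have hN := cardV_pos (V := V)
  have h1 : (Fintype.card V : ℝ) * ∑ z ∈ S, gg F z = ∑ w, gg F w * ∑ z ∈ S, chi (sp w z) := by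
    rw [Finset.mul_sum]
    simp only [← gg_dual]
    rw [Finset.sum_comm]
    refine Finset.sum_congr rfl (fun w _ => ?_)
    rw [Finset.mul_sum]
  have h2 : (Fintype.card V : ℝ) * ∑ z ∈ S, ∑ z' ∈ S, gg F (z + z')
      = ∑ w, gg F w * (∑ z ∈ S, chi (sp w z)) ^ 2 := by
    have h3 : (Fintype.card V : ℝ) * ∑ z ∈ S, ∑ z' ∈ S, gg F (z + z')
        = ∑ z ∈ S, ∑ z' ∈ S, ∑ w, gg F w * (chi (sp w z) * chi (sp w z')) := by
      rw [Finset.mul_sum]
      refine Finset.sum_congr rfl (fun z _ => ?_)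
      rw [Finset.mul_sum]
      refine Finset.sum_congr rfl (fun z' _ => ?_)
      rw [← gg_dual]
      refine Finset.sum_congr rfl (fun w _ => ?_)
      rw [sp_add, chi_add]
    rw [h3]
    have h4 : ∀ z ∈ S, ∑ z' ∈ S, ∑ w, gg F w * (chi (sp w z) * chi (sp w z'))
        = ∑ w, ∑ z' ∈ S, gg F w * (chi (sp w z) * chi (sp w z')) := fun z _ => Finset.sum_comm
    rw [Finset.sum_congr rfl h4, Finset.sum_comm]
    refine Finset.sum_congr rfl (fun w _ => ?_)
    rw [pow_two, Finset.sum_mul_sum, Finset.mul_sum]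
    refine Finset.sum_congr rfl (fun z _ => ?_)
    rw [Finset.mul_sum]
  have h5 : (∑ w, gg F w * ∑ z ∈ S, chi (sp w z)) ^ 2
      ≤ (∑ w, gg F w) * ∑ w, gg F w * (∑ z ∈ S, chi (sp w z)) ^ 2 := by
    have h6 := Finset.sum_mul_sq_le_sq_mul_sq Finset.univ (fun w => Real.sqrt (gg F w))
      (fun w => Real.sqrt (gg F w) * ∑ z ∈ S, chi (sp w z))
    have h7 : ∀ w, Real.sqrt (gg F w) * (Real.sqrt (gg F w) * ∑ z ∈ S, chi (sp w z))
        = gg F w * ∑ z ∈ S, chi (sp w z) := by
      intro w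
      rw [← mul_assoc, Real.mul_self_sqrt (gg_nonneg F w)]
    have h8 : ∀ w, (Real.sqrt (gg F w)) ^ 2 = gg F w := fun w => Real.sq_sqrt (gg_nonneg F w)
    have h9 : ∀ w, (Real.sqrt (gg F w) * ∑ z ∈ S, chi (sp w z)) ^ 2
        = gg F w * (∑ z ∈ S, chi (sp w z)) ^ 2 := by
      intro w; rw [mul_pow, h8]
    simp only [h7, h8, h9] at h6
    exact h6
  rw [← h1, ← h2, sum_gg F hF] at h5
  have h10 : (Fintype.card V : ℝ) ^ 2 * (∑ z ∈ S, gg F z) ^ 2
      ≤ (Fintype.card V : ℝ) ^ 2 * ∑ z ∈ S, ∑ z' ∈ S, gg F (z + z') := by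
    calc (Fintype.card V : ℝ) ^ 2 * (∑ z ∈ S, gg F z) ^ 2
        = ((Fintype.card V : ℝ) * ∑ z ∈ S, gg F z) ^ 2 := by ring
      _ ≤ _ := h5
      _ = _ := by ring
  exact le_of_mul_le_mul_left h10 (by positivity)

end RM44
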