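import Pool.Agent.Helper44.RM.Tot

set_option autoImplicit false
set_option linter.unusedSectionVars false

open scoped BigOperators
open Classical

namespace RM44
open RMC

variable {V : Type} [AddCommGroup V] [Module (ZMod 2) V] [Fintype V]

/-- a large totally singular subspace -/
theorem exists_sing (M : Submodule (ZMod 2) (V × Module.Dual (ZMod 2) V)) :
    ∃ L : Submodule (ZMod 2) (V × Module.Dual (ZMod 2) V), L ≤ M ∧ (∀ z ∈ L, Qf z = 0) ∧
      Fintype.card M ≤ 4 * Fintype.card L ^ 2 := by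
  obtain ⟨L, hLmem, hLmax⟩ := (Set.toFinite {L : Submodule (ZMod 2) (V × Module.Dual (ZMod 2) V) |
    L ≤ M ∧ ∀ z ∈ L, Qf z = 0}).exists_maximal ⟨⊥, bot_le, by
      intro z hz
      rw [(Submodule.mem_bot _).1 hz]
      simp [Qf]⟩
  obtain ⟨hLM, hLs⟩ := hLmem
  refine ⟨L, hLM, hLs, ?_⟩
  -- the orthogonal complement in `M`
  let P : Submodule (ZMod 2) (V × Module.Dual (ZMod 2) V) :=
    { carrier := {z | z ∈ M ∧ ∀ y ∈ L, sp z y = 0}
      add_mem' := by
        rintro a b ⟨ha, ha'⟩ ⟨hb, hb'⟩
        refine ⟨M.add_mem ha hb, fun y hy => ?_⟩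
        rw [sp_add_left, ha' y hy, hb' y hy, add_zero]
      zero_mem' := ⟨M.zero_mem, fun y _ => by rw [sp_comm, sp_zero]⟩
      smul_mem' := by
        rintro c a ⟨ha, ha'⟩
        refine ⟨M.smul_mem c ha, fun y hy => ?_⟩
        rw [sp_comm, sp_smul, sp_comm, ha' y hy, mul_zero] }
  have hmemP : ∀ z, z ∈ P ↔ z ∈ M ∧ ∀ y ∈ L, sp z y = 0 := fun z => Iff.rfl
  have hLP : L ≤ P := fun z hz => ⟨hLM hz, fun y hy => sp_eq_zero hLs hz hy⟩
  -- singular vectors of `P` lie in `L`
  have hsing : ∀ z ∈ P, Qf z = 0 → z ∈ L := by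
    intro z hz hQ
    have hz' := (hmemP z).1 hz
    have h1 : L ⊔ Submodule.span (ZMod 2) {z} ∈ {L : Submodule (ZMod 2) (V × Module.Dual (ZMod 2) V) |
        L ≤ M ∧ ∀ z ∈ L, Qf z = 0} := by
      constructor
      · exact sup_le hLM ((Submodule.span_singleton_le_iff_mem _ _).2 hz'.1)
      · intro w hw
        obtain ⟨w1, hw1, w2, hw2, rfl⟩ := Submodule.mem_sup.1 hw
        obtain ⟨a, rfl⟩ := Submodule.mem_span_singleton.1 hw2
        have h2 : sp w1 (a • z) = 0 := by
          rw [sp_smul, sp_comm, hz'.2 w1 hw1, mul_zero]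
        have h3 : Qf (a • z) = 0 := by
          rcases zmod2_cases a with h | h <;> rw [h]
          · simp [Qf]
          · rw [one_smul]; exact hQ
        rw [Qf_add, hLs w1 hw1, h2, h3, add_zero, add_zero]
    have h4 := hLmax h1 le_sup_left
    exact h4 (Submodule.mem_sup_right (Submodule.mem_span_singleton_self z))
  have hone : ∀ z ∈ P, z ∉ L → Qf z = 1 := by
    intro z hz hzL
    exact (zmod2_cases (Qf z)).resolve_left (fun h => hzL (hsing z hz h))
  -- `P` is covered by four cosets of `L`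
  have hcov : ∃ a b : V × Module.Dual (ZMod 2) V, ∀ c ∈ P, c ∈ L ∨ c + a ∈ L ∨ c + b ∈ L ∨ c + a + b ∈ L := by
    by_cases hA : ∃ a ∈ P, a ∉ L
    · obtain ⟨a, ha, haL⟩ := hA
      by_cases hB : ∃ b ∈ P, b ∉ L ∧ b + a ∉ L
      · obtain ⟨b, hb, hbL, hbaL⟩ := hB
        refine ⟨a, b, fun c hc => ?_⟩
        by_contra hcon
        push Not at hcon
        obtain ⟨hc1, hc2, hc3, hc4⟩ := hcon
        have qa := hone a ha haL
        have qb := hone b hb hbL
        have qc := hone c hc hc1
        have qba := hone _ (P.add_mem hb ha) hbaL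
        have qca := hone _ (P.add_mem hc ha) hc2
        have qcb := hone _ (P.add_mem hc hb) hc3
        have qcab := hone _ (P.add_mem (P.add_mem hc ha) hb) hc4
        rw [Qf_add] at qba qca qcb
        rw [Qf_add, Qf_add, sp_add_left] at qcab
        rw [qa, qb] at qba
        rw [qc, qa] at qca
        rw [qc, qb] at qcb
        rw [qc, qa, qb] at qcab
        have h2 : (1 : ZMod 2) + 1 = 0 := rfl
        rw [h2, zero_add] at qba qca qcb
        rw [qca, qcb, sp_comm a b, qba] at qcab
        exact absurd qcab (by decide)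
      · push Not at hB
        refine ⟨a, 0, fun c hc => ?_⟩
        by_cases h1 : c ∈ L
        · exact Or.inl h1
        · exact Or.inr (Or.inl (hB c hc h1))
    · push Not at hA
      exact ⟨0, 0, fun c hc => Or.inl (hA c hc)⟩
  have hP4 : Fintype.card P ≤ 4 * Fintype.card L := by
    obtain ⟨a, b, hab⟩ := hcov
    let f : Fin 4 × L → V × Module.Dual (ZMod 2) V := fun y =>
      (y.2 : V × Module.Dual (ZMod 2) V) + ![0, a, b, a + b] y.1
    have hsub : ∀ c : P, ∃ y, f y = c := by
      intro c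
      have hself : ∀ x : V × Module.Dual (ZMod 2) V, x + x = 0 := v_add_self
      rcases hab c c.2 with h | h | h | h
      · exact ⟨(0, ⟨c, h⟩), by simp [f]⟩
      · refine ⟨(1, ⟨_, h⟩), ?_⟩
        change (c : V × Module.Dual (ZMod 2) V) + a + a = c
        rw [add_assoc, hself, add_zero]
      · refine ⟨(2, ⟨_, h⟩), ?_⟩
        change (c : V × Module.Dual (ZMod 2) V) + b + b = c
        rw [add_assoc, hself, add_zero]
      · refine ⟨(3, ⟨_, h⟩), ?_⟩
        change (c : V × Module.Dual (ZMod 2) V) + a + b + (a + b) = c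
        rw [add_assoc (c : V × Module.Dual (ZMod 2) V) a b, add_assoc, hself, add_zero]
    choose g hg using hsub
    have hginj : Function.Injective g := by
      intro c c' h
      apply Subtype.ext
      rw [← hg c, ← hg c', h]
    have := Fintype.card_le_of_injective g hginj
    rwa [Fintype.card_prod, Fintype.card_fin] at this
  -- `M` is covered by few cosets of `P`
  have hMP : Fintype.card M ≤ Fintype.card P * Fintype.card L := by
    let φ : M →ₗ[ZMod 2] Module.Dual (ZMod 2) L :=
      { toFun := fun z =>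
          { toFun := fun y => sp (z : V × Module.Dual (ZMod 2) V) y
            map_add' := fun y y' => sp_add _ _ _
            map_smul' := fun c y => sp_smul _ _ _ }
        map_add' := fun z z' => by
          ext y
          exact sp_add_left _ _ _
        map_smul' := fun c z => by
          ext y
          change sp (c • (z : V × Module.Dual (ZMod 2) V)) y = c * sp (z : V × Module.Dual (ZMod 2) V) y
          rw [sp_comm, sp_smul, sp_comm] }
    have h1 : Fintype.card M = Fintype.card (LinearMap.ker φ) * Fintype.card (LinearMap.range φ) := by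
      have h2 := Submodule.card_eq_card_quotient_mul_card (LinearMap.ker φ)
      have h3 := Nat.card_congr φ.quotKerEquivRange.toEquiv
      rw [h3] at h2
      simp only [Nat.card_eq_fintype_card] at h2
      rw [h2, mul_comm]
    have h4 : Fintype.card (LinearMap.ker φ) ≤ Fintype.card P := by
      refine Fintype.card_le_of_injective (fun z : LinearMap.ker φ =>
        (⟨((z : M) : V × Module.Dual (ZMod 2) V), (hmemP _).2 ⟨(z : M).2, fun y hy => ?_⟩⟩ : P)) ?_
      · have h5 := LinearMap.mem_ker.1 z.2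
        exact congrArg (fun l : Module.Dual (ZMod 2) L => l ⟨y, hy⟩) h5
      · intro z z' h
        have h6 := congrArg (fun t : P => (t : V × Module.Dual (ZMod 2) V)) h
        exact Subtype.ext (Subtype.ext h6)
    have h7 : Fintype.card (LinearMap.range φ) ≤ Fintype.card L := by
      rw [← card_dual (V := L)]
      exact Fintype.card_le_of_injective (fun z : LinearMap.range φ => (z : Module.Dual (ZMod 2) L))
        Subtype.val_injective
    rw [h1]
    exact Nat.mul_le_mul h4 h7
  calc Fintype.card M ≤ Fintype.card P * Fintype.card L := hMP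
    _ ≤ (4 * Fintype.card L) * Fintype.card L := Nat.mul_le_mul_right _ hP4
    _ = 4 * Fintype.card L ^ 2 := by ring

/-- A subspace with a large average of the squared correlations is small. -/
theorem sub_bound (F : V → ℝ) (hF : ∀ x, F x ^ 2 = 1) (ρ : ℝ) (hR : Rb F ρ)
    (L0 : Submodule (ZMod 2) (V × Module.Dual (ZMod 2) V)) (θ : ℝ) (hθ : 0 < θ)
    (hL0 : θ * Fintype.card L0 ≤ ∑ z : L0, gg F z) :
    θ ^ 3 * Fintype.card L0 ≤ 4 * ρ ^ 2 := by
  have hpos : ∀ L : Submodule (ZMod 2) (V × Module.Dual (ZMod 2) V), (0 : ℝ) < Fintype.card L := by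
    intro L
    have : 0 < Fintype.card L := Fintype.card_pos_iff.2 ⟨0⟩
    exact_mod_cast this
  have havg : ∀ L' : Submodule (ZMod 2) (V × Module.Dual (ZMod 2) V), L' ≤ L0 →
      θ * Fintype.card L' ≤ ∑ z : L', gg F z := by
    intro L' h
    have h1 := gg_mono F L' L0 h
    have h2 : (Fintype.card L0 : ℝ) * (θ * Fintype.card L')
        ≤ (Fintype.card L0 : ℝ) * ∑ y : L', gg F y := by
      calc (Fintype.card L0 : ℝ) * (θ * Fintype.card L')
          = (Fintype.card L' : ℝ) * (θ * Fintype.card L0) := by ring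
        _ ≤ (Fintype.card L' : ℝ) * ∑ z : L0, gg F z := mul_le_mul_of_nonneg_left hL0 (hpos L').le
        _ ≤ _ := h1
    exact le_of_mul_le_mul_left h2 (hpos L0)
  -- the vertical part
  set X0 : Submodule (ZMod 2) (V × Module.Dual (ZMod 2) V) :=
    L0 ⊓ LinearMap.ker (LinearMap.fst (ZMod 2) V (Module.Dual (ZMod 2) V)) with hX0
  have hX0fst : ∀ z ∈ X0, z.1 = 0 := fun z hz => LinearMap.mem_ker.1 (Submodule.mem_inf.1 hz).2
  have hX0sum : ∑ z : X0, gg F z ≤ 1 := by
    rw [← sum_gg_fst F hF 0]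
    have hinj : Function.Injective (fun z : X0 => (z : V × Module.Dual (ZMod 2) V).2) := by
      intro z w h
      apply Subtype.ext
      exact Prod.ext ((hX0fst _ z.2).trans (hX0fst _ w.2).symm) h
    have h1 : ∀ z : X0, gg F (z : V × Module.Dual (ZMod 2) V)
        = gg F (0, (z : V × Module.Dual (ZMod 2) V).2) := by
      intro z
      congr 1
      exact Prod.ext (hX0fst _ z.2) rfl
    simp only [h1]
    rw [← Finset.sum_image (s := Finset.univ) (f := fun ξ => gg F (0, ξ))
      (g := fun z : X0 => (z : V × Module.Dual (ZMod 2) V).2) (fun z _ w _ h => hinj h)]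
    exact Finset.sum_le_sum_of_subset_of_nonneg (Finset.subset_univ _) (fun h _ _ => gg_nonneg F _)
  have hX0card : θ * Fintype.card X0 ≤ 1 := (havg X0 inf_le_left).trans hX0sum
  -- a complement
  obtain ⟨C, hC⟩ := Submodule.exists_isCompl (K := ZMod 2) (V := L0) (X0.submoduleOf L0)
  set L1 : Submodule (ZMod 2) (V × Module.Dual (ZMod 2) V) := C.map L0.subtype with hL1
  have hL1le : L1 ≤ L0 := Submodule.map_subtype_le L0 C
  have hcard : Fintype.card L0 ≤ Fintype.card X0 * Fintype.card L1 := by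
    have hsurj : Function.Surjective (fun p : X0 × L1 =>
        ((⟨(p.1 : V × Module.Dual (ZMod 2) V) + p.2,
          L0.add_mem (Submodule.mem_inf.1 p.1.2).1 (hL1le p.2.2)⟩ : L0))) := by
      intro z
      obtain ⟨x, hx, y, hy, hxy⟩ := Submodule.mem_sup.1
        (show z ∈ X0.submoduleOf L0 ⊔ C by rw [hC.sup_eq_top]; trivial)
      refine ⟨(⟨(x : V × Module.Dual (ZMod 2) V), hx⟩, ⟨(y : V × Module.Dual (ZMod 2) V),
        Submodule.mem_map_of_mem hy⟩), ?_⟩
      apply Subtype.ext
      exact congrArg (fun t : L0 => (t : V × Module.Dual (ZMod 2) V)) hxy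
    have := Fintype.card_le_of_surjective _ hsurj
    rwa [Fintype.card_prod] at this
  have hgr1 : ∀ z ∈ L1, z.1 = 0 → z = 0 := by
    intro z hz h0
    obtain ⟨y, hy, rfl⟩ := Submodule.mem_map.1 hz
    have h1 : y ∈ X0.submoduleOf L0 := by
      change (y : V × Module.Dual (ZMod 2) V) ∈ X0
      exact Submodule.mem_inf.2 ⟨y.2, LinearMap.mem_ker.2 h0⟩
    have h2 : y ∈ X0.submoduleOf L0 ⊓ C := Submodule.mem_inf.2 ⟨h1, hy⟩
    rw [hC.inf_eq_bot] at h2
    rw [(Submodule.mem_bot _).1 h2]
    rfl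
  obtain ⟨L, hLL1, hLs, hLcard⟩ := exists_sing L1
  have h1 : θ * Fintype.card L ≤ ρ :=
    (havg L (hLL1.trans hL1le)).trans (graph_bound F hF ρ hR L hLs (fun z hz => hgr1 z (hLL1 hz)))
  have h2 : (Fintype.card L1 : ℝ) ≤ 4 * (Fintype.card L : ℝ) ^ 2 := by exact_mod_cast hLcard
  have h3 : (Fintype.card L0 : ℝ) ≤ Fintype.card X0 * Fintype.card L1 := by exact_mod_cast hcard
  have h4 : θ * Fintype.card L0 ≤ Fintype.card L1 := by
    calc θ * (Fintype.card L0 : ℝ) ≤ θ * (Fintype.card X0 * Fintype.card L1) :=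
          mul_le_mul_of_nonneg_left h3 hθ.le
      _ = (θ * Fintype.card X0) * Fintype.card L1 := by ring
      _ ≤ 1 * Fintype.card L1 := mul_le_mul_of_nonneg_right hX0card (hpos L1).le
      _ = _ := one_mul _
  have h5 : (θ * Fintype.card L) ^ 2 ≤ ρ ^ 2 :=
    pow_le_pow_left₀ (mul_nonneg hθ.le (hpos L).le) h1 2
  calc θ ^ 3 * (Fintype.card L0 : ℝ) = θ ^ 2 * (θ * Fintype.card L0) := by ring
    _ ≤ θ ^ 2 * Fintype.card L1 := mul_le_mul_of_nonneg_left h4 (by positivity)
    _ ≤ θ ^ 2 * (4 * (Fintype.card L : ℝ) ^ 2) := mul_le_mul_of_nonneg_left h2 (by positivity)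
    _ = 4 * (θ * Fintype.card L) ^ 2 := by ring
    _ ≤ 4 * ρ ^ 2 := by linarith

end RM44
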