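import Pool.Agent.Helper44.RM.TEx

set_option autoImplicit false
set_option linter.unusedSectionVars false

open scoped BigOperators
open Classical

namespace RM44
open RMC

variable {I : Type} [Fintype I]

section main
variable {V : Type} [AddCommGroup V] [Module (ZMod 2) V] [Fintype V]

/-- the contribution of one code for a family of functions -/
noncomputable def TF (C : Submodule (ZMod 2) (I → ZMod 2)) (F : I → V → ℝ) : ℝ :=
  ∑ X : CV V C, ∏ i, F i ((X : I → V) i)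

/-- first half: `N^(s-t) T² ≤ N^(2s) E` -/
lemma TF_sq_E {C : Submodule (ZMod 2) (I → ZMod 2)} (hC : SD C) (s : ℕ)
    (hs : Fintype.card I = 2 * s) (F : I → V → ℝ) (hF : ∀ i x, F i x ^ 2 = 1) {J R : Finset I}
    (hJ : Free J C) (hJc : Free Jᶜ C) (hRJ : R ⊆ J) :
    (Fintype.card V : ℝ) ^ (J \ R).card * TF C F ^ 2
      ≤ (Fintype.card V : ℝ) ^ (2 * s) * ∑ X : CV (V × Module.Dual (ZMod 2) V) C,
          (∏ i ∈ R, del ((X : I → V × Module.Dual (ZMod 2) V) i))
            * ∏ i ∈ Rᶜ, |pn (F i) ((X : I → V × Module.Dual (ZMod 2) V) i)| := by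
  have hN := cardV_pos (V := V)
  let U : AddSubgroup (CV V C) :=
    { carrier := {h | ∀ i ∈ R, (h : I → V) i = 0}
      zero_mem' := by intro i _; rfl
      add_mem' := by
        intro x y hx hy i hi
        change (x : I → V) i + (y : I → V) i = 0
        rw [hx i hi, hy i hi, add_zero]
      neg_mem' := by
        intro x hx i hi
        change - (x : I → V) i = 0
        rw [hx i hi, neg_zero] }
  let a : CV V C → ℝ := fun c => ∏ i ∈ R, F i ((c : I → V) i)
  let b : CV V C → ℝ := fun c => ∏ i ∈ Rᶜ, F i ((c : I → V) i)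
  have hw : ∀ h : CV V C, (if h ∈ U then (1 : ℝ) else 0) = ∏ i ∈ R, del ((h : I → V) i) := by
    intro h
    rw [prod_del]
    have h0 : h ∈ U ↔ ∀ i ∈ R, (h : I → V) i = 0 := Iff.rfl
    by_cases hh : h ∈ U
    · rw [if_pos hh, if_pos (h0.1 hh)]
    · rw [if_neg hh, if_neg (fun h1 => hh (h0.2 h1))]
  have hv := vdc U a b (fun c => by
      change (∏ i ∈ R, F i ((c : I → V) i)) ^ 2 = 1
      rw [← Finset.prod_pow]
      exact Finset.prod_eq_one (fun i _ => hF i _))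
    (fun c h hh => by
      refine Finset.prod_congr rfl (fun i hi => ?_)
      have h1 : ((c + h : CV V C) : I → V) i = (c : I → V) i + (h : I → V) i := rfl
      rw [h1, hh i hi, add_zero])
  simp only [hw] at hv
  have hK : ∑ h : CV V C, ∏ i ∈ R, del ((h : I → V) i) = (Fintype.card V : ℝ) ^ (J \ R).card := by
    have h1 := sum_delR (W := V) hC hJ hJc hRJ (fun _ _ => 1)
    simpa using h1
  have hT : ∑ c, a c * b c = TF C F := by
    unfold TF
    refine Finset.sum_congr rfl (fun c _ => ?_)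
    exact Finset.prod_mul_prod_compl R (fun i => F i ((c : I → V) i))
  rw [hK, hT, card_CV hC s hs] at hv
  have hin : ∀ h : CV V C, ∑ c : CV V C, b c * b (c + h)
      = (Fintype.card V : ℝ) ^ s * ∑ Ξ : CV (Module.Dual (ZMod 2) V) C,
        (∏ i ∈ R, del ((Ξ : I → Module.Dual (ZMod 2) V) i))
          * ∏ i ∈ Rᶜ, pn (F i) ((h : I → V) i, (Ξ : I → Module.Dual (ZMod 2) V) i) := by
    intro h
    have h1 := poisson hC s hs
      (fun i y => if i ∈ R then 1 else F i y * F i (y + (h : I → V) i))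
      (fun i ξ => if i ∈ R then del ξ else pn (F i) ((h : I → V) i, ξ))
      (fun i y => by
        by_cases hi : i ∈ R
        · simp only [if_pos hi]
          exact del_inv y
        · simp only [if_neg hi]
          exact auto_inv (F i) _ y)
    have h2 : ∀ c : CV V C, b c * b (c + h)
        = ∏ i, (if i ∈ R then (1 : ℝ) else F i ((c : I → V) i) * F i ((c : I → V) i + (h : I → V) i)) := by
      intro c
      rw [← Finset.prod_mul_prod_compl R]
      have h3 : ∏ i ∈ R, (if i ∈ R then (1 : ℝ)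
          else F i ((c : I → V) i) * F i ((c : I → V) i + (h : I → V) i)) = 1 :=
        Finset.prod_eq_one (fun i hi => if_pos hi)
      rw [h3, one_mul]
      change (∏ i ∈ Rᶜ, F i ((c : I → V) i)) * (∏ i ∈ Rᶜ, F i (((c + h : CV V C) : I → V) i)) = _
      rw [← Finset.prod_mul_distrib]
      refine Finset.prod_congr rfl (fun i hi => ?_)
      rw [if_neg (Finset.mem_compl.1 hi)]
      rfl
    simp only [h2]
    rw [h1]
    congr 1
    refine Finset.sum_congr rfl (fun Ξ _ => ?_)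
    rw [← Finset.prod_mul_prod_compl R]
    congr 1
    · exact Finset.prod_congr rfl (fun i hi => if_pos hi)
    · exact Finset.prod_congr rfl (fun i hi => if_neg (Finset.mem_compl.1 hi))
  simp only [hin] at hv
  refine hv.trans ?_
  have hR2 : ∑ h : CV V C, (∏ i ∈ R, del ((h : I → V) i)) *
      ((Fintype.card V : ℝ) ^ s * ∑ Ξ : CV (Module.Dual (ZMod 2) V) C,
        (∏ i ∈ R, del ((Ξ : I → Module.Dual (ZMod 2) V) i))
          * ∏ i ∈ Rᶜ, pn (F i) ((h : I → V) i, (Ξ : I → Module.Dual (ZMod 2) V) i))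
      = (Fintype.card V : ℝ) ^ s * ∑ X : CV (V × Module.Dual (ZMod 2) V) C,
          (∏ i ∈ R, del ((X : I → V × Module.Dual (ZMod 2) V) i))
            * ∏ i ∈ Rᶜ, pn (F i) ((X : I → V × Module.Dual (ZMod 2) V) i) := by
    rw [← (cvProd C).symm.sum_comp, Fintype.sum_prod_type, Finset.mul_sum]
    refine Finset.sum_congr rfl (fun h _ => ?_)
    rw [Finset.mul_sum, Finset.mul_sum, Finset.mul_sum]
    refine Finset.sum_congr rfl (fun Ξ _ => ?_)
    have h5 : ∏ i ∈ R, del ((((cvProd C).symm (h, Ξ) : CV (V × Module.Dual (ZMod 2) V) C) :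
        I → V × Module.Dual (ZMod 2) V) i)
        = (∏ i ∈ R, del ((h : I → V) i)) * ∏ i ∈ R, del ((Ξ : I → Module.Dual (ZMod 2) V) i) := by
      rw [← Finset.prod_mul_distrib]
      refine Finset.prod_congr rfl (fun i _ => ?_)
      exact del_mk _ _
    rw [h5]
    change (∏ i ∈ R, del ((h : I → V) i)) * ((Fintype.card V : ℝ) ^ s *
      ((∏ i ∈ R, del ((Ξ : I → Module.Dual (ZMod 2) V) i))
          * ∏ i ∈ Rᶜ, pn (F i) ((h : I → V) i, (Ξ : I → Module.Dual (ZMod 2) V) i)))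
      = (Fintype.card V : ℝ) ^ s * (((∏ i ∈ R, del ((h : I → V) i))
        * ∏ i ∈ R, del ((Ξ : I → Module.Dual (ZMod 2) V) i))
          * ∏ i ∈ Rᶜ, pn (F i) ((h : I → V) i, (Ξ : I → Module.Dual (ZMod 2) V) i))
    ring
  rw [hR2]
  push_cast
  rw [← mul_assoc, ← pow_add, ← two_mul]
  refine mul_le_mul_of_nonneg_left ?_ (by positivity)
  refine Finset.sum_le_sum (fun X _ => ?_)
  refine mul_le_mul_of_nonneg_left ?_ (Finset.prod_nonneg (fun i _ => del_nonneg _))
  refine (le_abs_self _).trans (le_of_eq ?_)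
  rw [Finset.abs_prod]

/-- second half: `E² ≤ N^(2(s-t)) u^t` -/
lemma EF_sq_le {C : Submodule (ZMod 2) (I → ZMod 2)} (hC : SD C) (s : ℕ)
    (hs : Fintype.card I = 2 * s) (F : I → V → ℝ) (hF : ∀ i x, F i x ^ 2 = 1) (u : ℝ) (hu0 : 0 ≤ u)
    (hu : ∀ i, ∑ z : V × Module.Dual (ZMod 2) V, gg (F i) z ^ 2 ≤ u * Fintype.card V)
    (J R Y2 Y4 : Finset I) (h : Ex C J R Y2 Y4) :
    (∑ X : CV (V × Module.Dual (ZMod 2) V) C,
          (∏ i ∈ R, del ((X : I → V × Module.Dual (ZMod 2) V) i))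
            * ∏ i ∈ Rᶜ, |pn (F i) ((X : I → V × Module.Dual (ZMod 2) V) i)|) ^ 2
      ≤ ((Fintype.card V : ℝ) ^ (J \ R).card) ^ 2 * u ^ R.card := by
  have hN := cardV_pos (V := V)
  have hgg0 := fun i => gg_nonneg (F i)
  let w : CV (V × Module.Dual (ZMod 2) V) C → ℝ := fun X =>
    ∏ i ∈ R, del ((X : I → V × Module.Dual (ZMod 2) V) i)
  have hw0 : ∀ X, 0 ≤ w X := fun X => Finset.prod_nonneg (fun i _ => del_nonneg _)
  let P : Finset I → CV (V × Module.Dual (ZMod 2) V) C → ℝ := fun A X =>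
    ∏ i ∈ A, |pn (F i) ((X : I → V × Module.Dual (ZMod 2) V) i)|
  let G : Finset I → CV (V × Module.Dual (ZMod 2) V) C → ℝ := fun A X =>
    ∏ i ∈ A, gg (F i) ((X : I → V × Module.Dual (ZMod 2) V) i)
  have hPG : ∀ A X, P A X ^ 2 = G A X := by
    intro A X
    change (∏ i ∈ A, |pn (F i) ((X : I → V × Module.Dual (ZMod 2) V) i)|) ^ 2 = _
    rw [← Finset.prod_pow]
    exact Finset.prod_congr rfl (fun i _ => pn_sq (F i) _)
  have hRc : Rᶜ = (J \ R) ∪ Jᶜ := by
    ext i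
    simp only [Finset.mem_compl, Finset.mem_union, Finset.mem_sdiff]
    constructor
    · intro hi
      by_cases hiJ : i ∈ J
      · exact Or.inl ⟨hiJ, hi⟩
      · exact Or.inr hiJ
    · rintro (hi | hi)
      · exact hi.2
      · exact fun hiR => hi (h.hR hiR)
  have hdis : Disjoint (J \ R) Jᶜ := by
    rw [Finset.disjoint_left]
    intro i hi hi2
    exact (Finset.mem_compl.1 hi2) (Finset.mem_sdiff.1 hi).1
  have hsplit : ∀ X, P Rᶜ X = P (J \ R) X * P Jᶜ X := by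
    intro X
    change ∏ i ∈ Rᶜ, _ = _
    rw [hRc, Finset.prod_union hdis]
  -- first Cauchy-Schwarz
  have hE : (∑ X, w X * P Rᶜ X) ^ 2 ≤ (∑ X, w X * G (J \ R) X) * ∑ X, w X * G Jᶜ X := by
    simp only [hsplit]
    have h1 := wcs Finset.univ w (P (J \ R)) (P Jᶜ) hw0
    simp only [hPG] at h1
    exact h1
  have hE1 : ∑ X, w X * G (J \ R) X = (Fintype.card V : ℝ) ^ (J \ R).card := by
    have h1 := sum_delR (W := V × Module.Dual (ZMod 2) V) hC h.hJ h.hJc h.hR (fun i => gg (F i))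
    rw [Finset.prod_congr rfl (fun i _ => sum_gg (F i) (hF i)), Finset.prod_const] at h1
    exact h1
  -- second Cauchy-Schwarz
  have hJcs : ∀ {Y Y' : Finset I}, Y ⊆ Jᶜ → Y' ⊆ Jᶜ → Disjoint Y Y' →
      ∀ X, G (Jᶜ \ Y) X = G (Jᶜ \ (Y ∪ Y')) X * G Y' X := by
    intro Y Y' hY hY' hYY X
    have h1 : Jᶜ \ Y = (Jᶜ \ (Y ∪ Y')) ∪ Y' := by
      ext i
      simp only [Finset.mem_union, Finset.mem_sdiff]
      constructor
      · rintro ⟨h1, h2⟩
        by_cases h3 : i ∈ Y'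
        · exact Or.inr h3
        · exact Or.inl ⟨h1, by tauto⟩
      · rintro (⟨h1, h2⟩ | h1)
        · exact ⟨h1, by tauto⟩
        · exact ⟨hY' h1, fun h2 => (Finset.disjoint_left.1 hYY) h2 h1⟩
    have h2 : Disjoint (Jᶜ \ (Y ∪ Y')) Y' := by
      rw [Finset.disjoint_left]
      intro i hi hi2
      exact (Finset.mem_sdiff.1 hi).2 (Finset.mem_union_right _ hi2)
    change ∏ i ∈ Jᶜ \ Y, _ = _
    rw [h1, Finset.prod_union h2]
  let w2 : CV (V × Module.Dual (ZMod 2) V) C → ℝ := fun X => w X * G (Jᶜ \ (Y2 ∪ Y4)) X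
  have hG0 : ∀ A X, 0 ≤ G A X := fun A X => Finset.prod_nonneg (fun i _ => hgg0 i _)
  have hw20 : ∀ X, 0 ≤ w2 X := fun X => mul_nonneg (hw0 X) (hG0 _ _)
  have hE2 : (∑ X, w X * G Jᶜ X) ^ 2
      ≤ (∑ X, w X * (G (Jᶜ \ Y2) X * G Y4 X)) * ∑ X, w X * (G (Jᶜ \ Y4) X * G Y2 X) := by
    have h1 := wcs Finset.univ w2 (G Y4) (G Y2) hw20
    have h2 : ∀ X, w2 X * (G Y4 X * G Y2 X) = w X * G Jᶜ X := by
      intro X
      have h3 : G Jᶜ X = G (Jᶜ \ Y2) X * G Y2 X := by
        change ∏ i ∈ Jᶜ, _ = _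
        exact (Finset.prod_sdiff h.hY2).symm
      rw [h3, hJcs h.hY2 h.hY4 h.dis]
      change w X * G (Jᶜ \ (Y2 ∪ Y4)) X * (G Y4 X * G Y2 X) = _
      ring
    have h4 : ∀ X, w2 X * G Y4 X ^ 2 = w X * (G (Jᶜ \ Y2) X * G Y4 X) := by
      intro X
      rw [hJcs h.hY2 h.hY4 h.dis]
      change w X * G (Jᶜ \ (Y2 ∪ Y4)) X * G Y4 X ^ 2 = _
      ring
    have h5 : ∀ X, w2 X * G Y2 X ^ 2 = w X * (G (Jᶜ \ Y4) X * G Y2 X) := by
      intro X
      rw [hJcs h.hY4 h.hY2 h.dis.symm, Finset.union_comm Y4 Y2]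
      change w X * G (Jᶜ \ (Y2 ∪ Y4)) X * G Y2 X ^ 2 = _
      ring
    simp only [h2, h4, h5] at h1
    exact h1
  -- evaluation
  have hcJ := card_free hC s hs h.hJ h.hJc
  have hcR : R.card ≤ s := hcJ ▸ Finset.card_le_card h.hR
  have hcJR : (J \ R).card = s - R.card := by
    rw [Finset.card_sdiff_of_subset h.hR, hcJ]
  have hcJc : Jᶜ.card = s := by
    rw [Finset.card_compl, hcJ, hs]; omega
  have hsum2 : ∀ i, 0 ≤ ∑ z : V × Module.Dual (ZMod 2) V, gg (F i) z ^ 2 :=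
    fun i => Finset.sum_nonneg (fun z _ => sq_nonneg _)
  have heval : ∀ {Y Y' : Finset I}, Y ⊆ Jᶜ → Y' ⊆ Jᶜ → Disjoint Y Y' →
      Y.card = R.card → Y'.card = R.card → Free (R ∪ (Jᶜ \ Y)) C → Free (R ∪ (Jᶜ \ Y))ᶜ C →
      ∑ X, w X * (G (Jᶜ \ Y) X * G Y' X) ≤ (Fintype.card V : ℝ) ^ (J \ R).card * u ^ R.card := by
    intro Y Y' hY hY' hYY hc hc' hf hfc
    have h1 := sum_delR (W := V × Module.Dual (ZMod 2) V) hC hf hfc
      (Finset.subset_union_left) (fun i z => if i ∈ Y' then gg (F i) z ^ 2 else gg (F i) z)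
    have hB : (R ∪ (Jᶜ \ Y)) \ R = Jᶜ \ Y := by
      ext i
      simp only [Finset.mem_sdiff, Finset.mem_union, Finset.mem_compl]
      constructor
      · rintro ⟨h1 | h1, h2⟩
        · exact absurd h1 h2
        · exact h1
      · intro h1
        exact ⟨Or.inr h1, fun h2 => h1.1 (h.hR h2)⟩
    rw [hB] at h1
    have hYc : Y' ⊆ Jᶜ \ Y := fun i hi =>
      Finset.mem_sdiff.2 ⟨hY' hi, fun h2 => (Finset.disjoint_left.1 hYY) h2 hi⟩
    have h2 : ∀ X : CV (V × Module.Dual (ZMod 2) V) C,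
        w X * (G (Jᶜ \ Y) X * G Y' X)
        = (∏ i ∈ R, del ((X : I → V × Module.Dual (ZMod 2) V) i)) *
          ∏ i ∈ Jᶜ \ Y, (if i ∈ Y' then gg (F i) ((X : I → V × Module.Dual (ZMod 2) V) i) ^ 2
            else gg (F i) ((X : I → V × Module.Dual (ZMod 2) V) i)) := by
      intro X
      change w X * _ = w X * _
      congr 1
      rw [hJcs hY hY' hYY, ← Finset.prod_sdiff hYc]
      have h3 : (Jᶜ \ Y) \ Y' = Jᶜ \ (Y ∪ Y') := by
        rw [Finset.sdiff_sdiff_left']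
        ext i
        simp only [Finset.mem_sdiff, Finset.mem_union, Finset.mem_inter]
        tauto
      rw [h3]
      have h4 : ∏ i ∈ Jᶜ \ (Y ∪ Y'), (if i ∈ Y' then
            gg (F i) ((X : I → V × Module.Dual (ZMod 2) V) i) ^ 2
            else gg (F i) ((X : I → V × Module.Dual (ZMod 2) V) i)) = G (Jᶜ \ (Y ∪ Y')) X := by
        refine Finset.prod_congr rfl (fun i hi => if_neg ?_)
        intro h5
        exact (Finset.mem_sdiff.1 hi).2 (Finset.mem_union_right _ h5)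
      have h6 : ∏ i ∈ Y', (if i ∈ Y' then
            gg (F i) ((X : I → V × Module.Dual (ZMod 2) V) i) ^ 2
            else gg (F i) ((X : I → V × Module.Dual (ZMod 2) V) i)) = G Y' X ^ 2 := by
        change _ = (∏ i ∈ Y', gg (F i) ((X : I → V × Module.Dual (ZMod 2) V) i)) ^ 2
        rw [← Finset.prod_pow]
        exact Finset.prod_congr rfl (fun i hi => if_pos hi)
      rw [h4, h6]
      ring
    simp only [h2]
    rw [h1]
    have h8 : ((Jᶜ \ Y) \ Y').card + R.card = (J \ R).card := by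
      rw [Finset.card_sdiff_of_subset hYc, Finset.card_sdiff_of_subset hY, hcJc, hc, hc', hcJR]
      have h9 := Finset.card_le_card hYc
      rw [Finset.card_sdiff_of_subset hY, hcJc, hc, hc'] at h9
      omega
    have h10 : ∏ i ∈ (Jᶜ \ Y) \ Y', ∑ z : V × Module.Dual (ZMod 2) V,
        (if i ∈ Y' then gg (F i) z ^ 2 else gg (F i) z)
        = (Fintype.card V : ℝ) ^ ((Jᶜ \ Y) \ Y').card := by
      rw [← Finset.prod_const]
      refine Finset.prod_congr rfl (fun i hi => ?_)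
      simp only [if_neg (Finset.mem_sdiff.1 hi).2]
      exact sum_gg (F i) (hF i)
    have h11 : ∏ i ∈ Y', ∑ z : V × Module.Dual (ZMod 2) V,
        (if i ∈ Y' then gg (F i) z ^ 2 else gg (F i) z)
        ≤ (u * Fintype.card V) ^ R.card := by
      rw [← hc', ← Finset.prod_const]
      refine Finset.prod_le_prod (fun i hi => ?_) (fun i hi => ?_)
      · simp only [if_pos hi]
        exact hsum2 i
      · simp only [if_pos hi]
        exact hu i
    rw [← Finset.prod_sdiff hYc, h10]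
    calc (Fintype.card V : ℝ) ^ ((Jᶜ \ Y) \ Y').card
          * ∏ i ∈ Y', ∑ z : V × Module.Dual (ZMod 2) V,
            (if i ∈ Y' then gg (F i) z ^ 2 else gg (F i) z)
        ≤ (Fintype.card V : ℝ) ^ ((Jᶜ \ Y) \ Y').card * (u * Fintype.card V) ^ R.card :=
          mul_le_mul_of_nonneg_left h11 (by positivity)
      _ = (Fintype.card V : ℝ) ^ (J \ R).card * u ^ R.card := by
          rw [← h8, mul_pow, pow_add]; ring
  have hE3 := heval h.hY2 h.hY4 h.dis h.c2 h.c4 h.h2 h.h2c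
  have hE4 := heval h.hY4 h.hY2 h.dis.symm h.c4 h.c2 h.h4 h.h4c
  have hE20 : 0 ≤ ∑ X, w X * G Jᶜ X :=
    Finset.sum_nonneg (fun X _ => mul_nonneg (hw0 X) (hG0 _ _))
  have hM0 : 0 ≤ (Fintype.card V : ℝ) ^ (J \ R).card * u ^ R.card := by positivity
  have hE2' : ∑ X, w X * G Jᶜ X ≤ (Fintype.card V : ℝ) ^ (J \ R).card * u ^ R.card := by
    refine (pow_le_pow_iff_left₀ hE20 hM0 (two_ne_zero)).1 ?_
    refine hE2.trans ?_
    rw [pow_two]
    exact mul_le_mul hE3 hE4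
      (Finset.sum_nonneg (fun X _ => mul_nonneg (hw0 X) (mul_nonneg (hG0 _ _) (hG0 _ _)))) hM0
  refine hE.trans ?_
  rw [hE1]
  calc (Fintype.card V : ℝ) ^ (J \ R).card * ∑ X, w X * G Jᶜ X
      ≤ (Fintype.card V : ℝ) ^ (J \ R).card * ((Fintype.card V : ℝ) ^ (J \ R).card * u ^ R.card) :=
        mul_le_mul_of_nonneg_left hE2' (by positivity)
    _ = _ := by ring

/-- The bound for the contribution of one code, from two exchanges of `R`. -/
theorem TF_ex {C : Submodule (ZMod 2) (I → ZMod 2)} (hC : SD C) (s : ℕ)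
    (hs : Fintype.card I = 2 * s) (F : I → V → ℝ) (hF : ∀ i x, F i x ^ 2 = 1) (u : ℝ) (hu0 : 0 ≤ u)
    (hu : ∀ i, ∑ z : V × Module.Dual (ZMod 2) V, gg (F i) z ^ 2 ≤ u * Fintype.card V)
    (J R Y2 Y4 : Finset I) (h : Ex C J R Y2 Y4) :
    TF C F ^ 4 ≤ ((Fintype.card V : ℝ) ^ s) ^ 4 * u ^ R.card := by
  have hN := cardV_pos (V := V)
  have h1 := TF_sq_E hC s hs F hF h.hJ h.hJc h.hR
  have h2 := EF_sq_le hC s hs F hF u hu0 hu J R Y2 Y4 h
  set M : ℝ := (Fintype.card V : ℝ) ^ (J \ R).card with hM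
  have hMpos : 0 < M := by positivity
  set E : ℝ := ∑ X : CV (V × Module.Dual (ZMod 2) V) C,
          (∏ i ∈ R, del ((X : I → V × Module.Dual (ZMod 2) V) i))
            * ∏ i ∈ Rᶜ, |pn (F i) ((X : I → V × Module.Dual (ZMod 2) V) i)| with hE
  have h3 : (M * TF C F ^ 2) ^ 2 ≤ ((Fintype.card V : ℝ) ^ (2 * s) * E) ^ 2 :=
    pow_le_pow_left₀ (by positivity) h1 2
  have h4 : M ^ 2 * TF C F ^ 4 ≤ M ^ 2 * (((Fintype.card V : ℝ) ^ s) ^ 4 * u ^ R.card) := by
    calc M ^ 2 * TF C F ^ 4 = (M * TF C F ^ 2) ^ 2 := by ring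
      _ ≤ ((Fintype.card V : ℝ) ^ (2 * s) * E) ^ 2 := h3
      _ = ((Fintype.card V : ℝ) ^ s) ^ 4 * E ^ 2 := by
          rw [mul_pow, ← pow_mul, ← pow_mul]
          congr 2
          ring
      _ ≤ ((Fintype.card V : ℝ) ^ s) ^ 4 * (M ^ 2 * u ^ R.card) :=
          mul_le_mul_of_nonneg_left h2 (by positivity)
      _ = M ^ 2 * (((Fintype.card V : ℝ) ^ s) ^ 4 * u ^ R.card) := by ring
  exact le_of_mul_le_mul_left h4 (by positivity)

end main

end RM44
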