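import Pool.Agent.Helper44.RM.Self
import Pool.Agent.Helper71.RMC.Moment

set_option autoImplicit false
set_option linter.unusedSectionVars false

open scoped BigOperators
open Classical

namespace RM44
open RMC

variable {V : Type} [AddCommGroup V] [Module (ZMod 2) V] [Fintype V]

/-- derivatives of quadratic functions are affine -/
lemma Q2_deriv {q : V → ZMod 2} (hq : q ∈ Q2 V) (h : V) :
    ∃ (β : Module.Dual (ZMod 2) V) (c : ZMod 2), ∀ x, q (x + h) = q x + β x + c := by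
  unfold Q2 at hq
  induction hq using Submodule.span_induction with
  | mem x hx =>
    rcases hx with hx | ⟨a, b, rfl⟩
    · exact ⟨0, 0, fun y => by rw [hx]; simp⟩
    · refine ⟨b h • a + a h • b, a h * b h, fun y => ?_⟩
      simp only [map_add, LinearMap.add_apply, LinearMap.smul_apply, smul_eq_mul]
      ring
  | zero => exact ⟨0, 0, fun y => by simp⟩
  | add x y _ _ hx hy =>
    obtain ⟨β, c, hβ⟩ := hx
    obtain ⟨β', c', hβ'⟩ := hy
    refine ⟨β + β', c + c', fun z => ?_⟩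
    rw [Pi.add_apply, Pi.add_apply, hβ, hβ', LinearMap.add_apply]
    ring
  | smul a x _ hx =>
    obtain ⟨β, c, hβ⟩ := hx
    refine ⟨a • β, a * c, fun z => ?_⟩
    rw [Pi.smul_apply, Pi.smul_apply, hβ, LinearMap.smul_apply, smul_eq_mul, smul_eq_mul,
      smul_eq_mul]
    ring

/-- the pairs `(h, ξ)` such that the derivative of `q` in direction `h` is `ξ` -/
def dset (q : V → ZMod 2) : Submodule (ZMod 2) (V × Module.Dual (ZMod 2) V) where
  carrier := {z | ∃ c, ∀ x, q (x + z.1) = q x + z.2 x + c}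
  add_mem' := by
    rintro z z' ⟨c, hc⟩ ⟨c', hc'⟩
    refine ⟨c + c' + z'.2 z.1, fun x => ?_⟩
    rw [Prod.fst_add, ← add_assoc, hc', hc, Prod.snd_add, LinearMap.add_apply, map_add]
    ring
  zero_mem' := ⟨0, fun x => by simp⟩
  smul_mem' := by
    rintro a z ⟨c, hc⟩
    rcases zmod2_cases a with h | h
    · exact ⟨0, fun x => by rw [h]; simp⟩
    · exact ⟨c, fun x => by rw [h, one_smul]; exact hc x⟩

lemma mem_dset {q : V → ZMod 2} {z : V × Module.Dual (ZMod 2) V} :
    z ∈ dset q ↔ ∃ c, ∀ x, q (x + z.1) = q x + z.2 x + c := Iff.rfl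

/-- the quadratic form -/
def Qf (z : V × Module.Dual (ZMod 2) V) : ZMod 2 := z.2 z.1

lemma Qf_add (z w : V × Module.Dual (ZMod 2) V) : Qf (z + w) = Qf z + Qf w + sp z w := by
  unfold Qf sp
  rw [Prod.fst_add, Prod.snd_add, LinearMap.add_apply, map_add, map_add]
  ring

lemma sp_eq_zero {L : Submodule (ZMod 2) (V × Module.Dual (ZMod 2) V)} (hL : ∀ z ∈ L, Qf z = 0)
    {z w : V × Module.Dual (ZMod 2) V} (hz : z ∈ L) (hw : w ∈ L) : sp z w = 0 := by
  have h := Qf_add z w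
  rw [hL z hz, hL w hw, hL _ (L.add_mem hz hw)] at h
  simpa using h.symm

/-- one more direction -/
lemma dset_extend (L : Submodule (ZMod 2) (V × Module.Dual (ZMod 2) V)) (hL : ∀ z ∈ L, Qf z = 0)
    (hgr : ∀ z ∈ L, z.1 = 0 → z = 0) {q : V → ZMod 2} (hq : q ∈ Q2 V)
    (hne : ¬ L ≤ dset q) : ∃ q' ∈ Q2 V, L ⊓ dset q < L ⊓ dset q' := by
  obtain ⟨z1, hz1, hz1'⟩ : ∃ z1 ∈ L, z1 ∉ dset q := by
    by_contra hcon
    push Not at hcon
    exact hne hcon
  obtain ⟨β, c', hβ⟩ := Q2_deriv hq z1.1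
  have h0 : ∀ a : ZMod 2, a + a = 0 := zmod2_add_self
  have hc' : c' = q z1.1 + q 0 := by
    have h1 := hβ 0
    rw [zero_add, map_zero, add_zero] at h1
    rw [h1]
    linear_combination (-1 : ZMod 2) * h0 (q 0)
  have hβz : ∀ z ∈ L ⊓ dset q, β z.1 = z.2 z1.1 := by
    intro z hz
    obtain ⟨c, hc⟩ := mem_dset.1 (Submodule.mem_inf.1 hz).2
    have h1 := hβ z.1
    have h2 := hc z1.1
    have h3 := hc 0
    rw [zero_add, map_zero, add_zero] at h3
    rw [add_comm z.1 z1.1, h2, hc', h3] at h1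
    -- q z1 + ξ z1 + c = (q 0 + c) + β z + (q z1 + q 0)
    linear_combination (-1 : ZMod 2) * h1 + (-1 : ZMod 2) * h0 (q 0)
  have hβ1 : β z1.1 = 0 := by
    have h1 := hβ z1.1
    rw [v_add_self, hc'] at h1
    linear_combination (-1 : ZMod 2) * h1 + (-1 : ZMod 2) * h0 (q z1.1)
  let η : Module.Dual (ZMod 2) V := β + z1.2
  have hη1 : η z1.1 = 0 := by
    change β z1.1 + z1.2 z1.1 = 0
    have : z1.2 z1.1 = 0 := hL z1 hz1
    rw [hβ1, this, add_zero]
  have hηz : ∀ z ∈ L ⊓ dset q, η z.1 = 0 := by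
    intro z hz
    change β z.1 + z1.2 z.1 = 0
    rw [hβz z hz]
    exact sp_eq_zero hL (Submodule.mem_inf.1 hz).1 hz1
  -- the functional `lam`
  set P : Submodule (ZMod 2) V := (L ⊓ dset q).map (LinearMap.fst (ZMod 2) V (Module.Dual (ZMod 2) V)) with hP
  have hnot : z1.1 ∉ P := by
    rintro ⟨z, hz, hz'⟩
    have hz'' : z.1 = z1.1 := hz'
    have h1 : z + z1 ∈ L := L.add_mem (Submodule.mem_inf.1 hz).1 hz1
    have h2 := hgr _ h1 (by rw [Prod.fst_add, hz'', v_add_self])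
    have h3 : z = z1 := by
      have h4 : z + z1 + z1 = 0 + z1 := by rw [h2]
      rwa [add_assoc, v_add_self, add_zero, zero_add] at h4
    exact hz1' (h3 ▸ (Submodule.mem_inf.1 hz).2)
  obtain ⟨lam, hlam, hlamP⟩ := Submodule.exists_dual_map_eq_bot_of_notMem hnot inferInstance
  have hlam1 : lam z1.1 = 1 := (zmod2_cases _).resolve_left hlam
  have hlamz : ∀ z ∈ L ⊓ dset q, lam z.1 = 0 := by
    intro z hz
    have h1 : lam z.1 ∈ P.map lam := Submodule.mem_map_of_mem (Submodule.mem_map_of_mem hz)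
    rw [hlamP] at h1
    exact (Submodule.mem_bot _).1 h1
  refine ⟨q + fun x => lam x * η x, (Q2 V).add_mem hq (mul_mem_Q2 lam η), ?_⟩
  rw [lt_iff_le_and_ne]
  have hle : L ⊓ dset q ≤ L ⊓ dset (q + fun x => lam x * η x) := by
    intro z hz
    rw [Submodule.mem_inf]
    refine ⟨(Submodule.mem_inf.1 hz).1, ?_⟩
    obtain ⟨c, hc⟩ := mem_dset.1 (Submodule.mem_inf.1 hz).2
    refine ⟨c, fun x => ?_⟩
    rw [Pi.add_apply, Pi.add_apply, hc, map_add, map_add, hlamz z hz, hηz z hz, add_zero, add_zero]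
    ring
  have hz1mem : z1 ∈ L ⊓ dset (q + fun x => lam x * η x) := by
    rw [Submodule.mem_inf]
    refine ⟨hz1, c', fun x => ?_⟩
    rw [Pi.add_apply, Pi.add_apply, hβ, map_add, map_add, hlam1, hη1, add_zero]
    have h1 : η x = β x + z1.2 x := rfl
    linear_combination h1 + h0 (β x)
  refine ⟨hle, fun heq => ?_⟩
  rw [← heq] at hz1mem
  exact hz1' (Submodule.mem_inf.1 hz1mem).2

/-- a totally singular graph is given by the derivatives of a quadratic function -/
theorem exists_quad (L : Submodule (ZMod 2) (V × Module.Dual (ZMod 2) V))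
    (hL : ∀ z ∈ L, Qf z = 0) (hgr : ∀ z ∈ L, z.1 = 0 → z = 0) : ∃ q ∈ Q2 V, L ≤ dset q := by
  obtain ⟨q, hq⟩ := Finite.exists_max (fun q : Q2 V =>
    Set.ncard ((L ⊓ dset (q : V → ZMod 2) :
      Submodule (ZMod 2) (V × Module.Dual (ZMod 2) V)) : Set (V × Module.Dual (ZMod 2) V)))
  refine ⟨q, q.2, ?_⟩
  by_contra hne
  obtain ⟨q', hq', hlt⟩ := dset_extend L hL hgr q.2 hne
  have h1 := hq ⟨q', hq'⟩
  have h2 := Set.ncard_lt_ncard (SetLike.coe_ssubset_coe.2 hlt) (Set.toFinite _)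
  exact absurd h1 (not_le.2 h2)

/-- the quadratic Fourier bound along a totally singular graph -/
theorem graph_bound (F : V → ℝ) (hF : ∀ x, F x ^ 2 = 1) (ρ : ℝ) (hR : Rb F ρ)
    (L : Submodule (ZMod 2) (V × Module.Dual (ZMod 2) V))
    (hL : ∀ z ∈ L, Qf z = 0) (hgr : ∀ z ∈ L, z.1 = 0 → z = 0) :
    ∑ z : L, gg F z ≤ ρ := by
  obtain ⟨q, hq, hLq⟩ := exists_quad L hL hgr
  set N : ℝ := (Fintype.card V : ℝ) with hN
  have hNpos : 0 < N := cardV_pos
  have hnrm : nrm F = N := by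
    unfold nrm
    simp only [hF, Finset.sum_const, Finset.card_univ, nsmul_eq_mul, mul_one]
    rfl
  let Fq : V → ℝ := fun x => F x * chi (q x)
  have hFq : ∀ x, Fq x ^ 2 = 1 := by
    intro x
    change (F x * chi (q x)) ^ 2 = 1
    rw [mul_pow, hF, one_mul, pow_two, chi_sq]
  let Ac : V → ℝ := fun h => ∑ x, Fq x * Fq (x + h)
  have hcorr : ∀ l : Module.Dual (ZMod 2) V, ∑ h, Ac h * chi (l h) = (∑ x, Fq x * chi (l x)) ^ 2 := by
    intro l
    have h1 : (∑ x, Fq x * chi (l x)) ^ 2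
        = ∑ x, ∑ y, (Fq x * chi (l x)) * (Fq y * chi (l y)) := by
      rw [pow_two, Finset.sum_mul_sum]
    rw [h1]
    have h2 : ∀ x : V, ∑ y, (Fq x * chi (l x)) * (Fq y * chi (l y))
        = ∑ h, (Fq x * Fq (x + h)) * chi (l h) := by
      intro x
      refine (Fintype.sum_equiv (Equiv.addLeft x) _ _ (fun h => ?_)).symm
      change (Fq x * Fq (x + h)) * chi (l h)
        = (Fq x * chi (l x)) * (Fq (x + h) * chi (l (x + h)))
      rw [map_add, chi_add]
      have := chi_sq (l x)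
      linear_combination (-(Fq x * Fq (x + h) * chi (l h))) * this
    simp only [h2]
    rw [Finset.sum_comm]
    refine Finset.sum_congr rfl (fun h _ => ?_)
    change (∑ x, Fq x * Fq (x + h)) * chi (l h) = _
    rw [Finset.sum_mul]
  have h4 : ∑ l : Module.Dual (ZMod 2) V, (∑ x, Fq x * chi (l x)) ^ 4 = N * ∑ h, Ac h ^ 2 := by
    rw [← parseval Ac]
    refine Finset.sum_congr rfl (fun l _ => ?_)
    rw [hcorr l]
    ring
  have h2 : ∑ l : Module.Dual (ZMod 2) V, (∑ x, Fq x * chi (l x)) ^ 2 = N * N := by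
    rw [parseval Fq]
    simp only [hFq, Finset.sum_const, Finset.card_univ, nsmul_eq_mul, mul_one]
    rfl
  have hbd : ∀ l : Module.Dual (ZMod 2) V, (∑ x, Fq x * chi (l x)) ^ 2 ≤ ρ * N := by
    intro l
    have h5 := hR (q + fun x => l x) ((Q2 V).add_mem hq (lin_mem_Q2 l))
    rw [hnrm] at h5
    refine le_trans (le_of_eq ?_) h5
    congr 1
    refine Finset.sum_congr rfl (fun x _ => ?_)
    rw [Pi.add_apply, chi_add]
    change F x * chi (q x) * chi (l x) = _
    ring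
  have h6 : N * ∑ h, Ac h ^ 2 ≤ (ρ * N) * (N * N) := by
    rw [← h4, ← h2, Finset.mul_sum]
    refine Finset.sum_le_sum (fun l _ => ?_)
    have h7 : (∑ x, Fq x * chi (l x)) ^ 4
        = (∑ x, Fq x * chi (l x)) ^ 2 * (∑ x, Fq x * chi (l x)) ^ 2 := by ring
    rw [h7]
    exact mul_le_mul_of_nonneg_right (hbd l) (sq_nonneg _)
  have h8 : ∑ h, Ac h ^ 2 ≤ ρ * N ^ 2 := by
    have h9 : N * ∑ h, Ac h ^ 2 ≤ N * (ρ * N ^ 2) := by linarith
    exact le_of_mul_le_mul_left h9 hNpos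
  have h10 : ∀ z : L, pau F (z : V × Module.Dual (ZMod 2) V).1 (z : V × Module.Dual (ZMod 2) V).2 ^ 2
      = Ac (z : V × Module.Dual (ZMod 2) V).1 ^ 2 := by
    intro z
    obtain ⟨c, hc⟩ := mem_dset.1 (hLq z.2)
    have h11 : Ac (z : V × Module.Dual (ZMod 2) V).1
        = chi c * pau F (z : V × Module.Dual (ZMod 2) V).1 (z : V × Module.Dual (ZMod 2) V).2 := by
      unfold pau
      rw [Finset.mul_sum]
      refine Finset.sum_congr rfl (fun x _ => ?_)
      change (F x * chi (q x)) * (F (x + _) * chi (q (x + _))) = _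
      rw [hc, chi_add, chi_add]
      have := chi_sq (q x)
      linear_combination (F x * F (x + (z : V × Module.Dual (ZMod 2) V).1)
        * chi ((z : V × Module.Dual (ZMod 2) V).2 x) * chi c) * this
    rw [h11, mul_pow, pow_two (chi c), chi_sq, one_mul]
  have hinj : Function.Injective (fun z : L => (z : V × Module.Dual (ZMod 2) V).1) := by
    intro z w hzw
    have hzw' : (z : V × Module.Dual (ZMod 2) V).1 = (w : V × Module.Dual (ZMod 2) V).1 := hzw
    have h12 := hgr _ (L.sub_mem z.2 w.2) (by rw [Prod.fst_sub, hzw', sub_self])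
    exact Subtype.ext (sub_eq_zero.1 h12)
  have h13 : ∑ z : L, Ac (z : V × Module.Dual (ZMod 2) V).1 ^ 2 ≤ ∑ h, Ac h ^ 2 := by
    rw [← Finset.sum_image (s := Finset.univ) (f := fun h => Ac h ^ 2)
      (g := fun z : L => (z : V × Module.Dual (ZMod 2) V).1) (fun z _ w _ h => hinj h)]
    exact Finset.sum_le_sum_of_subset_of_nonneg (Finset.subset_univ _) (fun h _ _ => sq_nonneg _)
  have h14 : ∑ z : L, gg F z = (∑ z : L, Ac (z : V × Module.Dual (ZMod 2) V).1 ^ 2) / N ^ 2 := by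
    rw [Finset.sum_div]
    refine Finset.sum_congr rfl (fun z _ => ?_)
    rw [← h10 z]
    rfl
  rw [h14, div_le_iff₀ (by positivity)]
  exact h13.trans h8

/-- smaller subspaces have larger averages -/
theorem gg_mono (F : V → ℝ) (L' L0 : Submodule (ZMod 2) (V × Module.Dual (ZMod 2) V))
    (h : L' ≤ L0) :
    (Fintype.card L' : ℝ) * ∑ z : L0, gg F z ≤ (Fintype.card L0 : ℝ) * ∑ y : L', gg F y := by
  have h1 : ∑ z : L0, ∑ y : L', gg F ((z : V × Module.Dual (ZMod 2) V) + (y : V × Module.Dual (ZMod 2) V))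
      = (Fintype.card L' : ℝ) * ∑ z : L0, gg F z := by
    rw [Finset.sum_comm]
    have h2 : ∀ y : L', ∑ z : L0, gg F ((z : V × Module.Dual (ZMod 2) V) + (y : V × Module.Dual (ZMod 2) V))
        = ∑ z : L0, gg F z := by
      intro y
      exact Fintype.sum_equiv (Equiv.addRight (⟨y, h y.2⟩ : L0)) _ _ (fun z => rfl)
    simp only [h2]
    rw [Finset.sum_const, Finset.card_univ, nsmul_eq_mul]
  rw [← h1]
  calc ∑ z : L0, ∑ y : L', gg F ((z : V × Module.Dual (ZMod 2) V) + (y : V × Module.Dual (ZMod 2) V))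
      ≤ ∑ _z : L0, ∑ y : L', gg F y := Finset.sum_le_sum (fun z _ => gg_coset F L' z)
    _ = _ := by rw [Finset.sum_const, Finset.card_univ, nsmul_eq_mul]

end RM44
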